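import Pool.Agent.H619.SB.St

set_option autoImplicit false

open MeasureTheory Set Module
open scoped Pointwise NNReal ENNReal

noncomputable section

namespace Pool.Agent.H619.SB

namespace ADD

theorem closed_ero (K Z : ConvexBody E3) : IsClosed (ero (K : Set E3) (Z : Set E3)) := by
  have h : ero (K : Set E3) (Z : Set E3) = ⋂ y ∈ (Z : Set E3), (fun x => x + y) ⁻¹' (K : Set E3) := by
    ext x
    simp [ero]
  rw [h]
  exact isClosed_biInter fun y _ => K.isCompact.isClosed.preimage (continuous_id.add continuous_const)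

theorem convex_ero (K Z : ConvexBody E3) : Convex ℝ (ero (K : Set E3) (Z : Set E3)) := by
  intro x hx x' hx' a b ha hb hab y hy
  have h := K.convex (hx y hy) (hx' y hy) ha hb hab
  have e : a • x + b • x' + y = a • (x + y) + b • (x' + y) := by
    rw [smul_add, smul_add]
    calc a • x + b • x' + y = a • x + b • x' + (a + b) • y := by rw [hab, one_smul]
      _ = _ := by rw [add_smul]; abel
  rw [e]
  exact h

theorem compact_ero (K Z : ConvexBody E3) : IsCompact (ero (K : Set E3) (Z : Set E3)) := by
  obtain ⟨y, hy⟩ := Z.nonempty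
  have h1 : IsCompact ((fun x : E3 => x - y) '' (K : Set E3)) :=
    K.isCompact.image (continuous_id.sub continuous_const)
  refine h1.of_isClosed_subset (closed_ero K Z) ?_
  intro x hx
  exact ⟨x + y, hx y hy, by simp⟩

theorem closed_sy {c : E3} {S : Set E3} (h : IsClosed S) : IsClosed (sy c S) := by
  have h1 : sy c S = S ∩ (fun x => c - x) ⁻¹' S := rfl
  rw [h1]
  exact h.inter (h.preimage (continuous_const.sub continuous_id))

theorem convex_sy {c : E3} {S : Set E3} (h : Convex ℝ S) : Convex ℝ (sy c S) := by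
  intro x hx x' hx' a b ha hb hab
  refine ⟨h hx.1 hx'.1 ha hb hab, ?_⟩
  have h1 := h hx.2 hx'.2 ha hb hab
  have e : c - (a • x + b • x') = a • (c - x) + b • (c - x') := by
    rw [smul_sub, smul_sub]
    calc c - (a • x + b • x') = (a + b) • c - (a • x + b • x') := by rw [hab, one_smul]
      _ = _ := by rw [add_smul]; abel
  rw [e]
  exact h1

end ADD

open ADD in
theorem add : S_ADD := by
  intro K Z c a z hZ ha hz hne hA hZv
  have hcomp : IsCompact (sy c (ero (K : Set E3) (Z : Set E3))) :=
    (compact_ero K Z).of_isClosed_subset (closed_sy (closed_ero K Z)) (fun x hx => hx.1)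
  obtain ⟨A, hAc⟩ : ∃ A : ConvexBody E3, (A : Set E3) = sy c (ero (K : Set E3) (Z : Set E3)) :=
    ⟨⟨sy c (ero (K : Set E3) (Z : Set E3)), convex_sy (convex_ero K Z), hcomp, hne⟩, rfl⟩
  rw [← hAc] at hA
  refine (bm A Z ha hz hA hZv).trans (vol_mono ?_ ?_)
  · rw [ConvexBody.coe_add, hAc]
    rintro _ ⟨x, hx, y, hy, rfl⟩
    refine ⟨hx.1 y hy, ?_⟩
    have h1 := hx.2 (-y) (hZ y hy)
    have e : c - (x + y) = c - x + -y := by abel
    show c - (x + y) ∈ (K : Set E3)
    rw [e]
    exact h1
  · exact ((measure_mono (fun x hx => hx.1)).trans_lt K.isCompact.measure_lt_top).ne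

end Pool.Agent.H619.SB

end
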