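import Pool.Agent.H619.SB.St

set_option autoImplicit false
set_option linter.unusedSectionVars false

open MeasureTheory Set Module
open scoped Pointwise NNReal ENNReal

noncomputable section

namespace Pool.Agent.H619.SB

namespace ASYM

/-- the support function is attained -/
lemma hs_mem (K : ConvexBody E3) (u : E3) : ∃ y ∈ K, inner ℝ y u = hs K u := by
  have hc : IsCompact ((fun y : E3 => (inner ℝ y u : ℝ)) '' (K : Set E3)) :=
    K.isCompact.image (by fun_prop)
  have hn : ((fun y : E3 => (inner ℝ y u : ℝ)) '' (K : Set E3)).Nonempty := K.nonempty.image _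
  obtain ⟨y, hy, hyu⟩ := hc.sSup_mem hn
  exact ⟨y, hy, hyu⟩

lemma le_hs (K : ConvexBody E3) (u : E3) {y : E3} (hy : y ∈ K) : inner ℝ y u ≤ hs K u := by
  have hc : IsCompact ((fun y : E3 => (inner ℝ y u : ℝ)) '' (K : Set E3)) :=
    K.isCompact.image (by fun_prop)
  exact le_csSup hc.bddAbove ⟨y, hy, rfl⟩

/-- at an interior point the support function is not attained -/
lemma lt_hs (K : ConvexBody E3) {u z : E3} (hu : u ≠ 0) (hz : z ∈ interior (K : Set E3)) :
    inner ℝ z u < hs K u := by
  obtain ⟨δ, hδ, hball⟩ := Metric.mem_nhds_iff.1 (mem_interior_iff_mem_nhds.1 hz)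
  have hun : 0 < ‖u‖ := norm_pos_iff.2 hu
  set t := δ / (2 * ‖u‖) with ht
  have ht0 : 0 < t := by positivity
  have hmem : z + t • u ∈ (K : Set E3) := by
    apply hball
    rw [Metric.mem_ball, dist_eq_norm]
    have e : z + t • u - z = t • u := by abel
    rw [e, norm_smul, Real.norm_of_nonneg ht0.le, ht]
    have e2 : δ / (2 * ‖u‖) * ‖u‖ = δ / 2 := by field_simp
    rw [e2]
    linarith
  have h1 := le_hs K u (y := z + t • u) hmem
  rw [inner_add_left, inner_smul_left, real_inner_self_eq_norm_sq] at h1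
  have h2 : 0 < (starRingEnd ℝ) t * ‖u‖ ^ 2 := by
    have : (starRingEnd ℝ) t = t := rfl
    rw [this]
    positivity
  linarith

/-- separation in `ℝ⁴` -/
lemma sep (u : Fin 4 → E3) (c : Fin 4 → ℝ) (h : ¬ ∃ x : E3, ∀ i, c i ≤ inner ℝ x (u i)) :
    ∃ l : Fin 4 → ℝ, (∀ i, 0 ≤ l i) ∧ (∃ i, 0 < l i) ∧ ∑ i, l i • u i = 0 ∧
      0 ≤ ∑ i, l i * c i := by
  set P : Set (Fin 4 → ℝ) := {y | ∀ i, 0 < y i} with hP
  set A : Set (Fin 4 → ℝ) := range (fun x : E3 => fun i => (inner ℝ x (u i) : ℝ) - c i) with hA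
  have hPc : Convex ℝ P := by
    intro x hx y hy a b ha hb hab i
    have h1 := hx i
    have h2 := hy i
    show 0 < (a • x + b • y) i
    simp only [Pi.add_apply, Pi.smul_apply, smul_eq_mul]
    rcases ha.lt_or_eq with h3 | h3
    · have : 0 < a * x i := mul_pos h3 h1
      have : 0 ≤ b * y i := mul_nonneg hb h2.le
      linarith
    · have h4 : b = 1 := by linarith
      rw [← h3, h4]
      simpa using h2
  have hPo : IsOpen P := by
    have e : P = ⋂ i, {y : Fin 4 → ℝ | 0 < y i} := by
      ext y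
      simp [hP]
    rw [e]
    exact isOpen_iInter_of_finite fun i => isOpen_lt continuous_const (continuous_apply i)
  have hAc : Convex ℝ A := by
    rintro _ ⟨x, rfl⟩ _ ⟨y, rfl⟩ a b ha hb hab
    refine ⟨a • x + b • y, ?_⟩
    funext i
    simp only [Pi.add_apply, Pi.smul_apply, smul_eq_mul, inner_add_left, inner_smul_left]
    have e1 : (starRingEnd ℝ) a = a := rfl
    have e2 : (starRingEnd ℝ) b = b := rfl
    rw [e1, e2]
    have e3 : c i = (a + b) * c i := by rw [hab, one_mul]
    linarith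
  have hdis : Disjoint P A := by
    rw [Set.disjoint_left]
    rintro _ hy ⟨x, rfl⟩
    apply h
    refine ⟨x, fun i => ?_⟩
    have := hy i
    simp only at this
    linarith
  obtain ⟨f, r0, hf1, hf2⟩ := geometric_hahn_banach_open hPc hPo hAc hdis
  set l : Fin 4 → ℝ := fun i => -(f (Pi.single i 1)) with hl
  have hfl : ∀ y : Fin 4 → ℝ, f y = -∑ i, l i * y i := by
    intro y
    have h1 := LinearMap.pi_apply_eq_sum_univ (f : (Fin 4 → ℝ) →ₗ[ℝ] ℝ) y
    simp only [ContinuousLinearMap.coe_coe, smul_eq_mul] at h1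
    rw [h1, ← Finset.sum_neg_distrib]
    refine Finset.sum_congr rfl fun i _ => ?_
    have e : (fun j => if i = j then (1 : ℝ) else 0) = Pi.single i 1 := by
      funext j
      by_cases hij : i = j
      · subst hij
        simp
      · rw [if_neg hij, Pi.single_eq_of_ne (Ne.symm hij)]
    rw [e, hl]
    ring
  set r := -r0 with hr
  have hP1 : ∀ y : Fin 4 → ℝ, (∀ i, 0 < y i) → r < ∑ i, l i * y i := by
    intro y hy
    have h1 := hf1 y hy
    rw [hfl] at h1
    linarith
  have hA1 : ∀ x : E3, ∑ i, l i * ((inner ℝ x (u i) : ℝ) - c i) ≤ r := by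
    intro x
    have h1 := hf2 _ (mem_range_self (f := fun x : E3 => fun i => (inner ℝ x (u i) : ℝ) - c i) x)
    rw [hfl] at h1
    linarith
  set Λ := ∑ i, l i with hΛ
  have hΛt : ∀ t : ℝ, 0 < t → r < t * Λ := by
    intro t ht
    have h1 := hP1 (fun _ => t) (fun _ => ht)
    rw [hΛ, Finset.mul_sum]
    have e : ∑ i, l i * t = ∑ i, t * l i := Finset.sum_congr rfl fun i _ => mul_comm _ _
    rw [← e]
    exact h1
  have hr0 : r ≤ 0 := by
    apply le_of_forall_pos_lt_add
    intro ε hε
    have h1 := hΛt (ε / (|Λ| + 1)) (by positivity)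
    have h2 : ε / (|Λ| + 1) * Λ < ε := by
      have h3 : ε / (|Λ| + 1) * Λ ≤ ε / (|Λ| + 1) * |Λ| :=
        mul_le_mul_of_nonneg_left (le_abs_self _) (by positivity)
      have h4 : ε / (|Λ| + 1) * |Λ| < ε := by
        rw [div_mul_eq_mul_div, div_lt_iff₀ (by positivity)]
        linarith
      linarith
    linarith
  have hl0 : ∀ i, 0 ≤ l i := by
    intro i
    by_contra hcon
    push Not at hcon
    set M := (|Λ| + |r| + 1) / (-l i) with hM
    have hM0 : 0 < M := by
      apply div_pos (by positivity)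
      linarith
    have h1 := hP1 (fun j => 1 + if j = i then M else 0) (fun j => by
      show 0 < 1 + if j = i then M else 0
      split_ifs
      · linarith
      · norm_num)
    have e : ∑ j, l j * (1 + if j = i then M else 0) = Λ + l i * M := by
      simp only [mul_add, mul_one, Finset.sum_add_distrib, mul_ite, mul_zero,
        Finset.sum_ite_eq', Finset.mem_univ, if_true]
      rw [hΛ]
    rw [e] at h1
    have e2 : l i * M = -(|Λ| + |r| + 1) := by
      have hne : -l i ≠ 0 := by linarith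
      have e3 : -l i * M = |Λ| + |r| + 1 := by
        rw [hM]
        exact mul_div_cancel₀ _ hne
      linarith
    rw [e2] at h1
    have h2 := le_abs_self Λ
    have h3 := neg_abs_le r
    linarith
  have hlpos : ∃ i, 0 < l i := by
    by_contra hcon
    push Not at hcon
    have h1 : ∀ i, l i = 0 := fun i => le_antisymm (hcon i) (hl0 i)
    have h2 := hP1 (fun _ => 1) (fun _ => one_pos)
    have h3 := hA1 0
    simp only [h1, zero_mul, Finset.sum_const_zero] at h2 h3
    linarith
  set w := ∑ i, l i • u i with hw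
  have hin : ∀ x : E3, ∑ i, l i * ((inner ℝ x (u i) : ℝ) - c i) =
      inner ℝ x w - ∑ i, l i * c i := by
    intro x
    rw [hw, inner_sum]
    simp_rw [inner_smul_right, mul_sub, Finset.sum_sub_distrib]
  have hle : ∀ x : E3, (inner ℝ x w : ℝ) ≤ r + ∑ i, l i * c i := by
    intro x
    have := hA1 x
    rw [hin] at this
    linarith
  have hw0 : w = 0 := by
    by_contra hcon
    have hn : 0 < ‖w‖ ^ 2 := by
      have := norm_pos_iff.2 hcon
      positivity
    set R := r + ∑ i, l i * c i with hR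
    have h1 := hle (((|R| + 1) / ‖w‖ ^ 2) • w)
    rw [inner_smul_left, real_inner_self_eq_norm_sq] at h1
    have e : (starRingEnd ℝ) ((|R| + 1) / ‖w‖ ^ 2) = (|R| + 1) / ‖w‖ ^ 2 := rfl
    rw [e, div_mul_cancel₀ _ hn.ne'] at h1
    have := le_abs_self R
    linarith
  refine ⟨l, hl0, hlpos, hw0, ?_⟩
  have h1 := hle 0
  rw [inner_zero_left] at h1
  linarith

end ASYM

open ASYM in
theorem asym (hel : S_HEL) : S_ASYM := by
  intro K s hK hs0 hno
  obtain ⟨u, hu0, hu⟩ := hel K s hs0 hno
  obtain ⟨l, hl0, ⟨i0, hi0⟩, hlu, hlc⟩ := sep u (fun i => hs K (-(u i)) - s * hs K (u i)) hu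
  obtain ⟨z, hz⟩ := hK
  set N := ∑ i, l i * hs K (u i) with hN
  have hzero : ∀ x : E3, ∑ i, l i * (inner ℝ x (u i) : ℝ) = 0 := by
    intro x
    have h1 : (inner ℝ x (∑ i, l i • u i) : ℝ) = 0 := by rw [hlu, inner_zero_right]
    rw [inner_sum] at h1
    simp_rw [inner_smul_right] at h1
    exact h1
  have hNx : ∀ x : E3, ∑ i, l i * (hs K (u i) - inner ℝ x (u i)) = N := by
    intro x
    simp_rw [mul_sub, Finset.sum_sub_distrib]
    rw [hzero x, sub_zero]
  have hN0 : 0 < N := by
    rw [← hNx z]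
    have h1 : ∀ i ∈ (Finset.univ : Finset (Fin 4)), 0 ≤ l i * (hs K (u i) - inner ℝ z (u i)) := by
      intro i _
      have := lt_hs K (hu0 i) hz
      exact mul_nonneg (hl0 i) (by linarith)
    refine Finset.sum_pos' h1 ⟨i0, Finset.mem_univ _, ?_⟩
    have := lt_hs K (hu0 i0) hz
    exact mul_pos hi0 (by linarith)
  have hv : ∀ i, ∃ y ∈ K, inner ℝ y (-(u i)) = hs K (-(u i)) := fun i => hs_mem K _
  choose v hvK hv using hv
  let lin : E3 →ₗ[ℝ] (Fin 4 → ℝ) := LinearMap.pi fun i => (-(l i / N)) • (innerₛₗ ℝ (u i))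
  have hlin : ∀ x i, lin x i = -(l i / N) * inner ℝ x (u i) := by
    intro x i
    show (-(l i / N)) • (innerₛₗ ℝ (u i)) x = _
    rw [smul_eq_mul, innerₛₗ_apply_apply, real_inner_comm]
  let b : E3 →ᵃ[ℝ] (Fin 4 → ℝ) :=
    { toFun := fun x i => l i * (hs K (u i) - inner ℝ x (u i)) / N
      linear := lin
      map_vadd' := by
        intro p w
        funext i
        show l i * (hs K (u i) - inner ℝ (w + p) (u i)) / N =
          lin w i + l i * (hs K (u i) - inner ℝ p (u i)) / N
        rw [hlin, inner_add_left]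
        field_simp
        ring }
  have hb : ∀ x i, b x i = l i * (hs K (u i) - inner ℝ x (u i)) / N := fun x i => rfl
  refine ⟨b, v, ?_, ?_, hvK, ?_⟩
  · intro x
    simp_rw [hb]
    rw [← Finset.sum_div, hNx, div_self hN0.ne']
  · intro x hx i
    rw [hb]
    have := le_hs K (u i) hx
    apply div_nonneg (mul_nonneg (hl0 i) (by linarith)) hN0.le
  · simp_rw [hb]
    rw [← Finset.sum_div, le_div_iff₀ hN0]
    have e : ∀ i, l i * (hs K (u i) - inner ℝ (v i) (u i)) =
        l i * hs K (u i) + l i * hs K (-(u i)) := by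
      intro i
      have := hv i
      rw [inner_neg_right] at this
      rw [← this]
      ring
    simp_rw [e]
    rw [Finset.sum_add_distrib]
    have e2 : ∑ i, l i * (hs K (-(u i)) - s * hs K (u i)) =
        ∑ i, l i * hs K (-(u i)) - s * N := by
      rw [hN, Finset.mul_sum, ← Finset.sum_sub_distrib]
      exact Finset.sum_congr rfl fun i _ => by ring
    rw [e2] at hlc
    linarith

end Pool.Agent.H619.SB
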