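import Pool.Agent.H619.SB.St

/-!
# MP_0069fb_gt: the determinant of a row-stochastic matrix
-/

set_option autoImplicit false

namespace Pool.Agent.H619.SB

namespace DET

theorem det4 (B : Matrix (Fin 4) (Fin 4) ℝ) : B.det =
    B 0 0 * (B 1 1 * B 2 2 * B 3 3 - B 1 1 * B 2 3 * B 3 2 - B 1 2 * B 2 1 * B 3 3 +
      B 1 2 * B 2 3 * B 3 1 + B 1 3 * B 2 1 * B 3 2 - B 1 3 * B 2 2 * B 3 1) -
    B 0 1 * (B 1 0 * B 2 2 * B 3 3 - B 1 0 * B 2 3 * B 3 2 - B 1 2 * B 2 0 * B 3 3 +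
      B 1 2 * B 2 3 * B 3 0 + B 1 3 * B 2 0 * B 3 2 - B 1 3 * B 2 2 * B 3 0) +
    B 0 2 * (B 1 0 * B 2 1 * B 3 3 - B 1 0 * B 2 3 * B 3 1 - B 1 1 * B 2 0 * B 3 3 +
      B 1 1 * B 2 3 * B 3 0 + B 1 3 * B 2 0 * B 3 1 - B 1 3 * B 2 1 * B 3 0) -
    B 0 3 * (B 1 0 * B 2 1 * B 3 2 - B 1 0 * B 2 2 * B 3 1 - B 1 1 * B 2 0 * B 3 2 +
      B 1 1 * B 2 2 * B 3 0 + B 1 2 * B 2 0 * B 3 1 - B 1 2 * B 2 1 * B 3 0) := by
  have a10 : Fin.succAbove (1 : Fin 4) (0 : Fin 3) = 0 := by decide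
  have a11 : Fin.succAbove (1 : Fin 4) (1 : Fin 3) = 2 := by decide
  have a12 : Fin.succAbove (1 : Fin 4) (2 : Fin 3) = 3 := by decide
  have a00 : Fin.succAbove (0 : Fin 4) (0 : Fin 3) = 1 := by decide
  have a01 : Fin.succAbove (0 : Fin 4) (1 : Fin 3) = 2 := by decide
  have a02 : Fin.succAbove (0 : Fin 4) (2 : Fin 3) = 3 := by decide
  have a20 : Fin.succAbove (2 : Fin 4) (0 : Fin 3) = 0 := by decide
  have a21 : Fin.succAbove (2 : Fin 4) (1 : Fin 3) = 1 := by decide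
  have a22 : Fin.succAbove (2 : Fin 4) (2 : Fin 3) = 3 := by decide
  have a30 : Fin.succAbove (3 : Fin 4) (0 : Fin 3) = 0 := by decide
  have a31 : Fin.succAbove (3 : Fin 4) (1 : Fin 3) = 1 := by decide
  have a32 : Fin.succAbove (3 : Fin 4) (2 : Fin 3) = 2 := by decide
  have s0 : Fin.succ (0 : Fin 3) = 1 := by decide
  have s1 : Fin.succ (1 : Fin 3) = 2 := by decide
  have s2 : Fin.succ (2 : Fin 3) = 3 := by decide
  have p0 : ((-1 : ℝ)) ^ ((0 : Fin 4) : ℕ) = 1 := by norm_num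
  have p1 : ((-1 : ℝ)) ^ ((1 : Fin 4) : ℕ) = -1 := by norm_num
  have p2 : ((-1 : ℝ)) ^ ((2 : Fin 4) : ℕ) = 1 := by norm_num
  have p3 : ((-1 : ℝ)) ^ ((3 : Fin 4) : ℕ) = -1 := by
    have : ((3 : Fin 4) : ℕ) = 3 := rfl
    rw [this]; norm_num
  rw [Matrix.det_succ_row_zero, Fin.sum_univ_four, Matrix.det_fin_three, Matrix.det_fin_three,
    Matrix.det_fin_three, Matrix.det_fin_three, p0, p1, p2, p3]
  simp only [Matrix.submatrix_apply, a00, a01, a02, a10, a11, a12, a20, a21, a22, a30, a31, a32,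
    s0, s1, s2]
  ring

end DET

theorem det : S_DET := by
  intro B h0 h1 h3
  rw [DET.det4]
  have r0 := h1 0
  have r1 := h1 1
  have r2 := h1 2
  have r3 := h1 3
  rw [Fin.sum_univ_four] at r0 r1 r2 r3 h3 ⊢
  have x01 := h0 0 1
  have x02 := h0 0 2
  have x03 := h0 0 3
  have x10 := h0 1 0
  have x12 := h0 1 2
  have x13 := h0 1 3
  have x20 := h0 2 0
  have x21 := h0 2 1
  have x23 := h0 2 3
  have x30 := h0 3 0
  have x31 := h0 3 1
  have x32 := h0 3 2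
  generalize B 0 0 = b00 at *
  generalize B 0 1 = b01 at *
  generalize B 0 2 = b02 at *
  generalize B 0 3 = b03 at *
  generalize B 1 0 = b10 at *
  generalize B 1 1 = b11 at *
  generalize B 1 2 = b12 at *
  generalize B 1 3 = b13 at *
  generalize B 2 0 = b20 at *
  generalize B 2 1 = b21 at *
  generalize B 2 2 = b22 at *
  generalize B 2 3 = b23 at *
  generalize B 3 0 = b30 at *
  generalize B 3 1 = b31 at *
  generalize B 3 2 = b32 at *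
  generalize B 3 3 = b33 at *
  clear h0 h1
  obtain ⟨d0, hd0⟩ : ∃ d, d = b01 + b02 + b03 := ⟨_, rfl⟩
  obtain ⟨d1, hd1⟩ : ∃ d, d = b10 + b12 + b13 := ⟨_, rfl⟩
  obtain ⟨d2, hd2⟩ : ∃ d, d = b20 + b21 + b23 := ⟨_, rfl⟩
  obtain ⟨d3, hd3⟩ : ∃ d, d = b30 + b31 + b32 := ⟨_, rfl⟩
  obtain rfl : b00 = 1 - d0 := by linarith
  obtain rfl : b11 = 1 - d1 := by linarith
  obtain rfl : b22 = 1 - d2 := by linarith
  obtain rfl : b33 = 1 - d3 := by linarith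
  have n0 : 0 ≤ d0 := by rw [hd0]; positivity
  have n1 : 0 ≤ d1 := by rw [hd1]; positivity
  have n2 : 0 ≤ d2 := by rw [hd2]; positivity
  have n3 : 0 ≤ d3 := by rw [hd3]; positivity
  have p01 : 0 ≤ d0 * d1 - b01 * b10 := sub_nonneg.2 (mul_le_mul (by linarith) (by linarith) x10 n0)
  have p02 : 0 ≤ d0 * d2 - b02 * b20 := sub_nonneg.2 (mul_le_mul (by linarith) (by linarith) x20 n0)
  have p03 : 0 ≤ d0 * d3 - b03 * b30 := sub_nonneg.2 (mul_le_mul (by linarith) (by linarith) x30 n0)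
  have p12 : 0 ≤ d1 * d2 - b12 * b21 := sub_nonneg.2 (mul_le_mul (by linarith) (by linarith) x21 n1)
  have p13 : 0 ≤ d1 * d3 - b13 * b31 := sub_nonneg.2 (mul_le_mul (by linarith) (by linarith) x31 n1)
  have p23 : 0 ≤ d2 * d3 - b23 * b32 := sub_nonneg.2 (mul_le_mul (by linarith) (by linarith) x32 n2)
  have hdL : d0 * (d1 * d2 * d3 - d1 * b23 * b32 - b12 * b21 * d3 -
      b12 * b23 * b31 - b13 * b21 * b32 - b13 * d2 * b31) -
    b01 * (b10 * d2 * d3 - b10 * b23 * b32 + b12 * b20 * d3 +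
      b12 * b23 * b30 + b13 * b20 * b32 + b13 * d2 * b30) -
    b02 * (b10 * b21 * d3 + b10 * b23 * b31 + d1 * b20 * d3 +
      d1 * b23 * b30 - b13 * b20 * b31 + b13 * b21 * b30) -
    b03 * (b10 * b21 * b32 + b10 * d2 * b31 + d1 * b20 * b32 +
      d1 * d2 * b30 + b12 * b20 * b31 - b12 * b21 * b30) = 0 := by
    rw [hd0, hd1, hd2, hd3]
    ring
  have he1 : d0 + d1 + d2 + d3 ≤ 1 := by linarith
  obtain ⟨e2, he2⟩ : ∃ e, e = (d0 * d1 - b01 * b10) + (d0 * d2 - b02 * b20) +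
      (d0 * d3 - b03 * b30) + (d1 * d2 - b12 * b21) + (d1 * d3 - b13 * b31) +
      (d2 * d3 - b23 * b32) := ⟨_, rfl⟩
  obtain ⟨e3, he3⟩ : ∃ e, e =
      (d0 * d1 * d2 - d0 * b12 * b21 - d1 * b02 * b20 - d2 * b01 * b10 - b01 * b12 * b20 -
        b02 * b21 * b10) +
      (d0 * d1 * d3 - d0 * b13 * b31 - d1 * b03 * b30 - d3 * b01 * b10 - b01 * b13 * b30 -
        b03 * b31 * b10) +
      (d0 * d2 * d3 - d0 * b23 * b32 - d2 * b03 * b30 - d3 * b02 * b20 - b02 * b23 * b30 -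
        b03 * b32 * b20) +
      (d1 * d2 * d3 - d1 * b23 * b32 - d2 * b13 * b31 - d3 * b12 * b21 - b12 * b23 * b31 -
        b13 * b32 * b21) := ⟨_, rfl⟩
  have hE2 : 0 ≤ e2 := by
    rw [he2]
    linarith
  have q0 : 0 ≤ 2 * (d0 * d1 * d2) + b01 * b12 * b20 + b02 * b21 * b10 := by positivity
  have q1 : 0 ≤ 2 * (d0 * d1 * d3) + b01 * b13 * b30 + b03 * b31 * b10 := by positivity
  have q2 : 0 ≤ 2 * (d0 * d2 * d3) + b02 * b23 * b30 + b03 * b32 * b20 := by positivity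
  have q3 : 0 ≤ 2 * (d1 * d2 * d3) + b12 * b23 * b31 + b13 * b32 * b21 := by positivity
  have t01 := mul_nonneg (add_nonneg n0 n1) p01
  have t02 := mul_nonneg (add_nonneg n0 n2) p02
  have t03 := mul_nonneg (add_nonneg n0 n3) p03
  have t12 := mul_nonneg (add_nonneg n1 n2) p12
  have t13 := mul_nonneg (add_nonneg n1 n3) p13
  have t23 := mul_nonneg (add_nonneg n2 n3) p23
  have hid : (d0 + d1 + d2 + d3) * e2 - e3 =
      (d0 + d1) * (d0 * d1 - b01 * b10) + (d0 + d2) * (d0 * d2 - b02 * b20) +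
      (d0 + d3) * (d0 * d3 - b03 * b30) + (d1 + d2) * (d1 * d2 - b12 * b21) +
      (d1 + d3) * (d1 * d3 - b13 * b31) + (d2 + d3) * (d2 * d3 - b23 * b32) +
      (2 * (d0 * d1 * d2) + b01 * b12 * b20 + b02 * b21 * b10) +
      (2 * (d0 * d1 * d3) + b01 * b13 * b30 + b03 * b31 * b10) +
      (2 * (d0 * d2 * d3) + b02 * b23 * b30 + b03 * b32 * b20) +
      (2 * (d1 * d2 * d3) + b12 * b23 * b31 + b13 * b32 * b21) := by
    rw [he2, he3]
    ring
  have hE3 : e3 ≤ (d0 + d1 + d2 + d3) * e2 := by linarith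
  have hE4 : (d0 + d1 + d2 + d3) * e2 ≤ 1 * e2 := mul_le_mul_of_nonneg_right he1 hE2
  have hE5 : 0 ≤ e2 - e3 := by linarith
  refine sub_nonneg.1 (le_of_le_of_eq hE5 ?_)
  rw [he2, he3]
  linear_combination -hdL

end Pool.Agent.H619.SB
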