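import Pool.Agent.H619.SB.St

/-!
# Project SB: the universal bound (FIN)
-/

set_option autoImplicit false
set_option linter.unusedSectionVars false

open MeasureTheory Set Module
open scoped Pointwise NNReal ENNReal

noncomputable section

namespace Pool.Agent.H619.SB

namespace FINL

/-! ### numerics -/

theorem num0 {a : ℝ} (ha : 0 ≤ a) (h : a ^ 3 ≤ 0.385) : (a + 1 / 10000) ^ 3 ≤ 0.3854 := by
  have h1 : a ≤ 0.7276 := by
    by_contra hc
    push Not at hc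
    have : (0.7276 : ℝ) ^ 3 < a ^ 3 := pow_lt_pow_left₀ hc (by norm_num) (by norm_num)
    norm_num at this h ⊢
    linarith
  have h2 : (a + 1 / 10000) ^ 3 ≤ (0.7277 : ℝ) ^ 3 :=
    pow_le_pow_left₀ (by positivity) (by linarith) 3
  refine h2.trans ?_
  norm_num

theorem num1 {w A : ℝ} (hw : 0 ≤ w) (hA : A ^ 3 ≤ 0.3854)
    (h : 2 + 6 * w ≤ (A * (1 + w)) ^ 3) : 2.553 < w := by
  by_contra hc
  push Not at hc
  have h1 : (A * (1 + w)) ^ 3 = A ^ 3 * (1 + w) ^ 3 := by ring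
  have h2 : A ^ 3 * (1 + w) ^ 3 ≤ 0.3854 * (1 + w) ^ 3 := by gcongr
  have h3 : 0 ≤ w * (2.553 - w) := mul_nonneg hw (sub_nonneg.2 hc)
  have h4 : 0 ≤ w ^ 2 * (2.553 - w) := mul_nonneg (sq_nonneg _) (sub_nonneg.2 hc)
  rw [h1] at h
  have h5 := h.trans h2
  nlinarith

theorem num2 {s A : ℝ} (hs : 1 ≤ s) (hA : A ^ 3 ≤ 0.3854)
    (h : s / 2 ≤ (A * s) ^ 3) : 1.138 ≤ s := by
  by_contra hc
  push Not at hc
  have h1 : (A * s) ^ 3 = A ^ 3 * s ^ 3 := by ring
  have h2 : A ^ 3 * s ^ 3 ≤ 0.3854 * s ^ 3 := by gcongr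
  rw [h1] at h
  have h3 : s / 2 ≤ 0.3854 * s ^ 3 := h.trans h2
  have h4 : 1 / 2 ≤ 0.3854 * s ^ 2 := by
    by_contra h5
    push Not at h5
    have : 0.3854 * s ^ 3 < s / 2 := by
      have : 0.3854 * s ^ 3 = (0.3854 * s ^ 2) * s := by ring
      rw [this]
      nlinarith
    linarith
  have h5 : s ^ 2 ≤ 1.138 ^ 2 := pow_le_pow_left₀ (by linarith) hc.le 2
  norm_num at h4 h5
  linarith

theorem num3 {w x A : ℝ} (hw : 2.553 < w) (hw3 : w ≤ 3) (hA : A ^ 3 ≤ 0.3854)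
    (hx : 1.138 * (w - 1 / 10000 - 2) ≤ x)
    (h : 2 + 6 * w + 217 / 16 * x ≤ (A * (w + 3 / 2)) ^ 3) : False := by
  have h1 : (A * (w + 3 / 2)) ^ 3 = A ^ 3 * (w + 3 / 2) ^ 3 := by ring
  have h2 : A ^ 3 * (w + 3 / 2) ^ 3 ≤ 0.3854 * (w + 3 / 2) ^ 3 := by gcongr
  rw [h1] at h
  have h3 := h.trans h2
  have h4 : 0 ≤ (w - 2.553) * (3 - w) := mul_nonneg (by linarith) (by linarith)
  have h5 : 0 ≤ w * ((w - 2.553) * (3 - w)) := mul_nonneg (by linarith) h4
  nlinarith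

theorem cbrt {x : ℝ} (hx : 0 ≤ x) : ∃ z : ℝ, 0 ≤ z ∧ z ^ 3 = x :=
  ⟨x ^ (((3 : ℕ) : ℝ)⁻¹), Real.rpow_nonneg hx _, Real.rpow_inv_natCast_pow hx (by norm_num)⟩

/-! ### bodies -/

theorem lim' {K Z : ConvexBody E3} {a γ : ℝ}
    (h : ∀ z : ℝ, 0 ≤ z → z ^ 3 ≤ vol (Z : Set E3) → z ≤ a * TV K K Z + γ) :
    vol (Z : Set E3) ≤ (a * TV K K Z + γ) ^ 3 := by
  obtain ⟨z, hz0, hz⟩ := cbrt (vol_nonneg (Z : Set E3))
  rw [← hz]
  exact pow_le_pow_left₀ hz0 (h z hz0 hz.le) 3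

theorem fat_mono {S T : Set E3} (h : S ⊆ T) (hS : Fat S) : Fat T := hS.mono (interior_mono h)

theorem fat_add {K : ConvexBody E3} (hK : Fat (K : Set E3)) (L : ConvexBody E3) :
    Fat ((K + L : ConvexBody E3) : Set E3) := by
  have h1 : interior (K : Set E3) + (L : Set E3) ⊆ interior ((K + L : ConvexBody E3) : Set E3) := by
    apply interior_maximal
    · rw [ConvexBody.coe_add]
      exact Set.add_subset_add_right interior_subset
    · exact isOpen_interior.add_right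
  exact (hK.add L.nonempty).mono h1

theorem sym_D (K : ConvexBody E3) : Sym ((K + ng K : ConvexBody E3) : Set E3) := by
  intro z hz
  rw [ConvexBody.coe_add, Set.mem_add] at hz ⊢
  obtain ⟨k, hk, l, hl, rfl⟩ := hz
  refine ⟨-l, hl, -k, ?_, by abel⟩
  change - -k ∈ (K : Set E3)
  rwa [neg_neg]

theorem sym_add {A B : ConvexBody E3} (hA : Sym (A : Set E3)) (hB : Sym (B : Set E3)) :
    Sym ((A + B : ConvexBody E3) : Set E3) := by
  intro z hz
  rw [ConvexBody.coe_add, Set.mem_add] at hz ⊢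
  obtain ⟨k, hk, l, hl, rfl⟩ := hz
  exact ⟨-k, hA k hk, -l, hB l hl, by abel⟩

theorem sym_smul {A : ConvexBody E3} (hA : Sym (A : Set E3)) (t : ℝ≥0) :
    Sym ((t • A : ConvexBody E3) : Set E3) := by
  intro z hz
  rw [ConvexBody.coe_smul', Set.mem_smul_set] at hz ⊢
  obtain ⟨k, hk, rfl⟩ := hz
  exact ⟨-k, hA k hk, by rw [smul_neg]⟩

theorem sub_tr {O K : ConvexBody E3} {g : E3} (h : ∀ y ∈ O, g + y ∈ K) :
    (O : Set E3) ⊆ (tr (-g) K : ConvexBody E3) := by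
  intro y hy
  rw [SetLike.mem_coe, mem_tr]
  have := h y hy
  rwa [sub_neg_eq_add, add_comm]

theorem TV_le3 {O K : ConvexBody E3} {g : E3} (h : ∀ y ∈ O, g + y ∈ K) (A B : ConvexBody E3) :
    TV A B O ≤ TV A B K :=
  (TV_mono3 A B (sub_tr h)).trans (TV_tr3 _ _ _ _).le

theorem TV_le2 {O K : ConvexBody E3} {g : E3} (h : ∀ y ∈ O, g + y ∈ K) (A B : ConvexBody E3) :
    TV A O B ≤ TV A K B := by
  rw [TV_23 A O B, TV_23 A K B]
  exact TV_le3 h A B

/-- the simplex as a body -/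
def hb (p : Fin 4 → E3) : ConvexBody E3 :=
  ⟨convexHull ℝ (range p), convex_convexHull ℝ _, (finite_range p).isCompact_convexHull ℝ,
    (range_nonempty p).convexHull⟩

theorem coe_hb (p : Fin 4 → E3) : (hb p : Set E3) = convexHull ℝ (range p) := rfl

theorem good_mono {r s : ℝ} (h : r ≤ s) (hs : Good s) : Good r := by
  intro K hK
  obtain ⟨c, hc⟩ := hs K hK
  exact ⟨c, (mul_le_mul_of_nonneg_right h (vol_nonneg _)).trans hc⟩

theorem good_zero : Good 0 := fun K _ => ⟨0, by rw [zero_mul]; exact vol_nonneg _⟩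

theorem good_le_one {r : ℝ} (h : Good r) : r ≤ 1 := by
  let B : ConvexBody E3 := ⟨Metric.closedBall 0 1, convex_closedBall _ _,
    isCompact_closedBall _ _, ⟨0, by simp⟩⟩
  have hB : Fat (B : Set E3) := by
    refine ⟨0, ?_⟩
    have : Metric.ball (0 : E3) 1 ⊆ interior (Metric.closedBall 0 1) :=
      interior_maximal Metric.ball_subset_closedBall Metric.isOpen_ball
    exact this (by simp)
  obtain ⟨c, hc⟩ := h B hB
  have h1 : vol (sy c (B : Set E3)) ≤ vol (B : Set E3) :=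
    vol_mono (fun x hx => hx.1) B.isCompact.measure_lt_top.ne
  have h2 := vol_pos hB
  by_contra h3
  push Not at h3
  nlinarith

/-- the extremal constant -/
theorem exists_a : ∃ a : ℝ, 0 ≤ a ∧ (∀ r, r < a ^ 3 → Good r) ∧ (∀ r, a ^ 3 < r → ¬ Good r) := by
  set G : Set ℝ := {r | 0 ≤ r ∧ Good r} with hG
  have h0 : (0 : ℝ) ∈ G := ⟨le_rfl, good_zero⟩
  have hb : BddAbove G := ⟨1, fun r hr => good_le_one hr.2⟩
  have hs : 0 ≤ sSup G := le_csSup hb h0
  obtain ⟨a, ha, haG⟩ := cbrt hs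
  refine ⟨a, ha, ?_, ?_⟩
  · intro r hr
    rw [haG] at hr
    obtain ⟨s, hs, hrs⟩ := exists_lt_of_lt_csSup ⟨0, h0⟩ hr
    exact good_mono hrs.le hs.2
  · intro r hr hg
    rw [haG] at hr
    have : r ≤ sSup G := le_csSup hb ⟨hs.trans hr.le, hg⟩
    linarith

end FINL

open FINL in
theorem fin (lim : S_LIM) (asym : S_ASYM) (sim : S_SIM) (oct : S_OCT) : S_FIN := by
  obtain ⟨a, ha, hlt, hgt⟩ := exists_a
  by_cases ha3 : 0.385 < a ^ 3
  · have : Good 0.385 := hlt _ ha3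
    unfold S_FIN
    norm_num at this
    exact this
  exfalso
  push Not at ha3
  set A := a + 1 / 10000 with hA
  have hA0 : 0 ≤ A := by positivity
  have hA3 : A ^ 3 ≤ 0.3854 := num0 ha ha3
  obtain ⟨K, hKf, hK1, hK⟩ := lim a ha hlt hgt 1000 (1 / 10000) (by norm_num)
  -- the bound in a convenient form
  have key : ∀ Z : ConvexBody E3, Fat (Z : Set E3) → Sym (Z : Set E3) → TV K K Z ≤ 1000 →
      TV K Z Z ≤ 1000 → vol (Z : Set E3) ≤ 1000 → ∀ X : ℝ, 1 ≤ X → TV K K Z ≤ X →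
        vol (Z : Set E3) ≤ (A * X) ^ 3 := by
    intro Z hf hs h1 h2 h3 X hX hXZ
    have h4 := lim' (hK Z hf hs h1 h2 h3)
    refine h4.trans (pow_le_pow_left₀ ?_ ?_ 3)
    · have := TV_nonneg K K Z
      positivity
    · have h5 : a * TV K K Z ≤ a * X := mul_le_mul_of_nonneg_left hXZ ha
      rw [hA]
      nlinarith
  have hKKK : TV K K K = 1 := by rw [TV_self, hK1]
  set w := TV K K (ng K) with hw
  have hw0 : 0 ≤ w := TV_nonneg _ _ _
  have hw2 : TV K (ng K) (ng K) = w := by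
    have := TV_ng K (ng K) (ng K)
    rw [ng_ng] at this
    rw [← this, TV_13]
  -- (0)
  have hasym : ∀ s : ℝ, 0 ≤ s → s < w → ∃ (b : E3 →ᵃ[ℝ] (Fin 4 → ℝ)) (v : Fin 4 → E3),
      (∀ x, ∑ i, b x i = 1) ∧ (∀ x ∈ K, ∀ i, 0 ≤ b x i) ∧ (∀ i, v i ∈ K) ∧
        1 + s ≤ ∑ i, b (v i) i := by
    intro s hs hsw
    refine asym K s hKf hs ?_
    rintro ⟨x, hx⟩
    obtain ⟨s', rfl⟩ : ∃ s' : ℝ≥0, (s' : ℝ) = s := ⟨⟨s, hs⟩, rfl⟩
    have h1 : (ng K : Set E3) ⊆ (tr x (s' • K) : ConvexBody E3) := by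
      intro u hu
      rw [SetLike.mem_coe, mem_tr]
      have hu' : -u ∈ K := hu
      obtain ⟨z, hz, he⟩ := hx (-u) hu'
      rw [neg_neg] at he
      rw [he, add_sub_cancel_left]
      exact ⟨z, hz, rfl⟩
    have h2 := TV_mono3 K K h1
    rw [TV_tr3, TV_smul3, hKKK, mul_one] at h2
    exact absurd h2 (not_le.2 hsw)
  have hw3 : w ≤ 3 := by
    by_contra hc
    push Not at hc
    obtain ⟨b, v, hb1, hb2, hv, hsum⟩ := hasym ((3 + w) / 2) (by linarith) (by linarith)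
    have h3 : ∀ i, b (v i) i ≤ 1 := fun i => by
      rw [← hb1 (v i)]
      exact Finset.single_le_sum (fun j _ => hb2 _ (hv i) j) (Finset.mem_univ i)
    have h4 : ∑ i, b (v i) i ≤ ∑ i : Fin 4, (1 : ℝ) := Finset.sum_le_sum fun i _ => h3 i
    simp only [Finset.sum_const, Finset.card_univ, Fintype.card_fin, nsmul_eq_mul, mul_one] at h4
    norm_num at h4
    linarith
  -- (1)
  set D : ConvexBody E3 := K + ng K with hD
  have hDf : Fat (D : Set E3) := fat_add hKf _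
  have hDs : Sym (D : Set E3) := sym_D K
  have hDv : vol (D : Set E3) = 2 + 6 * w := by
    rw [hD, vol_add, hw2, ← hw, vol_ng, hK1]
    ring
  have hKKD : TV K K D = 1 + w := by rw [hD, TV_add3, hKKK]
  have hKDD : TV K D D = 1 + 3 * w := by
    rw [hD, TV_add2, TV_add3, TV_add3, hKKK, hw2, TV_23 K (ng K) K, ← hw]
    ring
  have hwl : 2.553 < w := by
    have h1 := key D hDf hDs (by linarith) (by linarith) (by linarith) (1 + w) (by linarith) hKKD.le
    rw [hDv] at h1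
    exact num1 hw0 hA3 h1
  norm_num at hwl
  -- (2)
  obtain ⟨b, v, hb1, hb2, hv, hsum⟩ := hasym (w - 1 / 10000) (by linarith) (by linarith)
  obtain ⟨p, hp, hpe, hva, hvol⟩ := sim b v hb1 (fun i j => hb2 _ (hv i) j) (by linarith)
  have hKS : (K : Set E3) ⊆ hb p := fun x hx => by
    rw [coe_hb, ← hpe]
    exact hb2 x hx
  have hSK : (hb v : Set E3) ⊆ K := convexHull_min (range_subset_iff.2 hv) K.convex
  rw [← coe_hb, ← coe_hb] at hvol
  set σ := vol (hb p : Set E3) with hσ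
  set x := vol (hb v : Set E3) with hx
  have hσ1 : 1 ≤ σ := by
    rw [← hK1]
    exact vol_mono hKS (hb p).isCompact.measure_lt_top.ne
  have hx1 : x ≤ 1 := by
    rw [← hK1]
    exact vol_mono hSK K.isCompact.measure_lt_top.ne
  have hx0 : 0 ≤ x := vol_nonneg _
  have hσx : (w - 1 / 10000 - 2) * σ ≤ x := by
    refine le_trans ?_ hvol
    apply mul_le_mul_of_nonneg_right _ (by linarith)
    linarith
  have hσ2 : σ ≤ 2 := by nlinarith
  -- (3)
  have hσ3 : 1.138 ≤ σ := by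
    obtain ⟨O, hf, hs, ⟨g, hg⟩, hO, -⟩ := oct p hp
    rw [← coe_hb, ← hσ] at hO
    have hg' : ∀ y ∈ O, g + y ∈ hb p := hg
    have h1 : TV K K O ≤ σ := by
      refine (TV_le3 hg' K K).trans ?_
      refine ((TV_mono1 hKS _ _).trans (TV_mono2 _ hKS _)).trans ?_
      rw [TV_self]
    have h2 : TV K O O ≤ σ := by
      refine ((TV_le3 hg' _ _).trans (TV_le2 hg' _ _)).trans ?_
      refine (TV_mono1 hKS _ _).trans ?_
      rw [TV_self]
    have h3 := key O hf hs (by linarith) (by linarith) (by linarith) σ hσ1 h1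
    refine num2 hσ1 hA3 ?_
    linarith
  norm_num at hσ3
  -- (4)
  obtain ⟨O, hOf, hOs, ⟨g, hg⟩, hO, hOS⟩ := oct v hva
  rw [← coe_hb, ← hx] at hO
  obtain ⟨hO1, hO2, hO3⟩ := hOS (hb v) rfl
  rw [← hx] at hO1 hO2 hO3
  have hg' : ∀ y ∈ O, g + y ∈ K := fun y hy => hSK (hg y hy)
  have hnO : ng O = O := ng_eq_of_sym hOs
  have hKKO : TV K K O ≤ 1 := (TV_le3 hg' K K).trans hKKK.le
  have hSD : ((hb v + ng (hb v) : ConvexBody E3) : Set E3) ⊆ D := by
    rw [hD, ConvexBody.coe_add, ConvexBody.coe_add]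
    refine Set.add_subset_add hSK ?_
    intro y hy
    exact hSK hy
  have hDDO : 8 * x ≤ TV D D O := by
    refine le_trans ?_ ((TV_mono1 hSD _ _).trans (TV_mono2 _ hSD _))
    rw [TV_add1, TV_add2, TV_add2]
    have e1 : TV (ng (hb v)) (ng (hb v)) O = TV (hb v) (hb v) O := by
      have := TV_ng (hb v) (hb v) O
      rwa [hnO] at this
    rw [e1, TV_12 (ng (hb v)) (hb v) O]
    linarith
  have hDOO : 2 * x ≤ TV D O O := by
    refine le_trans ?_ (TV_mono1 hSD _ _)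
    rw [TV_add1]
    have e1 : TV (ng (hb v)) O O = TV (hb v) O O := by
      have := TV_ng (hb v) O O
      rwa [hnO] at this
    rw [e1]
    linarith
  have hDDO' : TV D D O ≤ 1 + 3 * w := by
    refine (TV_le3 hg' _ _).trans ?_
    rw [TV_13, hKDD]
  have hDOO' : TV D O O ≤ 1 + w := by
    refine ((TV_le3 hg' _ _).trans (TV_le2 hg' _ _)).trans ?_
    rw [TV_13, hKKD]
  have hKOO : TV K O O ≤ 1 := by
    refine ((TV_le3 hg' _ _).trans (TV_le2 hg' _ _)).trans ?_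
    rw [hKKK]
  have hKDO : TV K D O ≤ 1 + w := by
    refine (TV_le3 hg' _ _).trans ?_
    rw [TV_23, hKKD]
  clear_value D
  set t : ℝ≥0 := 1 / 2 with ht
  have htc : (t : ℝ) = 1 / 2 := by rw [ht]; norm_num
  set Z : ConvexBody E3 := D + t • O with hZ
  have hZf : Fat (Z : Set E3) := fat_add hDf _
  have hZs : Sym (Z : Set E3) := sym_add hDs (sym_smul hOs t)
  have hZv : vol (Z : Set E3) = 2 + 6 * w + 3 / 2 * TV D D O + 3 / 4 * TV D O O + x / 16 := by
    rw [hZ, vol_add_smul, hDv, htc]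
    linarith
  have hKKZ : TV K K Z ≤ w + 3 / 2 := by
    rw [hZ, TV_add3, TV_smul3, hKKD, htc]
    linarith
  have hKZZ : TV K Z Z = 1 + 3 * w + TV K D O + 1 / 4 * TV K O O := by
    rw [hZ, TV_add2, TV_add3, TV_add3, TV_smul3, TV_smul2, TV_smul2, TV_smul3, hKDD, htc,
      TV_23 K O D]
    ring
  have h5 := key Z hZf hZs (by linarith) (by linarith) (by linarith) (w + 3 / 2) (by linarith) hKKZ
  have hxl : 1.138 * (w - 1 / 10000 - 2) ≤ x := by
    refine le_trans ?_ hσx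
    rw [mul_comm]
    apply mul_le_mul_of_nonneg_left _ (by linarith)
    norm_num
    exact hσ3
  refine num3 (by norm_num; exact hwl) hw3 hA3 hxl (le_trans ?_ h5)
  rw [hZv]
  linarith

end Pool.Agent.H619.SB

end
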