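import Pool.Agent.H619.SB.St

/-!
# Helly argument (helper807)
-/

set_option autoImplicit false

open MeasureTheory Set Module

namespace Pool.Agent.H619.SB

namespace HEL

/-- nonzero vectors -/
abbrev NZ : Type := {u : E3 // u ≠ 0}

/-- the half-space -/
def X (K : ConvexBody E3) (s : ℝ) (u : NZ) : Set E3 :=
  {x | hs K (-(u : E3)) - s * hs K u ≤ inner ℝ x (u : E3)}

theorem isClosed_X (K : ConvexBody E3) (s : ℝ) (u : NZ) : IsClosed (X K s u) :=
  isClosed_le continuous_const (continuous_id.inner continuous_const)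

theorem convex_X (K : ConvexBody E3) (s : ℝ) (u : NZ) : Convex ℝ (X K s u) := by
  intro x hx y hy a b ha hb hab
  have hx' : hs K (-(u : E3)) - s * hs K u ≤ inner ℝ x (u : E3) := hx
  have hy' : hs K (-(u : E3)) - s * hs K u ≤ inner ℝ y (u : E3) := hy
  show hs K (-(u : E3)) - s * hs K u ≤ inner ℝ (a • x + b • y) (u : E3)
  rw [inner_add_left, real_inner_smul_left, real_inner_smul_left]
  have h1 := mul_le_mul_of_nonneg_left hx' ha
  have h2 := mul_le_mul_of_nonneg_left hy' hb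
  have h3 : hs K (-(u : E3)) - s * hs K u =
      a * (hs K (-(u : E3)) - s * hs K u) + b * (hs K (-(u : E3)) - s * hs K u) := by
    rw [← add_mul, hab, one_mul]
  rw [h3]
  exact add_le_add h1 h2

theorem le_hs (K : ConvexBody E3) (u : E3) {y : E3} (hy : y ∈ K) : inner ℝ y u ≤ hs K u := by
  unfold hs
  refine le_csSup ?_ ⟨y, hy, rfl⟩
  exact (K.isCompact.image (continuous_id.inner continuous_const)).bddAbove

theorem exists_hs (K : ConvexBody E3) (u : E3) : ∃ z ∈ K, inner ℝ z u = hs K u := by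
  have h1 : IsCompact ((fun y : E3 => inner ℝ y u) '' (K : Set E3)) :=
    K.isCompact.image (continuous_id.inner continuous_const)
  have h2 := h1.sSup_mem (K.nonempty.image _)
  obtain ⟨z, hz, hz'⟩ := h2
  exact ⟨z, hz, hz'⟩

/-- a point in all half-spaces -/
theorem cover (K : ConvexBody E3) (s : ℝ) (x : E3) (hx : ∀ u : NZ, x ∈ X K s u) :
    ∀ y ∈ K, ∃ z ∈ K, -y = x + s • z := by
  intro y hy
  by_contra hcon
  have hS1 : IsClosed ((fun z : E3 => x + s • z) '' (K : Set E3)) :=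
    (K.isCompact.image (by fun_prop)).isClosed
  have hS2 : Convex ℝ ((fun z : E3 => x + s • z) '' (K : Set E3)) := by
    rintro _ ⟨p, hp, rfl⟩ _ ⟨q, hq, rfl⟩ a b ha hb hab
    refine ⟨a • p + b • q, K.convex hp hq ha hb hab, ?_⟩
    simp only
    have : x = (a + b) • x := by rw [hab, one_smul]
    nth_rewrite 1 [this]
    module
  have hS3 : -y ∉ (fun z : E3 => x + s • z) '' (K : Set E3) := by
    rintro ⟨z, hz, hz'⟩
    exact hcon ⟨z, hz, hz'.symm⟩
  obtain ⟨f, r, hf1, hf2⟩ := geometric_hahn_banach_closed_point hS2 hS1 hS3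
  set w : E3 := (InnerProductSpace.toDual ℝ E3).symm f with hw
  have hfw : ∀ v : E3, f v = inner ℝ v w := by
    intro v
    rw [real_inner_comm, hw, InnerProductSpace.toDual_symm_apply]
  obtain ⟨z, hz, hz'⟩ := exists_hs K w
  have h1 := hf1 _ ⟨z, hz, rfl⟩
  have hw0 : w ≠ 0 := by
    intro h0
    simp only [hfw, h0, inner_zero_right] at h1 hf2
    linarith
  have h2 : hs K (-w) - s * hs K w ≤ inner ℝ x w := hx ⟨w, hw0⟩
  have h3 := le_hs K (-w) hy
  simp only [hfw] at h1 hf2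
  rw [inner_add_left, real_inner_smul_left, hz'] at h1
  rw [inner_neg_left] at hf2
  rw [inner_neg_right] at h3
  linarith

/-- the coordinate vectors -/
noncomputable def ev (i : Fin 3) : E3 := EuclideanSpace.single i (1 : ℝ)

theorem ev_ne (i : Fin 3) : ev i ≠ 0 := by
  intro h
  have : ‖ev i‖ = 1 := by
    unfold ev
    rw [PiLp.norm_single, norm_one]
  rw [h, norm_zero] at this
  exact zero_ne_one this

theorem inner_ev (x : E3) (i : Fin 3) : inner ℝ x (ev i) = x i := by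
  unfold ev
  rw [EuclideanSpace.inner_single_right]
  simp

theorem compact_box (a b : Fin 3 → ℝ) : IsCompact {x : E3 | ∀ i, a i ≤ x i ∧ x i ≤ b i} := by
  have h1 : IsCompact ((EuclideanSpace.equiv (Fin 3) ℝ).toHomeomorph ⁻¹' (Set.Icc a b)) :=
    (Homeomorph.isCompact_preimage _).2 isCompact_Icc
  have h2 : {x : E3 | ∀ i, a i ≤ x i ∧ x i ≤ b i} =
      (EuclideanSpace.equiv (Fin 3) ℝ).toHomeomorph ⁻¹' (Set.Icc a b) := by
    ext x
    constructor
    · intro h
      exact ⟨fun i => (h i).1, fun i => (h i).2⟩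
    · intro h i
      exact ⟨h.1 i, h.2 i⟩
  rw [h2]
  exact h1

theorem exists_W : ∃ W : Finset NZ, (∀ i : Fin 3, (⟨ev i, ev_ne i⟩ : NZ) ∈ W) ∧
    ∀ i : Fin 3, (⟨-ev i, neg_ne_zero.2 (ev_ne i)⟩ : NZ) ∈ W := by
  classical
  exact ⟨(Finset.univ : Finset (Fin 3)).image (fun i => (⟨ev i, ev_ne i⟩ : NZ)) ∪
    (Finset.univ : Finset (Fin 3)).image (fun i => (⟨-ev i, neg_ne_zero.2 (ev_ne i)⟩ : NZ)),
    fun i => Finset.mem_union_left _ (Finset.mem_image_of_mem _ (Finset.mem_univ i)),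
    fun i => Finset.mem_union_right _ (Finset.mem_image_of_mem _ (Finset.mem_univ i))⟩

theorem cpt_W (K : ConvexBody E3) (s : ℝ) (W : Finset NZ)
    (hW1 : ∀ i : Fin 3, (⟨ev i, ev_ne i⟩ : NZ) ∈ W)
    (hW2 : ∀ i : Fin 3, (⟨-ev i, neg_ne_zero.2 (ev_ne i)⟩ : NZ) ∈ W) :
    IsCompact (⋂ i ∈ W, X K s i) := by
  refine (compact_box (fun i => hs K (-ev i) - s * hs K (ev i))
    (fun i => -(hs K (- -ev i) - s * hs K (-ev i)))).of_isClosed_subset
    (isClosed_biInter fun i _ => isClosed_X K s i) fun x hx => ?_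
  rw [Set.mem_iInter₂] at hx
  intro i
  have h2 := hx ⟨ev i, ev_ne i⟩ (hW1 i)
  have h3 := hx ⟨-ev i, neg_ne_zero.2 (ev_ne i)⟩ (hW2 i)
  unfold X at h2 h3
  rw [Set.mem_ofPred_eq] at h2 h3
  rw [inner_ev] at h2
  rw [inner_neg_right, inner_ev] at h3
  exact ⟨h2, by linarith⟩

/-- finitely many half-spaces -/
theorem hfin (K : ConvexBody E3) (s : ℝ)
    (h4 : ∀ I : Finset NZ, I.card ≤ 4 → (⋂ i ∈ I, X K s i).Nonempty) (I : Finset NZ) :
    (⋂ i ∈ I, X K s i).Nonempty := by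
  refine Convex.helly_theorem' (𝕜 := ℝ) (fun i _ => convex_X K s i) fun J _ hJ => h4 J ?_
  have h5 : Module.finrank ℝ E3 = 3 := h3
  rw [h5] at hJ
  exact hJ

/-- all half-spaces -/
theorem hall (K : ConvexBody E3) (s : ℝ)
    (hf : ∀ I : Finset NZ, (⋂ i ∈ I, X K s i).Nonempty) : ∃ x : E3, ∀ u : NZ, x ∈ X K s u := by
  classical
  obtain ⟨W, hW1, hW2⟩ := exists_W
  obtain ⟨x, -, hx⟩ := (cpt_W K s W hW1 hW2).inter_iInter_nonempty (fun i : NZ => X K s i)
    (fun i => isClosed_X K s i) fun I => by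
      obtain ⟨x, hx⟩ := hf (W ∪ I)
      rw [Set.mem_iInter₂] at hx
      refine ⟨x, ?_, ?_⟩
      · rw [Set.mem_iInter₂]
        exact fun i hi => hx i (Finset.mem_union_left _ hi)
      · rw [Set.mem_iInter₂]
        exact fun i hi => hx i (Finset.mem_union_right _ hi)
  rw [Set.mem_iInter] at hx
  exact ⟨x, hx⟩

/-- four half-spaces -/
theorem hfour (K : ConvexBody E3) (s : ℝ)
    (hcon : ∀ u : Fin 4 → E3, (∀ i, u i ≠ 0) →
      ∃ x : E3, ∀ i, hs K (-(u i)) - s * hs K (u i) ≤ inner ℝ x (u i))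
    (I : Finset NZ) (hI : I.card ≤ 4) : (⋂ i ∈ I, X K s i).Nonempty := by
  rcases I.eq_empty_or_nonempty with h | ⟨i₀, hi₀⟩
  · subst h
    exact ⟨0, by simp⟩
  · obtain ⟨g, hg⟩ : ∃ g : Fin 4 → NZ, ∀ i ∈ I, ∃ j, g j = i := by
      refine ⟨fun j => if h : (j : ℕ) < I.card then (I.equivFin.symm ⟨j, h⟩ : NZ) else i₀,
        fun i hi => ⟨Fin.castLE hI (I.equivFin ⟨i, hi⟩), ?_⟩⟩
      have h3 : ((Fin.castLE hI (I.equivFin ⟨i, hi⟩) : Fin 4) : ℕ) < I.card := by
        rw [Fin.val_castLE]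
        exact (I.equivFin ⟨i, hi⟩).2
      refine (dif_pos h3).trans ?_
      have h5 : (⟨((Fin.castLE hI (I.equivFin ⟨i, hi⟩) : Fin 4) : ℕ), h3⟩ : Fin I.card) =
          I.equivFin ⟨i, hi⟩ := Fin.ext rfl
      rw [h5, Equiv.symm_apply_apply]
    obtain ⟨x, hx⟩ := hcon (fun j => ((g j : NZ) : E3)) fun j => (g j).2
    refine ⟨x, ?_⟩
    rw [Set.mem_iInter₂]
    intro i hi
    obtain ⟨j, hj⟩ := hg i hi
    rw [← hj]
    exact hx j

end HEL

open HEL in
theorem hel : S_HEL := by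
  intro K s hs0 hK
  by_contra hcon
  push Not at hcon
  obtain ⟨x, hx⟩ := hall K s (hfin K s (hfour K s hcon))
  exact hK ⟨x, cover K s x hx⟩

end Pool.Agent.H619.SB
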