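import Pool.Agent.H619.SB.St

/-!
# Project SB, task LIM: almost extremal bodies (helper230)
-/

set_option autoImplicit false
set_option linter.unusedSectionVars false

open MeasureTheory Set Module
open scoped Pointwise NNReal ENNReal

noncomputable section

namespace Pool.Agent.H619.SB

namespace LIM

theorem ero_convex (K L : ConvexBody E3) : Convex ℝ (ero (K : Set E3) (L : Set E3)) := by
  intro x hx x' hx' a b ha hb hab y hy
  have h := K.convex (hx y hy) (hx' y hy) ha hb hab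
  have e : a • x + b • x' + y = a • (x + y) + b • (x' + y) := by
    have : y = (a + b) • y := by rw [hab, one_smul]
    conv_lhs => rw [this]
    module
  rw [e]
  exact h

theorem ero_closed (K L : ConvexBody E3) : IsClosed (ero (K : Set E3) (L : Set E3)) := by
  have e : ero (K : Set E3) (L : Set E3) = ⋂ y ∈ (L : Set E3), (fun x => x + y) ⁻¹' (K : Set E3) := by
    ext x
    simp [ero]
  rw [e]
  exact isClosed_biInter fun y _ => K.isClosed.preimage (continuous_id.add continuous_const)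

theorem ero_compact (K L : ConvexBody E3) : IsCompact (ero (K : Set E3) (L : Set E3)) := by
  obtain ⟨y, hy⟩ := L.nonempty
  have hc : IsCompact ((fun x => x - y) '' (K : Set E3)) :=
    K.isCompact.image (continuous_id.sub continuous_const)
  refine hc.of_isClosed_subset (ero_closed K L) fun x hx => ⟨x + y, hx y hy, ?_⟩
  simp

/-- the erosion as a body -/
def eroB (K L : ConvexBody E3) (h : (ero (K : Set E3) (L : Set E3)).Nonempty) : ConvexBody E3 :=
  ⟨ero (K : Set E3) (L : Set E3), ero_convex K L, ero_compact K L, h⟩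

theorem coe_eroB (K L : ConvexBody E3) (h : (ero (K : Set E3) (L : Set E3)).Nonempty) :
    ((eroB K L h : ConvexBody E3) : Set E3) = ero (K : Set E3) (L : Set E3) := rfl

/-- a body of positive volume has interior points -/
theorem fat_of_vol (K : ConvexBody E3) (h : 0 < vol (K : Set E3)) : Fat (K : Set E3) := by
  by_contra hne
  unfold Fat at hne
  rw [Set.not_nonempty_iff_eq_empty] at hne
  have h1 : volume (frontier (K : Set E3)) = 0 := K.convex.addHaar_frontier volume
  have h2 : frontier (K : Set E3) = (K : Set E3) := by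
    rw [K.isClosed.frontier_eq, hne, Set.sdiff_empty]
  rw [h2] at h1
  unfold vol at h
  rw [h1] at h
  simp at h

theorem nonempty_of_vol {S : Set E3} (h : 0 < vol S) : S.Nonempty := by
  by_contra hne
  rw [Set.not_nonempty_iff_eq_empty] at hne
  rw [hne] at h
  simp [vol] at h

theorem zero_mem (Z : ConvexBody E3) (hF : Fat (Z : Set E3)) (hS : Sym (Z : Set E3)) :
    (0 : E3) ∈ interior (Z : Set E3) := by
  obtain ⟨z, hz⟩ := hF
  have hneg : -z ∈ interior (Z : Set E3) := by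
    have e : -(Z : Set E3) = (Z : Set E3) := by
      have := congrArg (fun B : ConvexBody E3 => (B : Set E3)) (ng_eq_of_sym hS)
      exact this
    have h1 : interior (-(Z : Set E3)) = -interior (Z : Set E3) := by
      have := (Homeomorph.neg E3).preimage_interior (Z : Set E3)
      exact this.symm
    rw [e] at h1
    rw [h1, Set.mem_neg, neg_neg]
    exact hz
  have h := Z.convex.interior hz hneg (by norm_num : (0 : ℝ) ≤ 1 / 2)
    (by norm_num : (0 : ℝ) ≤ 1 / 2) (by norm_num)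
  have e : (1 / 2 : ℝ) • z + (1 / 2 : ℝ) • (-z) = 0 := by module
  rwa [e] at h

theorem vol_smul (c : ℝ≥0) (K : ConvexBody E3) :
    vol ((c • K : ConvexBody E3) : Set E3) = (c : ℝ) ^ 3 * vol (K : Set E3) := by
  rw [← TV_self, ← TV_self, TV_smul1, TV_smul2, TV_smul3]
  ring

theorem sy_smul (c : E3) (l : ℝ) (hl : l ≠ 0) (S : Set E3) :
    sy c (l • S) = l • sy (l⁻¹ • c) S := by
  ext x
  rw [Set.mem_smul_set_iff_inv_smul_mem₀ hl]
  unfold sy
  simp only [Set.mem_ofPred_eq]
  rw [Set.mem_smul_set_iff_inv_smul_mem₀ hl, Set.mem_smul_set_iff_inv_smul_mem₀ hl, smul_sub]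

theorem vol_smul_set (l : ℝ) (hl : 0 ≤ l) (S : Set E3) : vol (l • S) = l ^ 3 * vol S := by
  unfold vol
  rw [Measure.addHaar_smul, ENNReal.toReal_mul, h3, ENNReal.toReal_ofReal (abs_nonneg _),
    abs_of_nonneg (by positivity)]

end LIM

open LIM in
theorem lim (sh : S_SHELL) (ad : S_ADD) : S_LIM := by
  intro a ha hgood hbad C₀ γ hγ
  set C : ℝ := max C₀ 1 with hC
  have hC1 : 1 ≤ C := le_max_right _ _
  have hC0 : C₀ ≤ C := le_max_left _ _
  -- the parameters
  obtain ⟨t, ht0, ht1, ht6, hta⟩ : ∃ t : ℝ, 0 < t ∧ t ≤ 1 ∧ 6 * C * t ≤ 1 ∧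
      6 * a * C ^ 2 * t ≤ γ / 2 := by
    have h1 : 0 < 6 * C := by linarith
    have h2 : 0 < 6 * a * C ^ 2 + 1 := by positivity
    refine ⟨min (1 / (6 * C)) (γ / 2 / (6 * a * C ^ 2 + 1)), lt_min (by positivity)
      (by positivity), ?_, ?_, ?_⟩
    · refine (min_le_left _ _).trans ?_
      rw [div_le_one h1]; linarith
    · have := mul_le_mul_of_nonneg_left (min_le_left (1 / (6 * C))
        (γ / 2 / (6 * a * C ^ 2 + 1))) h1.le
      refine this.trans (le_of_eq ?_)
      field_simp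
    · have h3 : 0 ≤ 6 * a * C ^ 2 := by positivity
      have h4 := mul_le_mul_of_nonneg_left (min_le_right (1 / (6 * C))
        (γ / 2 / (6 * a * C ^ 2 + 1))) h3
      refine h4.trans ?_
      rw [mul_div_assoc', div_le_iff₀ h2]
      nlinarith
  obtain ⟨ε, hε0, hε⟩ : ∃ ε : ℝ, 0 < ε ∧ 2 * ε ≤ γ / 2 * t :=
    ⟨γ / 4 * t, by positivity, by linarith⟩
  -- the body
  have hr : a ^ 3 < (a + ε) ^ 3 := pow_lt_pow_left₀ (by linarith) ha (by norm_num)
  have hnb := hbad _ hr
  unfold Good at hnb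
  push Not at hnb
  obtain ⟨K₀, hK₀F, hK₀⟩ := hnb
  have hv0 : 0 < vol (K₀ : Set E3) := vol_pos hK₀F
  set l : ℝ := (vol (K₀ : Set E3)) ^ (-(1 / 3) : ℝ) with hl
  have hl0 : 0 < l := Real.rpow_pos_of_pos hv0 _
  have hl3 : l ^ 3 * vol (K₀ : Set E3) = 1 := by
    have h1 : l ^ 3 = (vol (K₀ : Set E3))⁻¹ := by
      rw [hl, ← Real.rpow_natCast, ← Real.rpow_mul hv0.le]
      norm_num
      exact Real.rpow_neg_one _
    rw [h1, inv_mul_cancel₀ hv0.ne']
  set ln : ℝ≥0 := ⟨l, hl0.le⟩ with hln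
  set K : ConvexBody E3 := ln • K₀ with hK
  have hKcoe : (K : Set E3) = l • (K₀ : Set E3) := rfl
  have hKv : vol (K : Set E3) = 1 := by
    rw [hKcoe, vol_smul_set l hl0.le, hl3]
  have hKF : Fat (K : Set E3) := fat_of_vol K (by rw [hKv]; exact one_pos)
  have hKsy : ∀ c : E3, vol (sy c (K : Set E3)) < (a + ε) ^ 3 := by
    intro c
    rw [hKcoe, sy_smul c l hl0.ne', vol_smul_set l hl0.le]
    have h1 := hK₀ (l⁻¹ • c)
    calc l ^ 3 * vol (sy (l⁻¹ • c) (K₀ : Set E3))
        < l ^ 3 * ((a + ε) ^ 3 * vol (K₀ : Set E3)) := mul_lt_mul_of_pos_left h1 (by positivity)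
      _ = (a + ε) ^ 3 * (l ^ 3 * vol (K₀ : Set E3)) := by ring
      _ = (a + ε) ^ 3 := by rw [hl3, mul_one]
  refine ⟨K, hKF, hKv, ?_⟩
  intro Z hZF hZS hZ1 hZ2 hZ3 z hz hzv
  have hX0 : 0 ≤ TV K K Z := TV_nonneg _ _ _
  set X : ℝ := TV K K Z with hX
  have hXC : X ≤ C := hZ1.trans hC0
  set τ : ℝ≥0 := ⟨t, ht0.le⟩ with hτ
  have hτt : (τ : ℝ) = t := rfl
  set L : ConvexBody E3 := τ • Z with hL
  have hLcoe : (L : Set E3) = t • (Z : Set E3) := rfl
  have hL0 : (0 : E3) ∈ interior (L : Set E3) := by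
    rw [hLcoe, interior_smul₀ ht0.ne']
    exact ⟨0, zero_mem Z hZF hZS, smul_zero _⟩
  have hLS : Sym (L : Set E3) := by
    rintro _ ⟨y, hy, rfl⟩
    exact ⟨-y, hZS y hy, by simp⟩
  have hshell := sh K L hKF hL0
  rw [hL, vol_add_smul, hKv, ← hX, hτt] at hshell
  have hY : TV K Z Z ≤ C := hZ2.trans hC0
  have hV : vol (Z : Set E3) ≤ C := hZ3.trans hC0
  set u : ℝ := t * X + 6 * C ^ 2 * t ^ 2 with hu
  have hu0 : 0 ≤ u := by positivity
  have hu2 : u ≤ 2 * C * t := by
    have h1 : t * X ≤ t * C := mul_le_mul_of_nonneg_left hXC ht0.le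
    have h2 : 6 * C ^ 2 * t ^ 2 ≤ C * t := by
      have := mul_le_mul_of_nonneg_right ht6 (by positivity : 0 ≤ C * t)
      calc 6 * C ^ 2 * t ^ 2 = 6 * C * t * (C * t) := by ring
        _ ≤ 1 * (C * t) := this
        _ = C * t := one_mul _
    linarith
  have hu3 : u ≤ 1 / 3 := by linarith
  have hqu : (1 - u) ^ 3 ≤ vol (ero (K : Set E3) (L : Set E3)) := by
    have h1 : (1 - u) ^ 3 ≤ 1 - 3 * u + 3 * u ^ 2 := by
      have : 0 ≤ u ^ 3 := by positivity
      nlinarith
    have h2 : 3 * u ^ 2 ≤ 12 * C ^ 2 * t ^ 2 := by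
      have := mul_self_le_mul_self hu0 hu2
      nlinarith
    have h3' : C * t ^ 2 ≤ C ^ 2 * t ^ 2 := by
      have : C ≤ C ^ 2 := by nlinarith
      exact mul_le_mul_of_nonneg_right this (by positivity)
    have h4 : C * t ^ 3 ≤ C * t ^ 2 := by
      have h5 : t ^ 3 ≤ t ^ 2 := pow_le_pow_of_le_one ht0.le ht1 (by norm_num)
      exact mul_le_mul_of_nonneg_left h5 (by positivity)
    have h5 : 3 * t ^ 2 * TV K Z Z ≤ 3 * t ^ 2 * C := mul_le_mul_of_nonneg_left hY (by positivity)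
    have h6 : t ^ 3 * vol (Z : Set E3) ≤ t ^ 3 * C := mul_le_mul_of_nonneg_left hV (by positivity)
    have h7 : 0 ≤ C ^ 2 * t ^ 2 := by positivity
    have h8 : 3 * u = 3 * t * X + 18 * (C ^ 2 * t ^ 2) := by rw [hu]; ring
    have h9 : 0 ≤ C * t ^ 2 := by positivity
    rw [← hL] at hshell
    nlinarith
  have hvpos : 0 < vol (ero (K : Set E3) (L : Set E3)) := by
    refine lt_of_lt_of_le ?_ hqu
    have : 0 < 1 - u := by linarith
    positivity
  have hEne := nonempty_of_vol hvpos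
  have hEF : Fat (ero (K : Set E3) (L : Set E3)) := fat_of_vol (eroB K L hEne) hvpos
  -- the centre
  obtain ⟨α, c, hα0, hαa, hsyne, hαv⟩ : ∃ (α : ℝ) (c : E3), 0 ≤ α ∧ a - ε ≤ α ∧
      (sy c (ero (K : Set E3) (L : Set E3))).Nonempty ∧
      (α * (1 - u)) ^ 3 ≤ vol (sy c (ero (K : Set E3) (L : Set E3))) := by
    by_cases hεa : ε < a
    · have hα : 0 < a - ε := by linarith
      have hg : Good ((a - ε) ^ 3) := hgood _ (pow_lt_pow_left₀ (by linarith) hα.le (by norm_num))
      obtain ⟨c, hc⟩ := hg (eroB K L hEne) hEF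
      rw [coe_eroB] at hc
      have hpos : 0 < vol (sy c (ero (K : Set E3) (L : Set E3))) :=
        lt_of_lt_of_le (mul_pos (by positivity) hvpos) hc
      refine ⟨a - ε, c, hα.le, le_rfl, nonempty_of_vol hpos, ?_⟩
      calc ((a - ε) * (1 - u)) ^ 3 = (a - ε) ^ 3 * (1 - u) ^ 3 := by ring
        _ ≤ (a - ε) ^ 3 * vol (ero (K : Set E3) (L : Set E3)) :=
            mul_le_mul_of_nonneg_left hqu (by positivity)
        _ ≤ _ := hc
    · obtain ⟨x, hx⟩ := hEne
      refine ⟨0, x + x, le_rfl, by linarith, ⟨x, hx, ?_⟩, ?_⟩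
      · rw [add_sub_cancel_right]; exact hx
      · rw [zero_mul]
        simpa using vol_nonneg _
  have hLv : (t * z) ^ 3 ≤ vol (L : Set E3) := by
    rw [hLcoe, vol_smul_set t ht0.le, mul_pow]
    exact mul_le_mul_of_nonneg_left hzv (by positivity)
  have h1u : 0 ≤ 1 - u := by linarith
  have hadd := ad K L c (α * (1 - u)) (t * z) hLS (mul_nonneg hα0 h1u) (by positivity) hsyne hαv hLv
  have hlt : (α * (1 - u) + t * z) ^ 3 < (a + ε) ^ 3 := lt_of_le_of_lt hadd (hKsy c)
  have hlt2 : α * (1 - u) + t * z < a + ε := lt_of_pow_lt_pow_left₀ 3 (by linarith) hlt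
  have hα2 : (a - ε) * (1 - u) ≤ α * (1 - u) := mul_le_mul_of_nonneg_right hαa h1u
  have hfin : t * z ≤ t * (a * X + γ) := by
    have h2 : 0 ≤ ε * u := by positivity
    have h3' : a * u = t * (a * X) + t * (6 * a * C ^ 2 * t) := by rw [hu]; ring
    have h4 : t * (6 * a * C ^ 2 * t) ≤ t * (γ / 2) := mul_le_mul_of_nonneg_left hta ht0.le
    nlinarith
  exact le_of_mul_le_mul_left hfin ht0

end Pool.Agent.H619.SB

end
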