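import Pool.Agent.H619.SB.St

/-!
# Project SB: OCT (the octahedron of a simplex)
-/

set_option autoImplicit false
set_option linter.unusedSectionVars false

open MeasureTheory Set Module
open scoped Pointwise NNReal ENNReal

noncomputable section

namespace Pool.Agent.H619.SB

namespace OCT

/-- `1 / 4 + d i (x - g)` are the barycentric coordinates of `x` -/
structure Cd (p : Fin 4 → E3) (d : Fin 4 → (E3 →ₗ[ℝ] ℝ)) (g : E3) : Prop where
  sum0 : ∀ y, ∑ i, d i y = 0
  vert : ∀ i j, d i (p j - g) = if i = j then 3 / 4 else -1 / 4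
  rep : ∀ x, x = ∑ i, (1 / 4 + d i (x - g)) • p i
  hull : convexHull ℝ (range p) = {x | ∀ i, 0 ≤ 1 / 4 + d i (x - g)}

theorem coords {p : Fin 4 → E3} (hp : AffineIndependent ℝ p) :
    ∃ (d : Fin 4 → (E3 →ₗ[ℝ] ℝ)) (g : E3), Cd p d g := by
  have htop : affineSpan ℝ (range p) = ⊤ := by
    rw [hp.affineSpan_eq_top_iff_card_eq_finrank_add_one]
    simp
  let b : AffineBasis (Fin 4) ℝ E3 := ⟨p, hp, htop⟩
  let g : E3 := Finset.univ.centroid ℝ b
  have hg : ∀ i, b.coord i g = 1 / 4 := by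
    intro i
    have h := b.coord_apply_centroid (s := Finset.univ) (Finset.mem_univ i)
    rw [Finset.card_univ, Fintype.card_fin] at h
    rw [h]
    norm_num
  have hd : ∀ i x, b.coord i x = 1 / 4 + (b.coord i).linear (x - g) := by
    intro i x
    have h := (b.coord i).linearMap_vsub x g
    rw [vsub_eq_sub, vsub_eq_sub, hg] at h
    rw [h]
    ring
  refine ⟨fun i => (b.coord i).linear, g, ?_, ?_, ?_, ?_⟩
  · intro y
    have h1 := b.sum_coord_apply_eq_one (g + y)
    simp_rw [hd] at h1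
    rw [Finset.sum_add_distrib, Finset.sum_const, Finset.card_univ, Fintype.card_fin] at h1
    have h2 : g + y - g = y := by abel
    have h3 : (4 : ℕ) • (1 / 4 : ℝ) = 1 := by norm_num
    rw [h2, h3] at h1
    linarith
  · intro i j
    have h1 : b.coord i (p j) = if i = j then 1 else 0 := b.coord_apply i j
    rw [hd] at h1
    split_ifs with hij
    · rw [if_pos hij] at h1
      linarith
    · rw [if_neg hij] at h1
      linarith
  · intro x
    have h1 := b.linear_combination_coord_eq_self x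
    simp_rw [hd] at h1
    exact h1.symm
  · have h1 : convexHull ℝ (range p) = {x | ∀ i, 0 ≤ b.coord i x} := b.convexHull_eq_nonneg_coord
    rw [h1]
    ext x
    simp only [Set.mem_ofPred_eq, hd]

variable {p : Fin 4 → E3} {d : Fin 4 → (E3 →ₗ[ℝ] ℝ)} {g : E3}

theorem mem_slab (H : Cd p d g) {l m : ℝ} {x : E3} :
    x ∈ slab p l m ↔ ∀ i, l ≤ 1 / 4 + d i (x - g) ∧ 1 / 4 + d i (x - g) ≤ m := by
  constructor
  · rintro ⟨β, h1, h2, rfl⟩ i
    have h3 : ∑ j, β j • p j - g = ∑ j, β j • (p j - g) := by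
      simp_rw [smul_sub]
      rw [Finset.sum_sub_distrib, ← Finset.sum_smul, h1, one_smul]
    have h4 : d i (∑ j, β j • p j - g) = β i - 1 / 4 := by
      rw [h3, map_sum]
      simp_rw [map_smul, H.vert, smul_eq_mul]
      have h5 : ∀ j, β j * (if i = j then (3 / 4 : ℝ) else -1 / 4) =
          β j * (-1 / 4) + if i = j then β j else 0 := by
        intro j
        split_ifs <;> ring
      simp_rw [h5]
      rw [Finset.sum_add_distrib, ← Finset.sum_mul, h1, Finset.sum_ite_eq,
        if_pos (Finset.mem_univ i)]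
      ring
    rw [h4]
    have := h2 i
    constructor
    · linarith [this.1]
    · linarith [this.2]
  · intro h
    refine ⟨fun i => 1 / 4 + d i (x - g), ?_, h, H.rep x⟩
    rw [Finset.sum_add_distrib, H.sum0, Finset.sum_const, Finset.card_univ, Fintype.card_fin]
    norm_num

theorem cont (d : Fin 4 → (E3 →ₗ[ℝ] ℝ)) (i : Fin 4) : Continuous (d i) :=
  (d i).continuous_of_finiteDimensional

theorem sum_one (H : Cd p d g) (x : E3) : ∑ i, (1 / 4 + d i (x - g)) = 1 := by
  rw [Finset.sum_add_distrib, H.sum0, Finset.sum_const, Finset.card_univ, Fintype.card_fin]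
  norm_num

/-- nonnegative coordinates are at most one -/
theorem le_one (H : Cd p d g) {x : E3} (h : ∀ i, 0 ≤ 1 / 4 + d i (x - g)) (i : Fin 4) :
    1 / 4 + d i (x - g) ≤ 1 := by
  have h1 := Finset.single_le_sum (f := fun i => 1 / 4 + d i (x - g)) (fun j _ => h j)
    (Finset.mem_univ i)
  have h2 := sum_one H x
  linarith

/-- an edge -/
theorem edge (H : Cd p d g) (i : Fin 4) : ∃ y : E3, (∀ j, |d j y| ≤ 1 / 4) ∧ d i y = -1 / 4 := by
  obtain ⟨k, hk⟩ : ∃ k : Fin 4, i ≠ k := ⟨i + 1, by fin_cases i <;> decide⟩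
  have e : ∀ j, d j ((1 / 4 : ℝ) • (p k - p i)) =
      1 / 4 * ((if j = k then 3 / 4 else -1 / 4) - (if j = i then 3 / 4 else -1 / 4)) := by
    intro j
    have h1 : p k - p i = (p k - g) - (p i - g) := by abel
    rw [h1, map_smul, map_sub, H.vert, H.vert, smul_eq_mul]
  refine ⟨(1 / 4 : ℝ) • (p k - p i), fun j => ?_, ?_⟩
  · rw [e, abs_le]
    split_ifs <;> constructor <;> norm_num
  · rw [e, if_neg hk, if_pos rfl]
    norm_num

/-- a vertex -/
theorem vert' (H : Cd p d g) (i : Fin 4) :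
    ∃ y : E3, (∀ j, 0 ≤ 1 / 4 + d j y) ∧ d i y = 3 / 4 := by
  refine ⟨p i - g, fun j => ?_, ?_⟩
  · rw [H.vert]
    split_ifs <;> norm_num
  · rw [H.vert, if_pos rfl]

theorem isCompact_hull (p : Fin 4 → E3) : IsCompact (convexHull ℝ (range p)) :=
  (Set.finite_range p).isCompact_convexHull ℝ

theorem isOpen_dlt (d : Fin 4 → (E3 →ₗ[ℝ] ℝ)) (r : ℝ) : IsOpen {y : E3 | ∀ i, |d i y| < r} := by
  have h : {y : E3 | ∀ i, |d i y| < r} = ⋂ i, {y : E3 | |d i y| < r} := by
    ext y
    simp
  rw [h]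
  refine isOpen_iInter_of_finite fun i => ?_
  exact isOpen_lt (cont d i).abs continuous_const

theorem zero_int (d : Fin 4 → (E3 →ₗ[ℝ] ℝ)) {r : ℝ} (hr : 0 < r) {A : Set E3}
    (h : ∀ y, (∀ i, |d i y| < r) → y ∈ A) : (0 : E3) ∈ interior A := by
  rw [mem_interior]
  exact ⟨_, fun y hy => h y hy, isOpen_dlt d r, fun i => by simpa using hr⟩

/-- the octahedron -/
def body (H : Cd p d g) : ConvexBody E3 where
  carrier := {y | ∀ i, |d i y| ≤ 1 / 4}
  convex' := by
    intro y hy z hz a b ha hb hab i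
    rw [map_add, map_smul, map_smul, smul_eq_mul, smul_eq_mul]
    refine (abs_add_le _ _).trans ?_
    rw [abs_mul, abs_mul, abs_of_nonneg ha, abs_of_nonneg hb]
    have h1 := mul_le_mul_of_nonneg_left (hy i) ha
    have h2 := mul_le_mul_of_nonneg_left (hz i) hb
    have h3 : a * (1 / 4) + b * (1 / 4) = 1 / 4 := by rw [← add_mul, hab, one_mul]
    linarith
  isCompact' := by
    have h1 : IsCompact ((fun x => x - g) '' convexHull ℝ (range p)) :=
      (isCompact_hull p).image (by fun_prop)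
    refine h1.of_isClosed_subset ?_ ?_
    · have h : {y : E3 | ∀ i, |d i y| ≤ 1 / 4} = ⋂ i, {y : E3 | |d i y| ≤ 1 / 4} := by
        ext y
        simp
      rw [h]
      exact isClosed_iInter fun i => isClosed_le (cont d i).abs continuous_const
    · intro y hy
      refine ⟨y + g, ?_, by simp⟩
      rw [H.hull]
      intro i
      have := abs_le.1 (hy i)
      rw [add_sub_cancel_right]
      linarith [this.1]
  nonempty' := ⟨0, fun i => by simp⟩

theorem mem_body (H : Cd p d g) {y : E3} : y ∈ body H ↔ ∀ i, |d i y| ≤ 1 / 4 := Iff.rfl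

theorem mem_smul_nn {t : ℝ≥0} {K : ConvexBody E3} {y : E3} (hy : y ∈ K) :
    (t : ℝ) • y ∈ ((t • K : ConvexBody E3) : Set E3) := by
  rw [ConvexBody.coe_smul']
  exact ⟨y, hy, rfl⟩

/-- letting `t → 0` -/
theorem lim {A B C r : ℝ} (hr : 0 < r) (h : ∀ t : ℝ, 0 < t → t < r → A ≤ B + C * t) : A ≤ B := by
  have h1 : Filter.Tendsto (fun t : ℝ => B + C * t) (nhdsWithin 0 (Ioi 0)) (nhds (B + C * 0)) := by
    have : Continuous fun t : ℝ => B + C * t := by fun_prop
    exact (this.tendsto 0).mono_left nhdsWithin_le_nhds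
  rw [mul_zero, add_zero] at h1
  refine ge_of_tendsto h1 ?_
  filter_upwards [Ioo_mem_nhdsGT hr] with t ht
  exact h t ht.1 ht.2

theorem zero_int_smul {t : ℝ≥0} (ht : 0 < t) {K : ConvexBody E3}
    (h : (0 : E3) ∈ interior (K : Set E3)) :
    (0 : E3) ∈ interior ((t • K : ConvexBody E3) : Set E3) := by
  rw [ConvexBody.coe_smul', interior_smul₀ ht.ne']
  exact ⟨0, h, smul_zero _⟩

theorem vol_tr (x : E3) (K : ConvexBody E3) :
    vol ((tr x K : ConvexBody E3) : Set E3) = vol (K : Set E3) := by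
  rw [← TV_self, TV_tr1, TV_tr2, TV_tr3, TV_self]

theorem ng_tr (x : E3) (K : ConvexBody E3) : ng (tr x K) = tr (-x) (ng K) := by
  apply SetLike.coe_injective
  ext y
  rw [SetLike.mem_coe, SetLike.mem_coe, mem_ng, mem_tr, mem_tr, mem_ng]
  have : -(y - -x) = -y - x := by abel
  rw [this]

theorem coe_trO (H : Cd p d g) : ((tr g (body H) : ConvexBody E3) : Set E3) = slab p 0 (1 / 2) := by
  ext x
  rw [SetLike.mem_coe, mem_tr, mem_body, mem_slab H]
  refine forall_congr' fun i => ?_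
  rw [abs_le]
  constructor
  · rintro ⟨h1, h2⟩
    constructor <;> linarith
  · rintro ⟨h1, h2⟩
    constructor <;> linarith

theorem fatO (H : Cd p d g) : Fat (body H : Set E3) :=
  ⟨0, zero_int d (r := 1 / 4) (by norm_num) fun y hy i => (hy i).le⟩

theorem fat_trO (H : Cd p d g) : Fat ((tr g (body H) : ConvexBody E3) : Set E3) := by
  refine ⟨g, ?_⟩
  rw [mem_interior]
  refine ⟨(fun x => x - g) ⁻¹' {y : E3 | ∀ i, |d i y| < 1 / 4}, ?_,
    (isOpen_dlt d (1 / 4)).preimage (by fun_prop), fun i => by simp⟩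
  intro x hx
  rw [SetLike.mem_coe, mem_tr, mem_body]
  exact fun i => (hx i).le

theorem vol_O (sl : S_SLAB) (hp : AffineIndependent ℝ p) (H : Cd p d g) :
    vol (body H : Set E3) = vol (convexHull ℝ (range p)) / 2 := by
  rw [← vol_tr g (body H), coe_trO H]
  exact (sl p hp).2.1

section main

variable (sh : S_SHELL) (sl : S_SLAB) (hp : AffineIndependent ℝ p) (H : Cd p d g)
  {S : ConvexBody E3} (hS : (S : Set E3) = convexHull ℝ (range p))

include hS

theorem mem_S (H : Cd p d g) {x : E3} : x ∈ S ↔ ∀ i, 0 ≤ 1 / 4 + d i (x - g) := by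
  rw [← SetLike.mem_coe, hS, H.hull]
  rfl

theorem fat_S (H : Cd p d g) : Fat (S : Set E3) := by
  refine ⟨g, ?_⟩
  rw [mem_interior]
  refine ⟨(fun x => x - g) ⁻¹' {y : E3 | ∀ i, |d i y| < 1 / 4}, ?_,
    (isOpen_dlt d (1 / 4)).preimage (by fun_prop), fun i => by simp⟩
  intro x hx
  rw [SetLike.mem_coe, mem_S hS H]
  intro i
  have := abs_lt.1 (hx i)
  linarith [this.1]

theorem slab_top (H : Cd p d g) {l m : ℝ} (hl : 0 ≤ l) : volume (slab p l m) ≠ ⊤ := by
  refine ((measure_mono ?_).trans_lt S.isCompact.measure_lt_top).ne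
  intro x hx
  rw [SetLike.mem_coe, mem_S hS H]
  intro i
  linarith [((mem_slab H).1 hx i).1]

/-- the centred simplex -/
theorem mem_S0 (H : Cd p d g) {y : E3} : y ∈ tr (-g) S ↔ ∀ i, 0 ≤ 1 / 4 + d i y := by
  rw [mem_tr, mem_S hS H]
  have : y - -g - g = y := by abel
  rw [this]

theorem zS0 (H : Cd p d g) : (0 : E3) ∈ interior ((tr (-g) S : ConvexBody E3) : Set E3) := by
  refine zero_int d (r := 1 / 4) (by norm_num) fun y hy => ?_
  rw [SetLike.mem_coe, mem_S0 hS H]
  intro i
  have := abs_lt.1 (hy i)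
  linarith [this.1]

theorem zN0 (H : Cd p d g) : (0 : E3) ∈ interior ((ng (tr (-g) S) : ConvexBody E3) : Set E3) := by
  refine zero_int d (r := 1 / 4) (by norm_num) fun y hy => ?_
  rw [SetLike.mem_coe, mem_ng, mem_S0 hS H]
  intro i
  have := abs_lt.1 (hy i)
  rw [map_neg]
  linarith [this.2]

/-- (a) -/
theorem pa (sh : S_SHELL) (sl : S_SLAB) (hp : AffineIndependent ℝ p) (H : Cd p d g) :
    vol (S : Set E3) ≤ TV S S (body H) := by
  have hzero : (0 : E3) ∈ interior ((body H : ConvexBody E3) : Set E3) :=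
    zero_int d (r := 1 / 4) (by norm_num) fun y hy i => (hy i).le
  refine lim (C := vol (S : Set E3) + TV S (body H) (body H) + vol (body H : Set E3))
    (r := 1) one_pos fun t h0 h1 => ?_
  obtain ⟨s, rfl⟩ : ∃ s : ℝ≥0, (s : ℝ) = t := ⟨⟨t, h0.le⟩, rfl⟩
  have hs : 0 < s := by exact_mod_cast h0
  have h2 := sh S (s • body H) (fat_S hS H) (zero_int_smul hs hzero)
  rw [vol_add_smul] at h2
  have h3 : vol (ero S ((s • body H : ConvexBody E3) : Set E3)) ≤ vol (slab p (s / 4) 1) := by
    refine vol_mono ?_ (slab_top hS H (by positivity))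
    intro x hx
    have hlow : ∀ i, (s : ℝ) / 4 ≤ 1 / 4 + d i (x - g) := by
      intro i
      obtain ⟨y, hy, hi⟩ := edge H i
      have h4 : x + (s : ℝ) • y ∈ S := hx _ (mem_smul_nn (t := s) (K := body H) hy)
      have h5 := (mem_S hS H).1 h4 i
      have h6 : x + (s : ℝ) • y - g = (x - g) + (s : ℝ) • y := by abel
      rw [h6, map_add, map_smul, hi, smul_eq_mul] at h5
      linarith
    refine (mem_slab H).2 fun i => ⟨hlow i, le_one H (fun j => ?_) i⟩
    exact le_trans (by positivity) (hlow j)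
  rw [(sl p hp).1 _ (by positivity) (by linarith), ← hS] at h3
  have e : 4 * ((s : ℝ) / 4) = s := by ring
  rw [e] at h3
  have hV := vol_nonneg (S : Set E3)
  have hO := vol_nonneg (body H : Set E3)
  have hT := TV_nonneg S (body H) (body H)
  set V := vol (S : Set E3)
  set T1 := TV S S (body H)
  set T2 := TV S (body H) (body H)
  set W := vol (body H : Set E3)
  set t := (s : ℝ)
  have h7 : 0 ≤ t * (3 * T1 + 3 * t * T2 + t ^ 2 * W - (3 * V - 3 * t * V + t ^ 2 * V)) := by
    nlinarith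
  have h8 := nonneg_of_mul_nonneg_right h7 h0
  have h9 : 0 ≤ t ^ 2 * V := by positivity
  have h10 : t ^ 2 * W ≤ t * W := mul_le_mul_of_nonneg_right (by nlinarith) hO
  have h11 : 0 ≤ t * W := by positivity
  nlinarith

/-- (b) -/
theorem pb (sh : S_SHELL) (sl : S_SLAB) (hp : AffineIndependent ℝ p) (H : Cd p d g) :
    vol (S : Set E3) ≤ TV S (body H) (body H) := by
  rw [TV_13]
  refine lim (C := 3 * vol (S : Set E3) + TV (body H) S S)
    (r := 1 / 8) (by norm_num) fun t h0 h1 => ?_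
  obtain ⟨s, rfl⟩ : ∃ s : ℝ≥0, (s : ℝ) = t := ⟨⟨t, h0.le⟩, rfl⟩
  have hs : 0 < s := by exact_mod_cast h0
  have h2 := sh (tr g (body H)) (s • tr (-g) S) (fat_trO H) (zero_int_smul hs (zS0 hS H))
  rw [vol_add_smul] at h2
  simp only [TV_tr1, TV_tr2, TV_tr3, vol_tr] at h2
  have h3 : vol (ero (tr g (body H) : ConvexBody E3)
      ((s • tr (-g) S : ConvexBody E3) : Set E3)) ≤ vol (slab p (s / 4) (1 / 2 - 3 * s / 4)) := by
    refine vol_mono ?_ (slab_top hS H (by positivity))
    intro x hx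
    have hmem : ∀ y ∈ tr (-g) S, ∀ i, 0 ≤ 1 / 4 + (d i (x - g) + s * d i y) ∧
        1 / 4 + (d i (x - g) + s * d i y) ≤ 1 / 2 := by
      intro y hy i
      have h4 : x + (s : ℝ) • y ∈ ((tr g (body H) : ConvexBody E3) : Set E3) :=
        hx _ (mem_smul_nn (t := s) (K := tr (-g) S) hy)
      rw [coe_trO H, mem_slab H] at h4
      have h5 := h4 i
      have h6 : x + (s : ℝ) • y - g = (x - g) + (s : ℝ) • y := by abel
      rw [h6, map_add, map_smul, smul_eq_mul] at h5
      exact h5
    refine (mem_slab H).2 fun i => ⟨?_, ?_⟩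
    · obtain ⟨y, hy, hi⟩ := edge H i
      have h4 := (hmem y ((mem_S0 hS H).2 fun j => by linarith [(abs_le.1 (hy j)).1]) i).1
      rw [hi] at h4
      linarith
    · obtain ⟨y, hy, hi⟩ := vert' H i
      have h4 := (hmem y ((mem_S0 hS H).2 hy) i).2
      rw [hi] at h4
      linarith
  have h4 := (sl p hp).2.2 s (by positivity) h1.le
  have h5 := vol_O sl hp H
  rw [← hS] at h4 h5
  have hV := vol_nonneg (S : Set E3)
  have hT := TV_nonneg (body H) S S
  set V := vol (S : Set E3)
  set T1 := TV (body H) (body H) S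
  set T2 := TV (body H) S S
  set W := vol (body H : Set E3)
  set t := (s : ℝ)
  have h7 : 0 ≤ t * (3 * T1 - 3 * V + 3 * t * V + 6 * t ^ 2 * V + 3 * t * T2) := by
    rw [h5] at h2
    nlinarith
  have h8 := nonneg_of_mul_nonneg_right h7 h0
  have h9 : t ^ 2 * V ≤ t * V := mul_le_mul_of_nonneg_right (by nlinarith) hV
  nlinarith

/-- (c) -/
theorem pc (sh : S_SHELL) (sl : S_SLAB) (hp : AffineIndependent ℝ p) (H : Cd p d g) :
    3 * vol (S : Set E3) ≤ TV S S (ng S) := by
  refine lim (C := 9 * vol (S : Set E3) + TV S (ng S) (ng S))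
    (r := 1 / 3) (by norm_num) fun t h0 h1 => ?_
  obtain ⟨s, rfl⟩ : ∃ s : ℝ≥0, (s : ℝ) = t := ⟨⟨t, h0.le⟩, rfl⟩
  have hs : 0 < s := by exact_mod_cast h0
  have h2 := sh S (s • ng (tr (-g) S)) (fat_S hS H) (zero_int_smul hs (zN0 hS H))
  rw [vol_add_smul, vol_ng, vol_tr, ng_tr, TV_tr3, TV_tr2, TV_tr3] at h2
  have h3 : vol (ero S ((s • tr (- -g) (ng S) : ConvexBody E3) : Set E3)) ≤
      vol (slab p (3 * s / 4) 1) := by
    refine vol_mono ?_ (slab_top hS H (by positivity))
    intro x hx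
    have hlow : ∀ i, 3 * (s : ℝ) / 4 ≤ 1 / 4 + d i (x - g) := by
      intro i
      obtain ⟨y, hy, hi⟩ := vert' H i
      have hy' : -y ∈ tr (- -g) (ng S) := by
        rw [← ng_tr, mem_ng, neg_neg, mem_S0 hS H]
        exact hy
      have h4 : x + (s : ℝ) • (-y) ∈ S := hx _ (mem_smul_nn (t := s) hy')
      have h5 := (mem_S hS H).1 h4 i
      have h6 : x + (s : ℝ) • (-y) - g = (x - g) - (s : ℝ) • y := by
        rw [smul_neg]
        abel
      rw [h6, map_sub, map_smul, hi, smul_eq_mul] at h5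
      linarith
    refine (mem_slab H).2 fun i => ⟨hlow i, le_one H (fun j => ?_) i⟩
    exact le_trans (by positivity) (hlow j)
  rw [(sl p hp).1 _ (by positivity) (by linarith), ← hS] at h3
  have hV := vol_nonneg (S : Set E3)
  have hT := TV_nonneg S (ng S) (ng S)
  set V := vol (S : Set E3)
  set T1 := TV S S (ng S)
  set T2 := TV S (ng S) (ng S)
  set t := (s : ℝ)
  have h7 : 0 ≤ t * (3 * T1 - 9 * V + 27 * t * V - 26 * t ^ 2 * V + 3 * t * T2) := by
    nlinarith
  have h8 := nonneg_of_mul_nonneg_right h7 h0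
  have h9 : 0 ≤ t ^ 2 * V := by positivity
  nlinarith

/-- (d) -/
theorem pd (sh : S_SHELL) (sl : S_SLAB) (hp : AffineIndependent ℝ p) (H : Cd p d g) :
    3 * vol (S : Set E3) ≤ TV S (ng S) (body H) := by
  have hV : 0 < vol (S : Set E3) := vol_pos (fat_S hS H)
  have a1 := pa hS sh sl hp H
  have b1 := pb hS sh sl hp H
  have c1 := pc hS sh sl hp H
  have hsub : ((tr g (body H) : ConvexBody E3) : Set E3) ⊆ S := by
    rw [coe_trO H]
    intro x hx
    rw [SetLike.mem_coe, mem_S hS H]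
    exact fun i => ((mem_slab H).1 hx i).1
  have e1 : TV S (body H) S ≤ vol (S : Set E3) := by
    have h := TV_mono2 S hsub S
    rw [TV_tr2, TV_self] at h
    exact h
  have hRQ : TV (ng S) S S ≤ TV (ng S) (body H) S := by
    have hR := TV_nonneg (ng S) S S
    have hQ := TV_nonneg (ng S) (body H) S
    have hXX := TV_nonneg (ng S) (ng S) S
    have key : TV (ng S) S S * vol (S : Set E3) ≤ TV (ng S) (body H) S * vol (S : Set E3) := by
      refine lim (C := TV (ng S) (body H) S ^ 2 / 2) (r := 1) one_pos fun t h0 h1 => ?_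
      obtain ⟨s, rfl⟩ : ∃ s : ℝ≥0, (s : ℝ) = t := ⟨⟨t, h0.le⟩, rfl⟩
      have hA : 0 < TV (S + s • ng S) S S := by
        rw [TV_add1, TV_smul1, TV_self]
        positivity
      have hB : 0 < TV (body H) S S := by
        rw [TV_13]
        linarith
      have h := TV_af (S + s • ng S) (body H) S (by rw [TV_self]; exact hV) hA hB
      simp only [TV_add1, TV_add2, TV_smul1, TV_smul2] at h
      rw [TV_self, TV_12 S (ng S) S, TV_13 (body H) (body H) S] at h
      have hOS := TV_nonneg S (body H) S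
      set V := vol (S : Set E3)
      set R := TV (ng S) S S
      set Q := TV (ng S) (body H) S
      set P := TV S (body H) (body H)
      set Y := TV S (body H) S
      set XX := TV (ng S) (ng S) S
      set t := (s : ℝ)
      have h2 : (Y + t * Q) ^ 2 ≤ (V + t * Q) ^ 2 := by
        refine pow_le_pow_left₀ (by positivity) ?_ 2
        linarith
      have h3 : (V + 2 * t * R) * V ≤ (V + t * R + t * (R + t * XX)) * P := by
        refine mul_le_mul ?_ b1 hV.le (by positivity)
        have : 0 ≤ t * (t * XX) := by positivity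
        nlinarith
      have h4 : (V + 2 * t * R) * V ≤ (V + t * Q) ^ 2 := by
        refine h3.trans (le_trans (le_of_eq ?_) (h.trans h2))
        ring
      have h5 : 0 ≤ t * (2 * (Q * V) + t * Q ^ 2 - 2 * (R * V)) := by nlinarith
      have h6 := nonneg_of_mul_nonneg_right h5 h0
      linarith
    exact le_of_mul_le_mul_right key hV
  rw [TV_23 S (ng S) (body H), TV_13 S (body H) (ng S)]
  rw [TV_13 S S (ng S)] at c1
  exact c1.trans hRQ

end main

end OCT

theorem oct (sh : S_SHELL) (sl : S_SLAB) : S_OCT := by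
  intro p hp
  obtain ⟨d, g, H⟩ := OCT.coords hp
  refine ⟨OCT.body H, OCT.fatO H, ?_, ⟨g, ?_⟩, ?_, fun S hS =>
    ⟨OCT.pa hS sh sl hp H, OCT.pb hS sh sl hp H, OCT.pd hS sh sl hp H⟩⟩
  · intro z hz i
    rw [map_neg, abs_neg]
    exact hz i
  · intro y hy
    rw [H.hull]
    intro i
    rw [add_sub_cancel_left]
    linarith [(abs_le.1 (hy i)).1]
  · rw [OCT.vol_O sl hp H]
    ring


end Pool.Agent.H619.SB

end
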