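import Pool.Agent.H619.SB.St

/-!
# Project SB: outer approximation of a convex body by a polytope
-/

set_option autoImplicit false

open Set
open scoped Pointwise Topology

namespace Pool.Agent.H619.SB

namespace OUT

/-- the body lies in the interior of its dilation -/
theorem sub_int (K : ConvexBody E3) (h0 : (0 : E3) ∈ interior (K : Set E3)) (ε : ℝ) (hε : 0 < ε) :
    (K : Set E3) ⊆ interior ((1 + ε) • (K : Set E3)) := by
  have h1 := K.convex.subset_interior_image_homothety_of_one_lt h0 (1 + ε) (by linarith)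
  have h2 : AffineMap.homothety (0 : E3) (1 + ε) '' (K : Set E3) = (1 + ε) • (K : Set E3) := by
    rw [← Set.image_smul]
    refine Set.image_congr fun x _ => ?_
    rw [AffineMap.homothety_apply, vsub_eq_sub, sub_zero, vadd_eq_add, add_zero]
  rwa [h2] at h1

/-- a finite number of separating functionals -/
theorem cover (K : ConvexBody E3) (S : Set E3) (hS : IsCompact S) (hd : ∀ x ∈ S, x ∉ (K : Set E3))
    (h0 : (0 : E3) ∈ (K : Set E3)) :
    ∃ F : Finset ((E3 →L[ℝ] ℝ) × ℝ), (∀ f ∈ F, f.1 ≠ 0) ∧ (K : Set E3) ⊆ poly F ∧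
      ∀ x ∈ S, x ∉ poly F := by
  classical
  have h1 : ∀ x : E3, ∃ g : (E3 →L[ℝ] ℝ) × ℝ, x ∈ S → (∀ a ∈ (K : Set E3), g.1 a < g.2) ∧
      g.2 < g.1 x := by
    intro x
    by_cases hx : x ∈ S
    · obtain ⟨f, u, h2, h3⟩ := geometric_hahn_banach_closed_point K.convex K.isCompact.isClosed
        (hd x hx)
      exact ⟨(f, u), fun _ => ⟨h2, h3⟩⟩
    · exact ⟨(0, 0), fun h => absurd h hx⟩
  choose g hg using h1
  obtain ⟨t, ht, hcov⟩ := hS.elim_nhds_subcover (fun x => {z | (g x).2 < (g x).1 z}) (by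
    intro x hx
    exact (isOpen_lt continuous_const (g x).1.continuous).mem_nhds (hg x hx).2)
  refine ⟨t.image g, ?_, ?_, ?_⟩
  · intro f hf h
    obtain ⟨x, hx, rfl⟩ := Finset.mem_image.1 hf
    obtain ⟨h2, h3⟩ := hg x (ht x hx)
    have h4 := h2 0 h0
    rw [h] at h3 h4
    have h5 : (0 : E3 →L[ℝ] ℝ) x = 0 := rfl
    have h6 : (0 : E3 →L[ℝ] ℝ) 0 = 0 := rfl
    rw [h5] at h3
    rw [h6] at h4
    linarith
  · intro a ha f hf
    obtain ⟨x, hx, rfl⟩ := Finset.mem_image.1 hf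
    exact ((hg x (ht x hx)).1 a ha).le
  · intro x hx hP
    obtain ⟨y, hy, hxy⟩ := Set.mem_iUnion₂.1 (hcov hx)
    have h2 := hP (g y) (Finset.mem_image_of_mem g hy)
    exact absurd h2 (not_le.2 hxy)

theorem poly_convex (F : Finset ((E3 →L[ℝ] ℝ) × ℝ)) : Convex ℝ (poly F) := by
  intro x hx y hy a b ha hb hab f hf
  have h1 := hx f hf
  have h2 := hy f hf
  rw [map_add, map_smul, map_smul, smul_eq_mul, smul_eq_mul]
  calc a * f.1 x + b * f.1 y ≤ a * f.2 + b * f.2 :=
        add_le_add (mul_le_mul_of_nonneg_left h1 ha) (mul_le_mul_of_nonneg_left h2 hb)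
    _ = f.2 := by rw [← add_mul, hab, one_mul]

end OUT

theorem out : S_OUT := by
  intro K h0 ε hε
  have h0K : (0 : E3) ∈ (K : Set E3) := interior_subset h0
  have hsub := OUT.sub_int K h0 ε hε
  have hC : IsCompact ((1 + ε) • (K : Set E3)) := K.isCompact.smul (1 + ε)
  have hfr : IsCompact (frontier ((1 + ε) • (K : Set E3))) :=
    hC.of_isClosed_subset isClosed_frontier hC.isClosed.frontier_subset
  obtain ⟨F, h1, h2, h3⟩ := OUT.cover K _ hfr (by
    intro x hx hK
    exact hx.2 (hsub hK)) h0K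
  refine ⟨F, h1, h2, ?_⟩
  intro y hy
  by_contra hyC
  have hpre : IsPreconnected (segment ℝ (0 : E3) y) := (convex_segment (𝕜 := ℝ) (0 : E3) y).isPreconnected
  have hseg : segment ℝ (0 : E3) y ⊆ poly F := (OUT.poly_convex F).segment_subset (h2 h0K) hy
  obtain ⟨z, hz, hz1, hz2⟩ := hpre (interior ((1 + ε) • (K : Set E3)))
    ((1 + ε) • (K : Set E3))ᶜ isOpen_interior hC.isClosed.isOpen_compl (by
      intro z hz
      by_cases hzC : z ∈ (1 + ε) • (K : Set E3)
      · left
        by_contra hzi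
        exact h3 z ⟨subset_closure hzC, hzi⟩ (hseg hz)
      · exact Or.inr hzC) ⟨0, left_mem_segment ℝ 0 y, hsub h0K⟩ ⟨y, right_mem_segment ℝ 0 y, hyC⟩
  exact hz2 (interior_subset hz1)

end Pool.Agent.H619.SB
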