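import Pool.Agent.H619.SB.St

/-!
# SHELL from SHP and OUT (helper177)
-/

set_option autoImplicit false

open MeasureTheory Set Module Filter Topology
open scoped Pointwise NNReal ENNReal

noncomputable section

namespace Pool.Agent.H619.SB

namespace SHELL

/-- A nonzero functional has a positive maximum on `L`. -/
theorem exists_max (L : ConvexBody E3) (hL : (0 : E3) ∈ interior (L : Set E3))
    (u : E3 →L[ℝ] ℝ) (hu : u ≠ 0) :
    ∃ y ∈ L, 0 < u y ∧ ∀ z ∈ L, u z ≤ u y := by
  obtain ⟨y, hy, hmax⟩ := L.isCompact.exists_isMaxOn L.nonempty u.continuous.continuousOn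
  refine ⟨y, hy, ?_, fun z hz => hmax hz⟩
  obtain ⟨v, hv⟩ : ∃ v, 0 < u v := by
    obtain ⟨v, hv⟩ : ∃ v, u v ≠ 0 := by
      by_contra hcon
      push Not at hcon
      exact hu (ContinuousLinearMap.ext hcon)
    rcases lt_or_gt_of_ne hv with h | h
    · exact ⟨-v, by rw [map_neg]; linarith⟩
    · exact ⟨v, h⟩
  have h1 : Tendsto (fun t : ℝ => t • v) (𝓝[>] 0) (𝓝 ((0 : ℝ) • v)) :=
    ((continuous_id.smul continuous_const).tendsto 0).mono_left nhdsWithin_le_nhds
  rw [zero_smul] at h1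
  have h2 : ∀ᶠ t : ℝ in 𝓝[>] 0, t • v ∈ (L : Set E3) :=
    h1.eventually (mem_interior_iff_mem_nhds.1 hL)
  obtain ⟨t, ht, ht0⟩ := (h2.and self_mem_nhdsWithin).exists
  have h3 : u (t • v) ≤ u y := hmax ht
  rw [map_smul, smul_eq_mul] at h3
  exact lt_of_lt_of_le (mul_pos ht0 hv) h3

/-- the case of a body with the origin in the interior, up to `ε` -/
theorem approx (shp : S_SHP) (out : S_OUT) (K L : ConvexBody E3)
    (hK : (0 : E3) ∈ interior (K : Set E3)) (hL : (0 : E3) ∈ interior (L : Set E3)) (ε : ℝ)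
    (hε : 0 < ε) : 2 * (((1 + ε)⁻¹) ^ 3 * vol (K : Set E3)) ≤
      vol (ero K L) + vol ((K + L : ConvexBody E3) : Set E3) := by
  classical
  obtain ⟨F, hF0, hKF, hFK⟩ := out K hK ε hε
  have h1ε : (0 : ℝ) < 1 + ε := by linarith
  choose! y hyL hypos hymax using exists_max L hL
  obtain ⟨F', hF'⟩ : ∃ F' : Finset ((E3 →L[ℝ] ℝ) × ℝ), F' = F.image (fun f =>
      ((f.1 (y f.1))⁻¹ • f.1, ((1 + ε) * f.1 (y f.1))⁻¹ * f.2)) := ⟨_, rfl⟩
  have hmem : ∀ x : E3, x ∈ poly F' ↔ (1 + ε) • x ∈ poly F := by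
    intro x
    unfold poly
    rw [mem_ofPred_eq, mem_ofPred_eq, hF']
    simp only [Finset.mem_image, forall_exists_index, and_imp, forall_apply_eq_imp_iff₂]
    refine forall_congr' fun f => forall_congr' fun hf => ?_
    have hm := hypos f.1 (hF0 f hf)
    rw [map_smul, smul_eq_mul]
    change (f.1 (y f.1))⁻¹ * f.1 x ≤ _ ↔ _
    rw [mul_inv, mul_assoc, mul_comm (1 + ε)⁻¹, mul_assoc, mul_le_mul_iff_right₀ (inv_pos.2 hm),
      mul_comm f.2, ← div_eq_inv_mul, le_div_iff₀' h1ε]
  have hsub : poly F' ⊆ (K : Set E3) := by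
    intro x hx
    have h2 := hFK ((hmem x).1 hx)
    rwa [Set.smul_mem_smul_set_iff₀ h1ε.ne'] at h2
  have hbdd : Bornology.IsBounded (poly F') := K.isCompact.isBounded.subset hsub
  have key := shp F' L (by
    intro f' hf'
    rw [hF', Finset.mem_image] at hf'
    obtain ⟨f, hf, rfl⟩ := hf'
    have hm := hypos f.1 (hF0 f hf)
    refine ⟨⟨y f.1, hyL f.1 (hF0 f hf), ?_⟩, fun z hz => ?_⟩
    · change (f.1 (y f.1))⁻¹ * f.1 (y f.1) = 1
      exact inv_mul_cancel₀ hm.ne'
    · change (f.1 (y f.1))⁻¹ * f.1 z ≤ 1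
      rw [inv_mul_le_iff₀ hm, mul_one]
      exact hymax f.1 (hF0 f hf) z hz) hbdd
  -- the volume of the polytope
  have hlow : ((1 + ε)⁻¹) ^ 3 * vol (K : Set E3) ≤ vol (poly F') := by
    have h2 : ((1 + ε)⁻¹) • (K : Set E3) ⊆ poly F' := by
      intro x hx
      rw [Set.mem_inv_smul_set_iff₀ h1ε.ne'] at hx
      exact (hmem x).2 (hKF hx)
    have h3 : vol ((1 + ε)⁻¹ • (K : Set E3)) = ((1 + ε)⁻¹) ^ 3 * vol (K : Set E3) := by
      unfold vol
      rw [Measure.addHaar_smul, h3, ENNReal.toReal_mul, ENNReal.toReal_ofReal (abs_nonneg _),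
        abs_of_nonneg (by positivity)]
    rw [← h3]
    exact vol_mono h2 hbdd.measure_lt_top.ne
  have hero : vol (ero (poly F') (L : Set E3)) ≤ vol (ero K L) := by
    refine vol_mono (fun x hx z hz => hsub (hx z hz)) ?_
    refine ne_top_of_le_ne_top K.isCompact.measure_lt_top.ne (measure_mono (t := (K : Set E3)) ?_)
    intro x hx
    have := hx 0 (interior_subset hL)
    rwa [add_zero] at this
  have hadd : vol (poly F' + (L : Set E3)) ≤ vol ((K + L : ConvexBody E3) : Set E3) := by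
    refine vol_mono ?_ (K + L : ConvexBody E3).isCompact.measure_lt_top.ne
    rw [ConvexBody.coe_add]
    exact Set.add_subset_add_right hsub
  linarith

/-- the case of a body with the origin in the interior -/
theorem centred (shp : S_SHP) (out : S_OUT) (K L : ConvexBody E3)
    (hK : (0 : E3) ∈ interior (K : Set E3)) (hL : (0 : E3) ∈ interior (L : Set E3)) :
    2 * vol (K : Set E3) ≤ vol (ero K L) + vol ((K + L : ConvexBody E3) : Set E3) := by
  have h1 : Tendsto (fun ε : ℝ => 2 * (((1 + ε)⁻¹) ^ 3 * vol (K : Set E3))) (𝓝[>] 0)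
      (𝓝 (2 * (((1 + (0 : ℝ))⁻¹) ^ 3 * vol (K : Set E3)))) := by
    have h2 : ContinuousAt (fun ε : ℝ => 2 * (((1 + ε)⁻¹) ^ 3 * vol (K : Set E3))) 0 := by
      have h3 : ContinuousAt (fun ε : ℝ => (1 + ε)⁻¹) 0 :=
        (continuousAt_const.add continuousAt_id).inv₀ (by simp)
      exact continuousAt_const.mul ((h3.pow 3).mul continuousAt_const)
    exact h2.tendsto.mono_left nhdsWithin_le_nhds
  have h4 : 2 * (((1 + (0 : ℝ))⁻¹) ^ 3 * vol (K : Set E3)) = 2 * vol (K : Set E3) := by norm_num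
  rw [h4] at h1
  refine le_of_tendsto h1 ?_
  filter_upwards [self_mem_nhdsWithin] with ε hε
  exact approx shp out K L hK hL ε hε

/-- the volume of a translate -/
theorem vol_pre (a : E3) (S : Set E3) : vol ((fun y => y + a) ⁻¹' S) = vol S := by
  unfold vol
  rw [measure_preimage_add_right]

end SHELL

/-- **SHELL** -/
theorem shell (shp : S_SHP) (out : S_OUT) : S_SHELL := by
  intro K L hK hL
  obtain ⟨a, ha⟩ := hK
  have h1 : ∀ M : ConvexBody E3, ((tr (-a) M : ConvexBody E3) : Set E3) =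
      (fun y => y + a) ⁻¹' (M : Set E3) := by
    intro M
    ext x
    rw [SetLike.mem_coe, mem_tr, sub_neg_eq_add]
    rfl
  have h2 : (0 : E3) ∈ interior ((tr (-a) K : ConvexBody E3) : Set E3) := by
    rw [h1]
    have h3 := (Homeomorph.addRight a).preimage_interior (K : Set E3)
    have h4 : (0 : E3) ∈ (Homeomorph.addRight a) ⁻¹' interior (K : Set E3) := by
      change 0 + a ∈ interior (K : Set E3)
      rwa [zero_add]
    rw [h3] at h4
    exact h4
  have h5 := SHELL.centred shp out (tr (-a) K) L h2 hL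
  have h6 : tr (-a) K + L = tr (-a) (K + L) := by
    unfold tr
    rw [add_right_comm]
  have h7 : ero (tr (-a) K : ConvexBody E3) L = (fun y => y + a) ⁻¹' (ero K L) := by
    ext x
    unfold ero
    rw [mem_preimage, mem_ofPred_eq, mem_ofPred_eq]
    refine forall_congr' fun z => forall_congr' fun _ => ?_
    rw [h1, mem_preimage, add_right_comm]
  rw [h6, h7, h1, h1, SHELL.vol_pre, SHELL.vol_pre, SHELL.vol_pre] at h5
  exact h5

end Pool.Agent.H619.SB

end
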