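import Pool.Agent.H619.SB.St

/-!
Project SB (helper619), MP_0069fb_gt: the inequality SHELL for polytopes, by helper870.
-/

set_option autoImplicit false
set_option linter.unusedSectionVars false

open MeasureTheory Set Module
open scoped Pointwise NNReal ENNReal

noncomputable section

namespace Pool.Agent.H619.SB.SHPN

theorem null_plane (φ : E3 →L[ℝ] ℝ) (hφ : φ ≠ 0) (c : ℝ) :
    (volume : Measure E3) {x : E3 | φ x = c} = 0 := by
  by_cases h : ∃ x0, φ x0 = c
  · obtain ⟨x0, hx0⟩ := h
    have h1 : {x : E3 | φ x = c} =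
        (fun x => x + (-x0)) ⁻¹' (LinearMap.ker (φ : E3 →ₗ[ℝ] ℝ) : Set E3) := by
      ext x
      rw [mem_setOf_eq, mem_preimage, SetLike.mem_coe, LinearMap.mem_ker]
      show φ x = c ↔ φ (x + -x0) = 0
      rw [map_add, map_neg, hx0, ← sub_eq_add_neg, sub_eq_zero]
    rw [h1, measure_preimage_add_right]
    refine Measure.addHaar_submodule _ _ fun h2 => hφ ?_
    ext1 x
    have h3 : x ∈ LinearMap.ker (φ : E3 →ₗ[ℝ] ℝ) := by rw [h2]; exact Submodule.mem_top
    exact LinearMap.mem_ker.1 h3
  · have h1 : {x : E3 | φ x = c} = ∅ := by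
      ext x
      simp only [mem_setOf_eq, mem_empty_iff_false, iff_false]
      exact fun h2 => h ⟨x, h2⟩
    rw [h1, measure_empty]

/-- the distance function of an inequality -/
def sf (f : (E3 →L[ℝ] ℝ) × ℝ) (x : E3) : ℝ := f.2 - f.1 x

theorem sf_cont (f : (E3 →L[ℝ] ℝ) × ℝ) : Continuous (sf f) := continuous_const.sub f.1.continuous

theorem sf_add (f : (E3 →L[ℝ] ℝ) × ℝ) (x y : E3) : sf f (x + y) = sf f x - f.1 y := by
  unfold sf
  rw [map_add]
  ring

theorem mem_poly {F : Finset ((E3 →L[ℝ] ℝ) × ℝ)} {x : E3} : x ∈ poly F ↔ ∀ f ∈ F, 0 ≤ sf f x := by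
  unfold poly sf
  simp only [mem_setOf_eq, sub_nonneg]

theorem poly_meas (F : Finset ((E3 →L[ℝ] ℝ) × ℝ)) : MeasurableSet (poly F) := by
  have h : poly F = ⋂ f ∈ F, {x | 0 ≤ sf f x} := by
    ext x
    rw [mem_poly]
    simp only [mem_iInter, mem_setOf_eq]
  rw [h]
  exact Finset.measurableSet_biInter _ fun f _ =>
    (isClosed_le continuous_const (sf_cont f)).measurableSet

theorem core (F : Finset ((E3 →L[ℝ] ℝ) × ℝ)) (L : Set E3) (m : (E3 →L[ℝ] ℝ) × ℝ → ℝ)
    (z : (E3 →L[ℝ] ℝ) × ℝ → E3) (h0 : (0 : E3) ∈ L) (hzL : ∀ f ∈ F, z f ∈ L)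
    (hz : ∀ f ∈ F, f.1 (z f) = m f) (hle : ∀ f ∈ F, ∀ y ∈ L, f.1 y ≤ m f)
    (hnull : ∀ f ∈ F, ∀ g ∈ F, f ≠ g → 0 < m f → 0 < m g →
      (volume : Measure E3) {x : E3 | m g * sf f x = m f * sf g x} = 0)
    (hP : Bornology.IsBounded (poly F)) (hPL : Bornology.IsBounded (poly F + L)) :
    2 * vol (poly F) ≤ vol (ero (poly F) L) + vol (poly F + L) := by
  classical
  set G := F.filter fun f => 0 < m f with hG
  have hGF : ∀ f ∈ G, f ∈ F ∧ 0 < m f := fun f hf => Finset.mem_filter.1 hf
  set A : (E3 →L[ℝ] ℝ) × ℝ → Set E3 := fun f => poly F ∩ ({x | sf f x < m f} ∩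
    ⋂ g ∈ G.erase f, {x | m g * sf f x < m f * sf g x}) with hA
  have hAm : ∀ f, MeasurableSet (A f) := by
    intro f
    refine (poly_meas F).inter ((isOpen_lt (sf_cont f) continuous_const).measurableSet.inter ?_)
    exact Finset.measurableSet_biInter _ fun g _ =>
      (isOpen_lt (continuous_const.mul (sf_cont f))
        (continuous_const.mul (sf_cont g))).measurableSet
  set N : Set E3 := ⋃ p ∈ (G ×ˢ G).filter (fun p => p.1 ≠ p.2),
    {x : E3 | m p.2 * sf p.1 x = m p.1 * sf p.2 x} with hN
  have hN0 : (volume : Measure E3) N = 0 := by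
    rw [hN]
    refine (measure_biUnion_null_iff (Finset.countable_toSet _)).2 fun p hp => ?_
    rw [Finset.mem_coe, Finset.mem_filter, Finset.mem_product] at hp
    exact hnull p.1 (hGF _ hp.1.1).1 p.2 (hGF _ hp.1.2).1 hp.2 (hGF _ hp.1.1).2 (hGF _ hp.1.2).2
  -- the covering
  have hcov : poly F ⊆ ero (poly F) L ∪ ((⋃ f ∈ G, A f) ∪ N) := by
    intro x hx
    by_cases hxe : x ∈ ero (poly F) L
    · exact Or.inl hxe
    right
    have h1 : ∃ f ∈ F, sf f x < m f := by
      by_contra hc
      push Not at hc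
      apply hxe
      intro y hy
      rw [mem_poly]
      intro f hf
      rw [sf_add]
      linarith [hc f hf, hle f hf y hy]
    obtain ⟨f, hf, hfx⟩ := h1
    have hf0 : 0 < m f := lt_of_le_of_lt (mem_poly.1 hx f hf) hfx
    have hfG : f ∈ G := Finset.mem_filter.2 ⟨hf, hf0⟩
    obtain ⟨f0, hf0G, hmin⟩ := Finset.exists_min_image G (fun f => sf f x / m f) ⟨f, hfG⟩
    have hm0 := (hGF f0 hf0G).2
    have h2 : sf f0 x < m f0 := by
      have h3 : sf f0 x / m f0 < 1 := (hmin f hfG).trans_lt ((div_lt_one hf0).2 hfx)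
      exact (div_lt_one hm0).1 h3
    have h4 : ∀ g ∈ G, m g * sf f0 x ≤ m f0 * sf g x := by
      intro g hg
      have h5 := (div_le_div_iff₀ hm0 (hGF g hg).2).1 (hmin g hg)
      linarith
    by_cases hs : ∀ g ∈ G, g ≠ f0 → m g * sf f0 x < m f0 * sf g x
    · left
      refine mem_biUnion hf0G ⟨hx, h2, ?_⟩
      rw [mem_iInter₂]
      intro g hg
      exact hs g (Finset.mem_of_mem_erase hg) (Finset.ne_of_mem_erase hg)
    · right
      push Not at hs
      obtain ⟨g, hg, hne, hge⟩ := hs
      rw [hN]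
      refine mem_biUnion (x := (f0, g)) ?_ ?_
      · rw [Finset.mem_coe, Finset.mem_filter, Finset.mem_product]
        exact ⟨⟨hf0G, hg⟩, fun h => hne h.symm⟩
      · exact le_antisymm (h4 g hg) hge
  have hle1 : (volume : Measure E3) (poly F) ≤ volume (ero (poly F) L) +
      ∑ f ∈ G, volume (A f) := by
    calc (volume : Measure E3) (poly F) ≤ volume (ero (poly F) L ∪ ((⋃ f ∈ G, A f) ∪ N)) :=
          measure_mono hcov
      _ ≤ volume (ero (poly F) L) + (volume (⋃ f ∈ G, A f) + volume N) :=
          (measure_union_le _ _).trans (add_le_add le_rfl (measure_union_le _ _))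
      _ ≤ volume (ero (poly F) L) + ∑ f ∈ G, volume (A f) := by
          rw [hN0, add_zero]
          exact add_le_add le_rfl (measure_biUnion_finset_le _ _)
  -- the packing
  set B : (E3 →L[ℝ] ℝ) × ℝ → Set E3 := fun f => (fun x => x + (-z f)) ⁻¹' (A f) with hB
  have hBm : ∀ f, MeasurableSet (B f) := fun f => (measurable_add_const (-z f)) (hAm f)
  have hBv : ∀ f, (volume : Measure E3) (B f) = volume (A f) := fun f =>
    measure_preimage_add_right volume (-z f) (A f)
  have hdisj : (G : Set ((E3 →L[ℝ] ℝ) × ℝ)).PairwiseDisjoint B := by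
    intro f hf g hg hfg
    rw [Function.onFun, Set.disjoint_left]
    intro x hxf hxg
    have hfm := (hGF f hf).2
    have hgm := (hGF g hg).2
    -- the inequality at `x`
    have key : ∀ f ∈ G, ∀ g ∈ G, f ≠ g → x ∈ B f → m g * sf f x < m f * sf g x := by
      intro f hf g hg hfg hx
      have h1 : x + (-z f) ∈ A f := hx
      have h2 := h1.2.2
      rw [mem_iInter₂] at h2
      have h3 : m g * sf f (x + (-z f)) < m f * sf g (x + (-z f)) :=
        h2 g (Finset.mem_erase.2 ⟨fun h => hfg h.symm, hg⟩)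
      rw [sf_add, sf_add, map_neg, map_neg, hz f (hGF f hf).1] at h3
      have h4 := hle g (hGF g hg).1 (z f) (hzL f (hGF f hf).1)
      have h5 := mul_le_mul_of_nonneg_left h4 (hGF f hf).2.le
      linarith
    exact lt_asymm (key f hf g hg hfg hxf) (key g hg f hf (Ne.symm hfg) hxg)
  have hdisj2 : Disjoint (poly F) (⋃ f ∈ G, B f) := by
    rw [Set.disjoint_left]
    intro x hx hxB
    rw [mem_iUnion₂] at hxB
    obtain ⟨f, hf, hxf⟩ := hxB
    have h1 : x + (-z f) ∈ A f := hxf
    have h2 : sf f (x + (-z f)) < m f := h1.2.1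
    rw [sf_add, map_neg, hz f (hGF f hf).1] at h2
    have h3 := mem_poly.1 hx f (hGF f hf).1
    linarith
  have hsub : poly F ∪ (⋃ f ∈ G, B f) ⊆ poly F + L := by
    rintro x (hx | hx)
    · exact ⟨x, hx, 0, h0, add_zero x⟩
    · rw [mem_iUnion₂] at hx
      obtain ⟨f, hf, hxf⟩ := hx
      have h1 : x + (-z f) ∈ A f := hxf
      refine ⟨x + (-z f), h1.1, z f, hzL f (hGF f hf).1, ?_⟩
      show x + -z f + z f = x
      rw [neg_add_cancel_right]
  have hle2 : (volume : Measure E3) (poly F) + ∑ f ∈ G, volume (A f) ≤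
      volume (poly F + L) := by
    calc (volume : Measure E3) (poly F) + ∑ f ∈ G, volume (A f) =
          volume (poly F) + volume (⋃ f ∈ G, B f) := by
          rw [measure_biUnion_finset hdisj fun f _ => hBm f]
          congr 1
          exact Finset.sum_congr rfl fun f _ => (hBv f).symm
      _ = volume (poly F ∪ (⋃ f ∈ G, B f)) :=
          (measure_union hdisj2 (Finset.measurableSet_biUnion _ fun f _ => hBm f)).symm
      _ ≤ volume (poly F + L) := measure_mono hsub
  -- finiteness
  have hfP : (volume : Measure E3) (poly F) ≠ ⊤ := hP.measure_lt_top.ne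
  have hfPL : (volume : Measure E3) (poly F + L) ≠ ⊤ := hPL.measure_lt_top.ne
  have hfe : (volume : Measure E3) (ero (poly F) L) ≠ ⊤ := by
    refine ((measure_mono ?_).trans_lt hP.measure_lt_top).ne
    intro x hx
    have := hx 0 h0
    rwa [add_zero] at this
  have hfin : (volume : Measure E3) (poly F) + volume (poly F) ≤
      volume (ero (poly F) L) + volume (poly F + L) := by
    calc (volume : Measure E3) (poly F) + volume (poly F) ≤
          (volume (ero (poly F) L) + ∑ f ∈ G, volume (A f)) + volume (poly F) := by gcongr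
      _ = volume (ero (poly F) L) + (volume (poly F) + ∑ f ∈ G, volume (A f)) := by ring
      _ ≤ _ := by gcongr
  have h6 := ENNReal.toReal_mono (ENNReal.add_ne_top.2 ⟨hfe, hfPL⟩) hfin
  rw [ENNReal.toReal_add hfP hfP, ENNReal.toReal_add hfe hfPL] at h6
  unfold vol
  linarith

end Pool.Agent.H619.SB.SHPN

namespace Pool.Agent.H619.SB

open SHPN in
theorem shp : S_SHP := by
  classical
  intro F L hF hb
  obtain ⟨y0, hy0⟩ := L.nonempty
  have hy : ∀ f : (E3 →L[ℝ] ℝ) × ℝ, ∃ y : E3, f ∈ F → y ∈ L ∧ f.1 y = 1 := by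
    intro f
    by_cases hf : f ∈ F
    · obtain ⟨y, hyL, hy1⟩ := (hF f hf).1
      exact ⟨y, fun _ => ⟨hyL, hy1⟩⟩
    · exact ⟨0, fun h => absurd h hf⟩
  choose yf hyf using hy
  set L' : Set E3 := {y | y + y0 ∈ L} with hL'
  have hcL : Bornology.IsBounded (L : Set E3) := L.isCompact.isBounded
  have hPL : Bornology.IsBounded (poly F + (L : Set E3)) := hb.add hcL
  have e1 : poly F + L' = (fun x => x + y0) ⁻¹' (poly F + (L : Set E3)) := by
    ext x
    rw [mem_preimage]
    constructor
    · rintro ⟨p, hp, l, hl, rfl⟩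
      exact ⟨p, hp, l + y0, hl, (add_assoc _ _ _).symm⟩
    · rintro ⟨p, hp, l, hl, hpl⟩
      refine ⟨p, hp, l - y0, ?_, ?_⟩
      · show l - y0 + y0 ∈ L
        rw [sub_add_cancel]
        exact hl
      · have hpl' : p + l = x + y0 := hpl
        show p + (l - y0) = x
        rw [← add_sub_assoc, hpl', add_sub_cancel_right]
  have e2 : ero (poly F) (L : Set E3) = (fun x => x + y0) ⁻¹' (ero (poly F) L') := by
    ext x
    rw [mem_preimage]
    constructor
    · intro hx y hy
      have h1 := hx (y + y0) hy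
      rw [show x + y0 + y = x + (y + y0) by abel]
      exact h1
    · intro hx y hy
      have h1 := hx (y - y0) (by
        show y - y0 + y0 ∈ L
        rw [sub_add_cancel]
        exact hy)
      rwa [show x + y0 + (y - y0) = x + y by abel] at h1
  have v1 : vol (poly F + L') = vol (poly F + (L : Set E3)) := by
    unfold vol
    rw [e1, measure_preimage_add_right]
  have v2 : vol (ero (poly F) (L : Set E3)) = vol (ero (poly F) L') := by
    unfold vol
    rw [e2, measure_preimage_add_right]
  have hPL' : Bornology.IsBounded (poly F + L') := by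
    have h1 : poly F + L' ⊆ (fun x => x + (-y0)) '' (poly F + (L : Set E3)) := by
      intro x hx
      rw [e1] at hx
      exact ⟨x + y0, hx, add_neg_cancel_right _ _⟩
    refine Bornology.IsBounded.subset ?_ h1
    have h2 : (fun x => x + (-y0)) '' (poly F + (L : Set E3)) =
        (poly F + (L : Set E3)) + {-y0} := by
      rw [Set.add_singleton]
    rw [h2]
    exact hPL.add Bornology.isBounded_singleton
  rw [v2, ← v1]
  refine core F L' (fun f => 1 - f.1 y0) (fun f => yf f - y0) ?_ ?_ ?_ ?_ ?_ hb hPL'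
  · show (0 : E3) + y0 ∈ L
    rw [zero_add]
    exact hy0
  · intro f hf
    show yf f - y0 + y0 ∈ L
    rw [sub_add_cancel]
    exact (hyf f hf).1
  · intro f hf
    show f.1 (yf f - y0) = 1 - f.1 y0
    rw [map_sub, (hyf f hf).2]
  · intro f hf y hy
    have h1 := (hF f hf).2 (y + y0) hy
    rw [map_add] at h1
    show f.1 y ≤ 1 - f.1 y0
    linarith
  · intro f hf g hg hfg hmf hmg
    by_cases hφ : (1 - g.1 y0) • f.1 - (1 - f.1 y0) • g.1 = 0
    · -- the two functionals agree
      have h1 : ∀ x, (1 - g.1 y0) * f.1 x = (1 - f.1 y0) * g.1 x := by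
        intro x
        have := congrArg (fun ψ : E3 →L[ℝ] ℝ => ψ x) hφ
        simp only [ContinuousLinearMap.sub_apply, ContinuousLinearMap.smul_apply, smul_eq_mul,
          ContinuousLinearMap.zero_apply] at this
        linarith
      have h2 : 1 - g.1 y0 ≤ 1 - f.1 y0 := by
        have h3 := h1 (yf f)
        rw [(hyf f hf).2, mul_one] at h3
        have h4 := mul_le_mul_of_nonneg_left ((hF g hg).2 (yf f) (hyf f hf).1) hmf.le
        linarith
      have h3 : 1 - f.1 y0 ≤ 1 - g.1 y0 := by
        have h3 := h1 (yf g)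
        rw [(hyf g hg).2, mul_one] at h3
        have h4 := mul_le_mul_of_nonneg_left ((hF f hf).2 (yf g) (hyf g hg).1) hmg.le
        linarith
      have h4 : 1 - f.1 y0 = 1 - g.1 y0 := le_antisymm h3 h2
      have h5 : f.1 = g.1 := by
        ext1 x
        have h6 := h1 x
        rw [h4] at h6
        exact mul_left_cancel₀ hmg.ne' h6
      have h6 : f.2 ≠ g.2 := fun h => hfg (Prod.ext h5 h)
      have h7 : {x : E3 | (1 - g.1 y0) * sf f x = (1 - f.1 y0) * sf g x} = ∅ := by
        ext x
        simp only [mem_setOf_eq, mem_empty_iff_false, iff_false]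
        intro h8
        rw [h4] at h8
        have h9 := mul_left_cancel₀ hmg.ne' h8
        unfold sf at h9
        rw [h5] at h9
        apply h6
        linarith
      rw [h7, measure_empty]
    · have h1 : {x : E3 | (1 - g.1 y0) * sf f x = (1 - f.1 y0) * sf g x} =
          {x : E3 | ((1 - g.1 y0) • f.1 - (1 - f.1 y0) • g.1) x =
            (1 - g.1 y0) * f.2 - (1 - f.1 y0) * g.2} := by
        ext x
        simp only [mem_setOf_eq, ContinuousLinearMap.sub_apply, ContinuousLinearMap.smul_apply,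
          smul_eq_mul]
        unfold sf
        constructor <;> intro h <;> linarith
      rw [h1]
      exact null_plane _ hφ _

end Pool.Agent.H619.SB

end
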