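import Pool.Agent.H619.SB.St

set_option autoImplicit false

open MeasureTheory Set Module
open scoped Pointwise NNReal ENNReal

noncomputable section

namespace Pool.Agent.H619.SB

namespace SIM

theorem aff_comb {W : Type} [AddCommGroup W] [Module ℝ W] (f : E3 →ᵃ[ℝ] W) (c : Fin 4 → ℝ)
    (hc : ∑ j, c j = 1) (x : Fin 4 → E3) : f (∑ j, c j • x j) = ∑ j, c j • f (x j) := by
  have h1 : ∀ y, f y = f.linear y + f 0 := fun y => by
    have := congrFun (AffineMap.decomp f) y
    simpa using this
  rw [h1, map_sum]
  have h2 : ∑ j, c j • f (x j) = ∑ j, c j • f.linear (x j) + (∑ j, c j) • f 0 := by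
    rw [Finset.sum_smul, ← Finset.sum_add_distrib]
    refine Finset.sum_congr rfl fun j _ => ?_
    rw [h1 (x j), smul_add]
  rw [h2, hc, one_smul]
  congr 1
  refine Finset.sum_congr rfl fun j _ => ?_
  rw [map_smul]

theorem lin_comb {W : Type} [AddCommGroup W] [Module ℝ W] (f : E3 →ᵃ[ℝ] W) (c : Fin 4 → ℝ)
    (hc : ∑ j, c j = 0) (x : Fin 4 → E3) : f.linear (∑ j, c j • x j) = ∑ j, c j • f (x j) := by
  have h1 : ∀ y, f y = f.linear y + f 0 := fun y => by
    have := congrFun (AffineMap.decomp f) y
    simpa using this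
  rw [map_sum]
  have h2 : ∑ j, c j • f (x j) = ∑ j, c j • f.linear (x j) + (∑ j, c j) • f 0 := by
    rw [Finset.sum_smul, ← Finset.sum_add_distrib]
    refine Finset.sum_congr rfl fun j _ => ?_
    rw [h1 (x j), smul_add]
  rw [h2, hc, zero_smul, add_zero]
  refine Finset.sum_congr rfl fun j _ => ?_
  rw [map_smul]

theorem det4 (B : Matrix (Fin 4) (Fin 4) ℝ) (h : ∀ i, ∑ j, B i j = 1) :
    B.det = (Matrix.of fun i j : Fin 3 => B j.succ i.succ - B 0 i.succ).det := by
  have h0 : ∀ i, B i 0 = 1 - B i 1 - B i 2 - B i 3 := fun i => by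
    have := h i
    rw [Fin.sum_univ_four] at this
    linarith
  rw [Matrix.det_succ_row_zero, Matrix.det_fin_three]
  simp only [Fin.sum_univ_four, Matrix.det_fin_three, Matrix.submatrix_apply, Matrix.of_apply]
  simp [Fin.succAbove, h0]
  ring

end SIM

open SIM in
theorem sim (d : S_DET) : S_SIM := by
  intro b v hb hv hs
  set B : Matrix (Fin 4) (Fin 4) ℝ := fun i j => b (v i) j with hB
  have hdet : ∑ i, B i i - 3 ≤ B.det := d B hv (fun i => hb (v i)) hs.le
  have hdpos : 0 < B.det := by
    have : 3 < ∑ i, B i i := hs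
    linarith
  have hunit : IsUnit B.det := hdpos.ne'.isUnit
  have hrow : B.mulVec 1 = 1 := by
    funext i
    rw [Matrix.mulVec, dotProduct]
    simp only [Pi.one_apply, mul_one]
    exact hb (v i)
  have hCrow : ∀ i, ∑ j, B⁻¹ i j = 1 := by
    intro i
    have h1 : B⁻¹.mulVec 1 = 1 := by
      conv_lhs => rw [← hrow]
      rw [Matrix.mulVec_mulVec, Matrix.nonsing_inv_mul _ hunit, Matrix.one_mulVec]
    have h2 := congrFun h1 i
    rw [Matrix.mulVec, dotProduct] at h2
    simpa using h2
  set p : Fin 4 → E3 := fun i => ∑ j, B⁻¹ i j • v j with hp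
  have hbp : ∀ i, b (p i) = Pi.single i 1 := by
    intro i
    have h1 : b (p i) = ∑ j, B⁻¹ i j • b (v j) := aff_comb b _ (hCrow i) v
    rw [h1]
    funext l
    rw [Finset.sum_apply]
    have h2 : ∑ j, (B⁻¹ i j • b (v j)) l = (B⁻¹ * B) i l := by
      rw [Matrix.mul_apply]
      rfl
    rw [h2, Matrix.nonsing_inv_mul _ hunit, Matrix.one_apply, Pi.single_apply]
    simp only [eq_comm]
  have hcomb : ∀ c : Fin 4 → ℝ, ∑ j, c j • b (p j) = c := by
    intro c
    funext l
    rw [Finset.sum_apply]
    simp only [hbp, Pi.smul_apply, Pi.single_apply, smul_eq_mul, mul_ite, mul_one, mul_zero]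
    simp
  have hpi : AffineIndependent ℝ p := by
    rw [affineIndependent_iff_of_fintype]
    intro w hw h
    rw [Finset.weightedVSub_eq_linear_combination _ hw] at h
    have h1 := lin_comb b w hw p
    rw [h, map_zero, hcomb] at h1
    intro i
    rw [← h1]
    rfl
  have htop : affineSpan ℝ (range p) = ⊤ := by
    rw [hpi.affineSpan_eq_top_iff_card_eq_finrank_add_one]
    simp
  let P : AffineBasis (Fin 4) ℝ E3 := ⟨p, hpi, htop⟩
  have hPp : ∀ i, P i = p i := fun i => rfl
  have hcoord : ∀ x, (fun i => P.coord i x) = b x := by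
    intro x
    have h1 := P.linear_combination_coord_eq_self x
    have h2 := aff_comb b (fun i => P.coord i x) (P.sum_coord_apply_eq_one x) p
    rw [hcomb] at h2
    rw [← h2]
    congr 1
  have hx : ∀ x, ∑ i, b x i • p i = x := by
    intro x
    have h1 := P.linear_combination_coord_eq_self x
    rw [← hcoord x]
    exact h1
  have hull : {x : E3 | ∀ i, 0 ≤ b x i} = convexHull ℝ (range p) := by
    have h1 := P.convexHull_eq_nonneg_coord
    have h2 : range P = range p := rfl
    rw [h2] at h1
    rw [h1]
    ext x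
    simp only [Set.mem_ofPred_eq]
    refine forall_congr' fun i => ?_
    rw [← hcoord x]
  have hvi : AffineIndependent ℝ v := by
    rw [affineIndependent_iff_of_fintype]
    intro w hw h
    rw [Finset.weightedVSub_eq_linear_combination _ hw] at h
    have h1 := lin_comb b w hw v
    rw [h, map_zero] at h1
    have h2 : Matrix.vecMul w B = 0 := by
      funext l
      have h3 := congrFun h1 l
      rw [Finset.sum_apply] at h3
      rw [Matrix.vecMul, dotProduct]
      exact h3.symm
    have h3 : w = 0 := by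
      have h4 : Matrix.vecMul (Matrix.vecMul w B) B⁻¹ = w := by
        rw [Matrix.vecMul_vecMul, Matrix.mul_nonsing_inv _ hunit, Matrix.vecMul_one]
      rw [← h4, h2, Matrix.zero_vecMul]
    intro i
    rw [h3]
    rfl
  refine ⟨p, hpi, hull, hvi, ?_⟩
  -- the affine map with `g (p i) = v i`
  set g : E3 →ᵃ[ℝ] E3 := ((Fintype.linearCombination ℝ v).toAffineMap).comp b with hg
  have hgx : ∀ x, g x = ∑ i, b x i • v i := by
    intro x
    rw [hg, AffineMap.comp_apply, LinearMap.coe_toAffineMap, Fintype.linearCombination_apply]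
  have hgp : ∀ i, g (p i) = v i := by
    intro i
    rw [hgx, hbp]
    simp [Pi.single_apply]
  have himg : g '' convexHull ℝ (range p) = convexHull ℝ (range v) := by
    rw [AffineMap.image_convexHull, ← range_comp]
    congr 2
    funext i
    exact hgp i
  -- the determinant
  let u : Fin 3 → E3 := fun i => p i.succ - p 0
  have hu : LinearIndependent ℝ u := by
    rw [Fintype.linearIndependent_iff]
    intro c hc i
    have h1 : ∀ j, b.linear (u j) = (Pi.single j.succ 1 : Fin 4 → ℝ) - Pi.single 0 1 := by
      intro j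
      have h2 := b.linearMap_vsub (p j.succ) (p 0)
      rw [vsub_eq_sub, vsub_eq_sub, hbp, hbp] at h2
      exact h2
    have h2 : b.linear (∑ j, c j • u j) = 0 := by rw [hc, map_zero]
    rw [map_sum] at h2
    have h3 := congrFun h2 i.succ
    rw [Finset.sum_apply] at h3
    simp only [map_smul, h1, Pi.smul_apply, Pi.sub_apply, Pi.single_apply, Fin.succ_inj,
      Fin.succ_ne_zero, smul_eq_mul, if_false, sub_zero, mul_ite, mul_one, mul_zero,
      Finset.sum_ite_eq, Finset.mem_univ, if_true, Pi.zero_apply] at h3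
    exact h3
  let bu : Basis (Fin 3) ℝ E3 := basisOfLinearIndependentOfCardEqFinrank hu (by simp)
  have hbu : ∀ i, bu i = u i := fun i => by simp [bu]
  set M : Matrix (Fin 3) (Fin 3) ℝ := Matrix.of fun i j => B j.succ i.succ - B 0 i.succ with hM
  have hlin : g.linear = Matrix.toLin bu bu M := by
    refine bu.ext fun j => ?_
    rw [Matrix.toLin_self]
    have h1 : g.linear (bu j) = v j.succ - v 0 := by
      rw [hbu]
      have h2 := g.linearMap_vsub (p j.succ) (p 0)
      rw [vsub_eq_sub, vsub_eq_sub, hgp, hgp] at h2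
      exact h2
    rw [h1, ← hx (v j.succ), ← hx (v 0), Fin.sum_univ_succ, Fin.sum_univ_succ (n := 3)]
    have h2 : B j.succ 0 = 1 - ∑ i : Fin 3, B j.succ i.succ := by
      have := hb (v j.succ)
      rw [Fin.sum_univ_succ] at this
      show b (v j.succ) 0 = 1 - ∑ i : Fin 3, b (v j.succ) i.succ
      linarith
    have h3 : B 0 0 = 1 - ∑ i : Fin 3, B 0 i.succ := by
      have := hb (v 0)
      rw [Fin.sum_univ_succ] at this
      show b (v 0) 0 = 1 - ∑ i : Fin 3, b (v 0) i.succ
      linarith
    have h4 : ∀ i : Fin 3, M i j • bu i = B j.succ i.succ • p i.succ - B 0 i.succ • p i.succ -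
        (B j.succ i.succ • p 0 - B 0 i.succ • p 0) := by
      intro i
      rw [hbu, hM, Matrix.of_apply]
      show (B j.succ i.succ - B 0 i.succ) • (p i.succ - p 0) = _
      rw [sub_smul, smul_sub, smul_sub]
      abel
    simp only [h4]
    rw [Finset.sum_sub_distrib, Finset.sum_sub_distrib, Finset.sum_sub_distrib, ← Finset.sum_smul,
      ← Finset.sum_smul]
    show B j.succ 0 • p 0 + ∑ i : Fin 3, B j.succ i.succ • p i.succ -
      (B 0 0 • p 0 + ∑ i : Fin 3, B 0 i.succ • p i.succ) = _
    rw [h2, h3, sub_smul, sub_smul]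
    abel
  have hdetg : LinearMap.det g.linear = B.det := by
    rw [hlin, LinearMap.det_toLin, det4 B (fun i => hb (v i))]
  have hvol : vol (convexHull ℝ (range v)) = |B.det| * vol (convexHull ℝ (range p)) := by
    unfold vol
    rw [← himg]
    have h1 : g '' convexHull ℝ (range p) =
        (fun y => y + g 0) '' (g.linear '' convexHull ℝ (range p)) := by
      rw [image_image]
      congr 1
      funext y
      have := congrFun (AffineMap.decomp g) y
      simpa using this
    rw [h1, image_add_right, measure_preimage_add_right, Measure.addHaar_image_linearMap, hdetg,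
      ENNReal.toReal_mul, ENNReal.toReal_ofReal (abs_nonneg _)]
  rw [hvol]
  exact mul_le_mul_of_nonneg_right (hdet.trans (le_abs_self _)) (vol_nonneg _)

end Pool.Agent.H619.SB

end
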