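import Pool.Agent.H619.SB.St

/-!
# TOP: a symmetric part of a simplex has at most half of its volume
-/

set_option autoImplicit false

open MeasureTheory Set Module
open scoped Pointwise NNReal ENNReal

noncomputable section

namespace Pool.Agent.H619.SB

namespace TOP

theorem body_of {S : Set E3} (hS : Convex ℝ S) (hc : IsCompact S) (c : E3)
    (hne : (sy c S).Nonempty) : ∃ A : ConvexBody E3, (A : Set E3) = sy c S := by
  have h1 : sy c S = S ∩ (fun x => c - x) ⁻¹' S := rfl
  refine ⟨⟨sy c S, ?_, ?_, hne⟩, rfl⟩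
  · intro x hx y hy a b ha hb hab
    refine ⟨hS hx.1 hy.1 ha hb hab, ?_⟩
    have h2 := hS hx.2 hy.2 ha hb hab
    have h3 : a • (c - x) + b • (c - y) = c - (a • x + b • y) := by
      have h4 : c = (a + b) • c := by rw [hab, one_smul]
      conv_rhs => rw [h4]
      module
    rw [h3] at h2
    exact h2
  · rw [h1]
    exact hc.inter_right (hc.isClosed.preimage (by fun_prop))

theorem vol_smul2 (X : Set E3) : vol ((2 : ℝ) • X) = 8 * vol X := by
  unfold vol
  rw [Measure.addHaar_smul, h3, ENNReal.toReal_mul, ENNReal.toReal_ofReal (by positivity)]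
  norm_num

theorem vol_ne_top {S : Set E3} (hc : IsCompact S) (c : E3) : volume (sy c S) ≠ ⊤ :=
  ((measure_mono fun _ hx => hx.1).trans_lt hc.measure_lt_top).ne

theorem mid {S : Set E3} (hS : Convex ℝ S) (hc : IsCompact S) (c c' : E3)
    (h : vol (sy c S) ≤ vol (sy c' S)) :
    vol (sy c S) ≤ vol (sy ((1 / 2 : ℝ) • (c + c')) S) := by
  rcases (sy c S).eq_empty_or_nonempty with h1 | h1
  · rw [h1]
    unfold vol
    rw [measure_empty]
    exact ENNReal.toReal_nonneg
  rcases (sy c' S).eq_empty_or_nonempty with h2 | h2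
  · rw [h2] at h
    refine h.trans ?_
    unfold vol
    rw [measure_empty]
    exact ENNReal.toReal_nonneg
  obtain ⟨A, hA⟩ := body_of hS hc c h1
  obtain ⟨B, hB⟩ := body_of hS hc c' h2
  set m : ℝ := (vol (sy c S)) ^ ((1 : ℝ) / 3) with hm
  have hm0 : 0 ≤ m := Real.rpow_nonneg (vol_nonneg _) _
  have hm3 : m ^ 3 = vol (sy c S) := by
    rw [hm, ← Real.rpow_natCast, ← Real.rpow_mul (vol_nonneg _)]
    norm_num
  have hbm := bm A B hm0 hm0 (by rw [hA, hm3]) (by rw [hB, hm3]; exact h)
  have hsub : ((A + B : ConvexBody E3) : Set E3) ⊆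
      (2 : ℝ) • sy ((1 / 2 : ℝ) • (c + c')) S := by
    rw [ConvexBody.coe_add, hA, hB]
    rintro _ ⟨x, hx, y, hy, rfl⟩
    refine ⟨(1 / 2 : ℝ) • (x + y), ⟨?_, ?_⟩, ?_⟩
    · have h4 := hS hx.1 hy.1 (a := (1 / 2 : ℝ)) (b := (1 / 2 : ℝ)) (by norm_num) (by norm_num)
        (by norm_num)
      rw [← smul_add] at h4
      exact h4
    · have h4 := hS hx.2 hy.2 (a := (1 / 2 : ℝ)) (b := (1 / 2 : ℝ)) (by norm_num) (by norm_num)
        (by norm_num)
      have h5 : (1 / 2 : ℝ) • (c - x) + (1 / 2 : ℝ) • (c' - y) =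
          (1 / 2 : ℝ) • (c + c') - (1 / 2 : ℝ) • (x + y) := by module
      rw [h5] at h4
      exact h4
    · show (2 : ℝ) • (1 / 2 : ℝ) • (x + y) = x + y
      rw [smul_smul]
      norm_num
  have hfin : volume ((2 : ℝ) • sy ((1 / 2 : ℝ) • (c + c')) S) ≠ ⊤ := by
    rw [Measure.addHaar_smul]
    exact ENNReal.mul_ne_top ENNReal.ofReal_ne_top (vol_ne_top hc _)
  have h6 := hbm.trans (vol_mono hsub hfin)
  rw [vol_smul2] at h6
  have h7 : (m + m) ^ 3 = 8 * m ^ 3 := by ring
  rw [h7, hm3] at h6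
  linarith

variable (b : AffineBasis (Fin 4) ℝ E3)

/-- the linear part of the transposition -/
def L (i j : Fin 4) : E3 →ₗ[ℝ] E3 :=
  LinearMap.id - ((b.coord i).linear - (b.coord j).linear).smulRight (b i - b j)

/-- the transposition -/
def T (i j : Fin 4) (x : E3) : E3 := x - (b.coord i x - b.coord j x) • (b i - b j)

theorem coord_sub (k : Fin 4) (x y : E3) : (b.coord k).linear (x - y) = b.coord k x - b.coord k y := by
  have h := (b.coord k).linearMap_vsub x y
  rw [vsub_eq_sub, vsub_eq_sub] at h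
  exact h

theorem coord_T (i j k : Fin 4) (x : E3) (s : ℝ) :
    b.coord k (x - s • (b i - b j)) =
      b.coord k x - s * ((if k = i then 1 else 0) - (if k = j then 1 else 0)) := by
  have h1 : x - s • (b i - b j) = (-(s • (b i - b j))) +ᵥ x := by
    rw [vadd_eq_add]
    abel
  rw [h1, AffineMap.map_vadd, map_neg, map_smul, coord_sub, b.coord_apply, b.coord_apply,
    vadd_eq_add, smul_eq_mul]
  ring

theorem L_invol {i j : Fin 4} (hij : i ≠ j) : (L b i j).comp (L b i j) = LinearMap.id := by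
  ext1 x
  have h1 : (b.coord i).linear (b i - b j) = 1 := by
    rw [coord_sub, b.coord_apply, b.coord_apply, if_pos rfl, if_neg hij, sub_zero]
  have h2 : (b.coord j).linear (b i - b j) = -1 := by
    rw [coord_sub, b.coord_apply, b.coord_apply, if_pos rfl, if_neg hij.symm, zero_sub]
  unfold L
  obtain ⟨u, hu⟩ : ∃ u, u = b i - b j := ⟨_, rfl⟩
  rw [← hu] at h1 h2 ⊢
  simp only [LinearMap.comp_apply, LinearMap.sub_apply, LinearMap.id_apply,
    LinearMap.smulRight_apply, map_sub, map_smul, h1, h2, smul_eq_mul]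
  module

theorem det_L {i j : Fin 4} (hij : i ≠ j) : |LinearMap.det (L b i j)| = 1 := by
  have h1 := congrArg LinearMap.det (L_invol b hij)
  rw [LinearMap.det_comp, LinearMap.det_id] at h1
  have h2 : |LinearMap.det (L b i j)| * |LinearMap.det (L b i j)| = 1 := by
    rw [← abs_mul, h1, abs_one]
  nlinarith [abs_nonneg (LinearMap.det (L b i j))]

theorem T_eq (i j : Fin 4) (x : E3) : T b i j x = L b i j x + T b i j 0 := by
  have h : ∀ k : Fin 4, b.coord k x = (b.coord k).linear x + b.coord k 0 := by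
    intro k
    have := coord_sub b k x 0
    rw [sub_zero] at this
    linarith
  unfold T L
  simp only [LinearMap.sub_apply, LinearMap.id_apply, LinearMap.smulRight_apply]
  rw [h i, h j]
  module

theorem vol_T {i j : Fin 4} (hij : i ≠ j) (A : Set E3) : vol (T b i j '' A) = vol A := by
  have h1 : T b i j '' A = (fun y => y + T b i j 0) '' (L b i j '' A) := by
    rw [image_image]
    exact image_congr fun x _ => T_eq b i j x
  unfold vol
  rw [h1, image_add_right, measure_preimage_add_right, Measure.addHaar_image_linearMap, det_L b hij,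
    ENNReal.ofReal_one, one_mul]

theorem step {i j : Fin 4} (hij : i ≠ j) (c : E3) :
    vol (sy ((2 : ℝ) • c) (convexHull ℝ (range b))) ≤
      vol (sy ((2 : ℝ) • (c - ((b.coord i c - b.coord j c) / 2) • (b i - b j)))
        (convexHull ℝ (range b))) := by
  have hcomp : IsCompact (convexHull ℝ (range b)) := (finite_range b).isCompact_convexHull ℝ
  have hconv : Convex ℝ (convexHull ℝ (range b)) := convex_convexHull ℝ _
  have hTmem : ∀ x ∈ convexHull ℝ (range b), T b i j x ∈ convexHull ℝ (range b) := by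
    intro x hx
    rw [b.convexHull_eq_nonneg_coord] at hx ⊢
    intro k
    unfold T
    rw [coord_T]
    by_cases hki : k = i
    · subst hki
      rw [if_pos rfl, if_neg hij]
      have := hx j
      linarith
    · by_cases hkj : k = j
      · subst hkj
        rw [if_pos rfl, if_neg hki]
        have := hx i
        linarith
      · rw [if_neg hki, if_neg hkj]
        have := hx k
        linarith
  have h1 : T b i j '' (sy ((2 : ℝ) • c) (convexHull ℝ (range b))) ⊆
      sy ((2 : ℝ) • T b i j c) (convexHull ℝ (range b)) := by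
    rintro _ ⟨x, hx, rfl⟩
    refine ⟨hTmem x hx.1, ?_⟩
    have h2 := hTmem _ hx.2
    have h3 : T b i j ((2 : ℝ) • c - x) = (2 : ℝ) • T b i j c - T b i j x := by
      rw [T_eq b i j ((2 : ℝ) • c - x), T_eq b i j c, T_eq b i j x, map_sub, map_smul]
      module
    rw [h3] at h2
    exact h2
  have h2 := vol_mono h1 (vol_ne_top hcomp _)
  rw [vol_T b hij] at h2
  have h4 := mid hconv hcomp _ _ h2
  have h5 : (1 / 2 : ℝ) • ((2 : ℝ) • c + (2 : ℝ) • T b i j c) =
      (2 : ℝ) • (c - ((b.coord i c - b.coord j c) / 2) • (b i - b j)) := by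
    unfold T
    module
  rw [h5] at h4
  exact h4

end TOP

/-- **TOP** -/
theorem top (slab : S_SLAB) : S_TOP := by
  intro p hp c
  have htop : affineSpan ℝ (range p) = ⊤ := by
    rw [hp.affineSpan_eq_top_iff_card_eq_finrank_add_one]
    simp
  set b : AffineBasis (Fin 4) ℝ E3 := ⟨p, hp, htop⟩ with hb
  have hbp : (b : Fin 4 → E3) = p := rfl
  have hS := (slab p hp).2.1
  rw [← hbp] at hS ⊢
  set c₀ : E3 := (1 / 2 : ℝ) • c with hc₀
  have hc : c = (2 : ℝ) • c₀ := by
    rw [hc₀, smul_smul]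
    norm_num
  set c₁ : E3 := c₀ - ((b.coord 0 c₀ - b.coord 1 c₀) / 2) • (b 0 - b 1) with hc₁
  set c₂ : E3 := c₁ - ((b.coord 2 c₁ - b.coord 3 c₁) / 2) • (b 2 - b 3) with hc₂
  set c₃ : E3 := c₂ - ((b.coord 0 c₂ - b.coord 2 c₂) / 2) • (b 0 - b 2) with hc₃
  set c₄ : E3 := c₃ - ((b.coord 1 c₃ - b.coord 3 c₃) / 2) • (b 1 - b 3) with hc₄
  have s1 := TOP.step b (i := 0) (j := 1) (by decide) c₀
  have s2 := TOP.step b (i := 2) (j := 3) (by decide) c₁
  have s3 := TOP.step b (i := 0) (j := 2) (by decide) c₂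
  have s4 := TOP.step b (i := 1) (j := 3) (by decide) c₃
  rw [← hc₁] at s1
  rw [← hc₂] at s2
  rw [← hc₃] at s3
  rw [← hc₄] at s4
  have hsum : b.coord 0 c₀ + b.coord 1 c₀ + b.coord 2 c₀ + b.coord 3 c₀ = 1 := by
    have := b.sum_coord_apply_eq_one c₀
    rw [Fin.sum_univ_four] at this
    exact this
  -- coordinates
  have a1 : ∀ k, b.coord k c₁ = b.coord k c₀ - (b.coord 0 c₀ - b.coord 1 c₀) / 2 *
      ((if k = 0 then 1 else 0) - (if k = 1 then 1 else 0)) := fun k => TOP.coord_T b 0 1 k c₀ _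
  have a2 : ∀ k, b.coord k c₂ = b.coord k c₁ - (b.coord 2 c₁ - b.coord 3 c₁) / 2 *
      ((if k = 2 then 1 else 0) - (if k = 3 then 1 else 0)) := fun k => TOP.coord_T b 2 3 k c₁ _
  have a3 : ∀ k, b.coord k c₃ = b.coord k c₂ - (b.coord 0 c₂ - b.coord 2 c₂) / 2 *
      ((if k = 0 then 1 else 0) - (if k = 2 then 1 else 0)) := fun k => TOP.coord_T b 0 2 k c₂ _
  have a4 : ∀ k, b.coord k c₄ = b.coord k c₃ - (b.coord 1 c₃ - b.coord 3 c₃) / 2 *
      ((if k = 1 then 1 else 0) - (if k = 3 then 1 else 0)) := fun k => TOP.coord_T b 1 3 k c₃ _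
  have hq : ∀ k, b.coord k c₄ = 1 / 4 := by
    have p10 := a1 0
    have p11 := a1 1
    have p12 := a1 2
    have p13 := a1 3
    have p20 := a2 0
    have p21 := a2 1
    have p22 := a2 2
    have p23 := a2 3
    have p30 := a3 0
    have p31 := a3 1
    have p32 := a3 2
    have p33 := a3 3
    simp at p10 p11 p12 p13 p20 p21 p22 p23 p30 p31 p32 p33
    intro k
    fin_cases k
    · have := a4 0
      simp at this
      show b.coord 0 c₄ = 1 / 4
      linarith
    · have := a4 1
      simp at this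
      show b.coord 1 c₄ = 1 / 4
      linarith
    · have := a4 2
      simp at this
      show b.coord 2 c₄ = 1 / 4
      linarith
    · have := a4 3
      simp at this
      show b.coord 3 c₄ = 1 / 4
      linarith
  have hsub : sy ((2 : ℝ) • c₄) (convexHull ℝ (range b)) ⊆ SB.slab b 0 (1 / 2) := by
    intro x hx
    have hx1 := hx.1
    have hx2 := hx.2
    rw [b.convexHull_eq_nonneg_coord] at hx1 hx2
    refine ⟨fun i => b.coord i x, b.sum_coord_apply_eq_one x, fun i => ⟨hx1 i, ?_⟩,
      (b.linear_combination_coord_eq_self x).symm⟩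
    have h1 := hx2 i
    have h2 : b.coord i ((2 : ℝ) • c₄ - x) = 2 * b.coord i c₄ - b.coord i x := by
      have e : (2 : ℝ) • c₄ - x = (c₄ - x) +ᵥ c₄ := by
        rw [vadd_eq_add, two_smul]
        abel
      rw [e, AffineMap.map_vadd, TOP.coord_sub, vadd_eq_add]
      ring
    rw [h2, hq i] at h1
    linarith
  have hfin : volume (SB.slab b 0 (1 / 2)) ≠ ⊤ := by
    have hcomp : IsCompact (convexHull ℝ (range b)) := (finite_range b).isCompact_convexHull ℝ
    refine ((measure_mono ?_).trans_lt hcomp.measure_lt_top).ne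
    rintro x ⟨β, hβ, hβ2, rfl⟩
    exact (convex_convexHull ℝ (range b)).sum_mem (fun i _ => (hβ2 i).1) hβ fun i _ =>
      subset_convexHull ℝ _ ⟨i, rfl⟩
  have hlast := vol_mono hsub hfin
  rw [hc]
  linarith

end Pool.Agent.H619.SB

end
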