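import Pool.Agent.H590.M3.MV3

/-!
# Project SB (MP_0069fb_gt): basic notions and the mixed volumes of three bodies in `ℝ³`
-/

set_option autoImplicit false
set_option linter.unusedSectionVars false

open MeasureTheory Set Module Multiset
open scoped Pointwise NNReal ENNReal

noncomputable section

namespace Pool.Agent.H619.SB

/-- three-dimensional space -/
abbrev E3 : Type := EuclideanSpace ℝ (Fin 3)

/-- the volume as a real number -/
def vol (S : Set E3) : ℝ := (volume S).toReal

/-- the reflected body `-K` -/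
def ng (K : ConvexBody E3) : ConvexBody E3 :=
  ⟨-(K : Set E3), K.convex.neg, K.isCompact.neg, K.nonempty.neg⟩

/-- the translate `K + x` -/
def tr (x : E3) (K : ConvexBody E3) : ConvexBody E3 := K + Pool.Agent.TH650.MV.sing x

/-- the mixed volume `V(A, B, C)` -/
def TV (A B C : ConvexBody E3) : ℝ := Pool.Agent.H590.M3.T (volume : Measure E3) A B C

/-- the part of `S` which is symmetric about the point `c / 2` -/
def sy (c : E3) (S : Set E3) : Set E3 := {x | x ∈ S ∧ c - x ∈ S}

/-- Minkowski difference (erosion) `K ~ L = {x : x + L ⊆ K}` -/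
def ero (K L : Set E3) : Set E3 := {x | ∀ y ∈ L, x + y ∈ K}

/-- symmetric about the origin -/
def Sym (Z : Set E3) : Prop := ∀ z ∈ Z, -z ∈ Z

/-- nonempty interior -/
def Fat (K : Set E3) : Prop := (interior K).Nonempty

theorem h3 : finrank ℝ E3 = 3 := by simp

theorem coe_ng (K : ConvexBody E3) : ((ng K : ConvexBody E3) : Set E3) = -(K : Set E3) := rfl

theorem mem_ng {K : ConvexBody E3} {x : E3} : x ∈ ng K ↔ -x ∈ K := Iff.rfl

theorem mem_tr {x : E3} {K : ConvexBody E3} {y : E3} : y ∈ tr x K ↔ y - x ∈ K := by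
  unfold tr
  rw [← SetLike.mem_coe, ConvexBody.coe_add, Set.mem_add]
  constructor
  · rintro ⟨a, ha, b, hb, rfl⟩
    have : b = x := hb
    subst this
    simpa using ha
  · intro h
    exact ⟨y - x, h, x, rfl, by simp⟩

theorem ng_ng (K : ConvexBody E3) : ng (ng K) = K := by
  apply SetLike.coe_injective
  rw [coe_ng, coe_ng, neg_neg]

theorem ng_add (K L : ConvexBody E3) : ng (K + L) = ng K + ng L := by
  apply SetLike.coe_injective
  rw [coe_ng, ConvexBody.coe_add, ConvexBody.coe_add, coe_ng, coe_ng, neg_add]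

theorem ng_eq_of_sym {Z : ConvexBody E3} (h : Sym (Z : Set E3)) : ng Z = Z := by
  apply SetLike.coe_injective
  rw [coe_ng]
  ext x
  rw [Set.mem_neg]
  constructor
  · intro hx
    simpa using h _ hx
  · intro hx
    exact h _ hx

theorem vol_coe (K : ConvexBody E3) : vol (K : Set E3) = Pool.Agent.TH650.MV.vl volume K := rfl

theorem vol_ng (K : ConvexBody E3) : vol (ng K : Set E3) = vol (K : Set E3) := by
  unfold vol
  rw [coe_ng, Measure.measure_neg]

theorem vol_nonneg (S : Set E3) : 0 ≤ vol S := ENNReal.toReal_nonneg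

theorem vol_pos {K : ConvexBody E3} (h : Fat (K : Set E3)) : 0 < vol (K : Set E3) := by
  unfold vol
  exact ENNReal.toReal_pos (Measure.measure_pos_of_nonempty_interior _ h).ne'
    K.isCompact.measure_lt_top.ne

theorem vol_mono {S T : Set E3} (h : S ⊆ T) (hT : volume T ≠ ⊤) : vol S ≤ vol T :=
  ENNReal.toReal_mono hT (measure_mono h)

/-! ### the mixed volume -/

theorem TV_12 (A B C : ConvexBody E3) : TV A B C = TV B A C := Pool.Agent.H590.M3.T_swap12 A B C

theorem TV_23 (A B C : ConvexBody E3) : TV A B C = TV A C B := Pool.Agent.H590.M3.T_swap23 A B C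

theorem TV_13 (A B C : ConvexBody E3) : TV A B C = TV C B A := by
  rw [TV_12, TV_23, TV_12]

theorem TV_add1 (A A' B C : ConvexBody E3) : TV (A + A') B C = TV A B C + TV A' B C :=
  Pool.Agent.H590.M3.T_add h3 A A' B C

theorem TV_add2 (A B B' C : ConvexBody E3) : TV A (B + B') C = TV A B C + TV A B' C :=
  Pool.Agent.H590.M3.T_add2 h3 A B B' C

theorem TV_add3 (A B C C' : ConvexBody E3) : TV A B (C + C') = TV A B C + TV A B C' :=
  Pool.Agent.H590.M3.T_add3 h3 A B C C'

theorem TV_smul1 (c : ℝ≥0) (A B C : ConvexBody E3) : TV (c • A) B C = c * TV A B C :=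
  Pool.Agent.H590.M3.T_smul h3 c A B C

theorem TV_smul2 (c : ℝ≥0) (A B C : ConvexBody E3) : TV A (c • B) C = c * TV A B C :=
  Pool.Agent.H590.M3.T_smul2 h3 c A B C

theorem TV_smul3 (c : ℝ≥0) (A B C : ConvexBody E3) : TV A B (c • C) = c * TV A B C :=
  Pool.Agent.H590.M3.T_smul3 h3 c A B C

theorem TV_nonneg (A B C : ConvexBody E3) : 0 ≤ TV A B C := Pool.Agent.H590.M3.T_nonneg h3 A B C

theorem TV_mono1 {A A' : ConvexBody E3} (h : (A : Set E3) ⊆ A') (B C : ConvexBody E3) :
    TV A B C ≤ TV A' B C := Pool.Agent.H590.M3.T_mono h3 (SetLike.coe_subset_coe.1 h) B C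

theorem TV_mono2 {B B' : ConvexBody E3} (A : ConvexBody E3) (h : (B : Set E3) ⊆ B')
    (C : ConvexBody E3) : TV A B C ≤ TV A B' C := by
  rw [TV_12 A B C, TV_12 A B' C]
  exact TV_mono1 h A C

theorem TV_mono3 {C C' : ConvexBody E3} (A B : ConvexBody E3) (h : (C : Set E3) ⊆ C') :
    TV A B C ≤ TV A B C' := by
  rw [TV_23 A B C, TV_23 A B C']
  exact TV_mono2 A h B

theorem TV_self (A : ConvexBody E3) : TV A A A = vol (A : Set E3) :=
  Pool.Agent.H590.M3.T_self h3 A

theorem TV_sing (x : E3) (B C : ConvexBody E3) : TV (Pool.Agent.TH650.MV.sing x) B C = 0 :=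
  Pool.Agent.TH650.MV.V_sing volume x {B, C} (by rw [h3]; rfl)

theorem TV_tr1 (x : E3) (A B C : ConvexBody E3) : TV (tr x A) B C = TV A B C := by
  unfold tr
  rw [TV_add1, TV_sing, add_zero]

theorem TV_tr2 (x : E3) (A B C : ConvexBody E3) : TV A (tr x B) C = TV A B C := by
  rw [TV_12, TV_tr1, TV_12]

theorem TV_tr3 (x : E3) (A B C : ConvexBody E3) : TV A B (tr x C) = TV A B C := by
  rw [TV_23, TV_tr2, TV_23]

theorem powerset_map' {α β : Type} (f : α → β) (s : Multiset α) :
    (s.map f).powerset = s.powerset.map (Multiset.map f) := by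
  induction s using Multiset.induction_on with
  | empty => simp
  | cons a s ih =>
    rw [Multiset.map_cons, Multiset.powerset_cons, Multiset.powerset_cons, ih, Multiset.map_add,
      Multiset.map_map, Multiset.map_map]
    congr 1
    refine Multiset.map_congr rfl fun t _ => ?_
    simp

/-- reflection does not change the mixed volume -/
theorem TV_ng (A B C : ConvexBody E3) : TV (ng A) (ng B) (ng C) = TV A B C := by
  unfold TV Pool.Agent.H590.M3.T Pool.Agent.TH650.MV.V
  have hmap : ({ng A, ng B, ng C} : Multiset (ConvexBody E3)) =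
      ({A, B, C} : Multiset (ConvexBody E3)).map ng := rfl
  rw [hmap, Multiset.card_map]
  congr 1
  unfold Pool.Agent.TH650.MV.dl
  rw [Multiset.card_map, powerset_map', Multiset.map_map]
  congr 1
  refine Multiset.map_congr rfl fun t _ => ?_
  simp only [Function.comp, Multiset.card_map]
  congr 1
  have hsum : ∀ t : Multiset (ConvexBody E3), (t.map ng).sum = ng t.sum := by
    intro t
    induction t using Multiset.induction_on with
    | empty =>
      apply SetLike.coe_injective
      rw [Multiset.map_zero, Multiset.sum_zero, coe_ng, ConvexBody.coe_zero]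
      simp
    | cons a s ih => rw [Multiset.map_cons, Multiset.sum_cons, Multiset.sum_cons, ih, ng_add]
  rw [hsum]
  exact vol_ng _

/-- the volume of a sum of two bodies -/
theorem vol_add (A B : ConvexBody E3) : vol ((A + B : ConvexBody E3) : Set E3) =
    vol (A : Set E3) + 3 * TV A A B + 3 * TV A B B + vol (B : Set E3) := by
  rw [← TV_self (A + B), ← TV_self A, ← TV_self B]
  simp only [TV_add1, TV_add2, TV_add3]
  rw [TV_23 A B A, TV_12 B A A, TV_23 A B A, TV_12 B A B, TV_23 B B A, TV_12 B A B]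
  ring

/-- the volume of `A + t B` -/
theorem vol_add_smul (A B : ConvexBody E3) (t : ℝ≥0) :
    vol ((A + t • B : ConvexBody E3) : Set E3) =
      vol (A : Set E3) + 3 * t * TV A A B + 3 * t ^ 2 * TV A B B + t ^ 3 * vol (B : Set E3) := by
  rw [vol_add, ← TV_self (t • B), ← TV_self B]
  simp only [TV_smul1, TV_smul2, TV_smul3]
  ring

/-- the Alexandrov-Fenchel inequality -/
theorem TV_af (A B C : ConvexBody E3) (hC : 0 < TV C C C) (hA : 0 < TV A C C)
    (hB : 0 < TV B C C) : TV A A C * TV B B C ≤ TV A B C ^ 2 :=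
  Pool.Agent.H590.M3.af3 h3 A B C hC hA hB

/-- the Brunn-Minkowski inequality -/
theorem bm (A B : ConvexBody E3) {a b : ℝ} (ha : 0 ≤ a) (hb : 0 ≤ b)
    (hA : a ^ 3 ≤ vol (A : Set E3)) (hB : b ^ 3 ≤ vol (B : Set E3)) :
    (a + b) ^ 3 ≤ vol ((A + B : ConvexBody E3) : Set E3) := by
  have h := Pool.Agent.H590.M3.bm_real (volume : Measure E3) A B ha hb
    (by rw [h3]; exact hA) (by rw [h3]; exact hB)
  rw [h3] at h
  exact h

end Pool.Agent.H619.SB

end
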