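import Pool.Agent.H619.SB.St
import Pool.Agent.H619.CS.AFF
import Pool.Agent.H619.CS.SL
import Pool.Agent.H619.CS.PS
import Pool.Agent.H619.CS.SIM
import Pool.Agent.H619.CS.STEP
import Pool.Agent.H619.CS.IND

/-!
# Project SB: polytopes with at most five vertices (leaf FIVE)
-/

set_option autoImplicit false
set_option linter.unusedSectionVars false

open MeasureTheory Set Module
open scoped Pointwise NNReal ENNReal

noncomputable section

namespace Pool.Agent.H619.SB

namespace FIVE

open Pool.Agent.H619.CS (cen symv)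

/-- an affine equivalence which permutes the vertices cyclically -/
theorem exch (v : Fin 4 → E3) (hv : AffineIndependent ℝ v) :
    ∃ (e : E3 ≃L[ℝ] E3) (b : E3), ∀ i, e (v i) + b = v (i + 1) := by
  have hv' : AffineIndependent ℝ (fun i => v (i + 1)) :=
    hv.comp_embedding (Equiv.addRight (1 : Fin 4)).toEmbedding
  let B := Module.Basis.mk (Pool.Agent.H619.CS.SIM.lin (n := 3) hv)
    (by rw [(Pool.Agent.H619.CS.SIM.lin (n := 3) hv).span_eq_top_of_card_eq_finrank' (by simp)])
  let B' := Module.Basis.mk (Pool.Agent.H619.CS.SIM.lin (n := 3) hv')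
    (by rw [(Pool.Agent.H619.CS.SIM.lin (n := 3) hv').span_eq_top_of_card_eq_finrank' (by simp)])
  have hB : ∀ i, B i = v i.succ - v 0 := fun i => by simp [B]
  have hB' : ∀ i, B' i = v (i.succ + 1) - v (0 + 1) := fun i => by simp [B']
  let e : E3 ≃L[ℝ] E3 := (B.equiv B' (Equiv.refl _)).toContinuousLinearEquiv
  have he : ∀ i : Fin 3, e (v i.succ - v 0) = v (i.succ + 1) - v (0 + 1) := by
    intro i
    have : (B.equiv B' (Equiv.refl _)) (B i) = B' i := by simp
    rw [hB, hB'] at this
    exact this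
  refine ⟨e, v (0 + 1) - e (v 0), fun i => ?_⟩
  refine Fin.cases ?_ (fun j => ?_) i
  · simp
  · have h := he j
    rw [map_sub] at h
    have h2 : e (v j.succ) = v (j.succ + 1) - v (0 + 1) + e (v 0) := by rw [← h]; abel
    rw [h2]
    abel

theorem hull_eq (v : Fin 4 → E3) (e : E3 ≃L[ℝ] E3) (b : E3) (h : ∀ i, e (v i) + b = v (i + 1)) :
    (fun x => e x + b) '' convexHull ℝ (range v) = convexHull ℝ (range v) := by
  let f : E3 →ᵃ[ℝ] E3 :=
    (e.toLinearEquiv.toLinearMap.toAffineMap) + AffineMap.const ℝ _ b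
  have hf : ∀ x, f x = e x + b := fun x => rfl
  have h1 := f.image_convexHull (range v)
  have h2 : f '' range v = range v := by
    rw [← range_comp]
    have h3 : (f ∘ v) = v ∘ (Equiv.addRight (1 : Fin 4)) := by
      funext i
      rw [Function.comp_apply, hf, h]
      rfl
    rw [h3]
    exact (Equiv.addRight (1 : Fin 4)).surjective.range_comp v
  rw [h2] at h1
  exact h1

theorem sum_shift (v : Fin 4 → E3) : ∑ i, v (i + 1) = ∑ i, v i :=
  Equiv.sum_comp (Equiv.addRight (1 : Fin 4)) v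

/-- the centroid of a simplex -/
theorem cen_eq (v : Fin 4 → E3) (hv : AffineIndependent ℝ v) :
    cen volume (convexHull ℝ (range v)) = (1 / 4 : ℝ) • ∑ i, v i := by
  obtain ⟨e, b, h⟩ := exch v hv
  obtain ⟨κ, -, -, -, hc⟩ := Pool.Agent.H619.CS.aff E3 E3 volume volume e b
  have hcomp : IsCompact (convexHull ℝ (range v)) := (finite_range v).isCompact_convexHull ℝ
  have h1 := (hc _ hcomp (Pool.Agent.H619.CS.SIM.pos (n := 3) hv)).1
  rw [hull_eq v e b h] at h1
  have hg : (1 / 4 : ℝ) • ∑ i, v i = e ((1 / 4 : ℝ) • ∑ i, v i) + b := by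
    rw [map_smul, map_sum]
    have e1 : ∀ i, e (v i) = v (i + 1) - b := fun i => eq_sub_of_add_eq (h i)
    rw [Finset.sum_congr rfl fun i _ => e1 i, Finset.sum_sub_distrib, sum_shift, Finset.sum_const,
      smul_sub, Finset.card_univ, Fintype.card_fin]
    have e2 : (1 / 4 : ℝ) • (4 • b) = b := by
      rw [← Nat.cast_smul_eq_nsmul ℝ, smul_smul]
      norm_num
    rw [e2]
    abel
  generalize hx : cen volume (convexHull ℝ (range v)) = x at h1 ⊢
  generalize hgg : (1 / 4 : ℝ) • ∑ i, v i = g at hg ⊢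
  have hy : e (x - g) = x - g := by
    rw [map_sub]
    conv_rhs => rw [h1, hg]
    abel
  -- the norm map is zero
  have hd : ∀ i j, e (v i - v j) = v (i + 1) - v (j + 1) := by
    intro i j
    rw [map_sub, ← h i, ← h j]
    abel
  have hN : ∀ y : E3, y + e y + e (e y) + e (e (e y)) = 0 := by
    intro y
    let B := Module.Basis.mk (Pool.Agent.H619.CS.SIM.lin (n := 3) hv)
      (by rw [(Pool.Agent.H619.CS.SIM.lin (n := 3) hv).span_eq_top_of_card_eq_finrank' (by simp)])
    have hB : ∀ i, B i = v i.succ - v 0 := fun i => by simp [B]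
    let E : E3 →ₗ[ℝ] E3 := e.toLinearEquiv.toLinearMap
    have hE : ∀ z, E z = e z := fun z => rfl
    let N : E3 →ₗ[ℝ] E3 := LinearMap.id + E + E.comp E + E.comp (E.comp E)
    have hN0 : N = 0 := by
      apply B.ext
      intro i
      have e1 : N (B i) = B i + e (B i) + e (e (B i)) + e (e (e (B i))) := rfl
      rw [e1, hB, hd, hd, hd, LinearMap.zero_apply]
      fin_cases i
      · show v 1 - v 0 + (v 2 - v 1) + (v 3 - v 2) + (v 0 - v 3) = 0
        abel
      · show v 2 - v 0 + (v 3 - v 1) + (v 0 - v 2) + (v 1 - v 3) = 0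
        abel
      · show v 3 - v 0 + (v 0 - v 1) + (v 1 - v 2) + (v 2 - v 3) = 0
        abel
    have e2 : N y = y + e y + e (e y) + e (e (e y)) := rfl
    rw [← e2, hN0, LinearMap.zero_apply]
  have h4 := hN (x - g)
  rw [hy, hy, hy] at h4
  have h5 : (4 : ℝ) • (x - g) = 0 := by
    rw [← h4]
    module
  have h6 : x - g = 0 := by
    rcases smul_eq_zero.1 h5 with h7 | h7
    · norm_num at h7
    · exact h7
  exact sub_eq_zero.1 h6

/-- the symmetric part of a simplex about its centroid -/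
theorem sy_eq (bs : AffineBasis (Fin 4) ℝ E3) :
    {x | x ∈ convexHull ℝ (range bs) ∧ (2 : ℝ) • ((1 / 4 : ℝ) • ∑ i, bs i) - x ∈
      convexHull ℝ (range bs)} = slab bs 0 (1 / 2) := by
  have hcomb : ∀ β : Fin 4 → ℝ, ∑ i, β i = 1 → ∀ i, bs.coord i (∑ j, β j • bs j) = β i := by
    intro β hβ i
    have h1 := bs.coord_apply_combination_of_mem (s := Finset.univ) (Finset.mem_univ i) hβ
    rw [Finset.affineCombination_eq_linear_combination _ _ _ hβ] at h1
    exact h1
  rw [bs.convexHull_eq_nonneg_coord]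
  ext x
  have hx := bs.linear_combination_coord_eq_self x
  have hx1 := bs.sum_coord_apply_eq_one x
  have hsub : (2 : ℝ) • ((1 / 4 : ℝ) • ∑ i, bs i) - x = ∑ i, (1 / 2 - bs.coord i x) • bs i := by
    have e1 : ∑ i, (1 / 2 - bs.coord i x) • bs i =
        (1 / 2 : ℝ) • ∑ i, bs i - ∑ i, bs.coord i x • bs i := by
      rw [Finset.smul_sum, ← Finset.sum_sub_distrib]
      exact Finset.sum_congr rfl fun i _ => sub_smul _ _ _
    rw [e1, hx, smul_smul]
    norm_num
  have hsum : ∑ i, (1 / 2 - bs.coord i x) = 1 := by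
    rw [Finset.sum_sub_distrib, hx1, Finset.sum_const, Finset.card_univ, Fintype.card_fin]
    norm_num
  constructor
  · rintro ⟨h1, h2⟩
    refine ⟨fun i => bs.coord i x, hx1, fun i => ⟨h1 i, ?_⟩, hx.symm⟩
    have h3 : 0 ≤ bs.coord i ((2 : ℝ) • ((1 / 4 : ℝ) • ∑ i, bs i) - x) := h2 i
    rw [hsub, hcomb _ hsum] at h3
    linarith
  · rintro ⟨β, hβ, h1, rfl⟩
    refine ⟨fun i => ?_, fun i => ?_⟩
    · rw [hcomb β hβ]
      exact (h1 i).1
    · rw [hsub, hcomb _ hsum, hcomb β hβ]
      linarith [(h1 i).2]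

end FIVE

open FIVE

theorem five (sl : S_SLAB) : S_FIVE := by
  intro w hw
  obtain ⟨bs⟩ : Nonempty (AffineBasis (Fin 4) ℝ E3) :=
    AffineBasis.exists_affineBasis_of_finiteDimensional (by simp)
  have hv : AffineIndependent ℝ bs := bs.ind
  have hind := Pool.Agent.H619.CS.ind (Pool.Agent.H619.CS.sim Pool.Agent.H619.CS.aff)
    (Pool.Agent.H619.CS.step Pool.Agent.H619.CS.aff Pool.Agent.H619.CS.ps Pool.Agent.H619.CS.sl)
    3 bs w hv hw
  -- the simplex
  have hKt : volume (convexHull ℝ (range bs)) ≠ ⊤ :=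
    ((finite_range bs).isCompact_convexHull ℝ).measure_lt_top.ne
  have hWt : volume (convexHull ℝ (range w)) ≠ ⊤ :=
    ((finite_range w).isCompact_convexHull ℝ).measure_lt_top.ne
  have hK0 : volume (convexHull ℝ (range bs)) ≠ 0 := Pool.Agent.H619.CS.SIM.pos (n := 3) hv
  have hsv : Pool.Agent.H619.CS.symv volume (convexHull ℝ (range bs)) =
      volume (slab bs 0 (1 / 2)) := by
    unfold Pool.Agent.H619.CS.symv
    rw [cen_eq bs hv, sy_eq bs]
  have hsl : (volume (slab bs 0 (1 / 2))).toReal =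
      (volume (convexHull ℝ (range bs))).toReal / 2 := (sl bs hv).2.1
  rw [hsv] at hind
  have hSt : volume (slab bs 0 (1 / 2)) ≠ ⊤ := by
    rw [← sy_eq bs]
    exact ne_top_of_le_ne_top hKt (measure_mono fun x hx => hx.1)
  have hWs : Pool.Agent.H619.CS.symv volume (convexHull ℝ (range w)) ≠ ⊤ := by
    unfold Pool.Agent.H619.CS.symv
    exact ne_top_of_le_ne_top hWt (measure_mono fun x hx => hx.1)
  refine ⟨(2 : ℝ) • Pool.Agent.H619.CS.cen volume (convexHull ℝ (range w)), ?_⟩
  have h1 := ENNReal.toReal_mono (ENNReal.mul_ne_top hWs hKt) hind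
  rw [ENNReal.toReal_mul, ENNReal.toReal_mul, hsl] at h1
  have hpos : 0 < (volume (convexHull ℝ (range bs))).toReal := ENNReal.toReal_pos hK0 hKt
  have h2 : vol (sy ((2 : ℝ) • Pool.Agent.H619.CS.cen volume (convexHull ℝ (range w)))
      (convexHull ℝ (range w))) =
      (Pool.Agent.H619.CS.symv volume (convexHull ℝ (range w))).toReal := rfl
  rw [h2]
  unfold vol
  have h3 : (volume (convexHull ℝ (range bs))).toReal *
      (volume (convexHull ℝ (range w))).toReal ≤ (volume (convexHull ℝ (range bs))).toReal *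
      (2 * (Pool.Agent.H619.CS.symv volume (convexHull ℝ (range w))).toReal) := by
    nlinarith [h1]
  exact le_of_mul_le_mul_left h3 hpos

end Pool.Agent.H619.SB

end
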