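import Pool.Agent.H619.SB.St

set_option autoImplicit false

open MeasureTheory Set Module
open scoped Pointwise ENNReal

noncomputable section

namespace Pool.Agent.H619.SB

namespace SLAB

variable (b : AffineBasis (Fin 4) ℝ E3)

/-- the points with barycentric coordinates at least `a` -/
def up (a : Fin 4 → ℝ) : Set E3 := {x | ∀ i, a i ≤ b.coord i x}

theorem cont (i : Fin 4) : Continuous (b.coord i) := (b.coord i).continuous_of_finiteDimensional

theorem coord_comb {w : Fin 4 → ℝ} (hw : ∑ i, w i = 1) (i : Fin 4) :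
    b.coord i (∑ j, w j • b j) = w i := by
  have h1 : Finset.univ.affineCombination ℝ b w = ∑ j, w j • b j :=
    Finset.affineCombination_eq_linear_combination _ _ _ hw
  rw [← h1]
  exact b.coord_apply_combination_of_mem (Finset.mem_univ i) hw

theorem hull_eq : convexHull ℝ (range b) = up b 0 := by
  rw [AffineBasis.convexHull_eq_nonneg_coord]
  rfl

theorem slab_eq (l m : ℝ) : slab b l m = {x | ∀ i, l ≤ b.coord i x ∧ b.coord i x ≤ m} := by
  ext x
  constructor
  · rintro ⟨β, hβ, h1, rfl⟩ i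
    rw [coord_comb b hβ]
    exact h1 i
  · intro h
    exact ⟨fun i => b.coord i x, b.sum_coord_apply_eq_one x, h,
      (b.linear_combination_coord_eq_self x).symm⟩

/-- homothety and translation -/
theorem up_image (a : Fin 4 → ℝ) (ha : ∑ i, a i ≤ 1) :
    up b a = (fun y : E3 => (∑ i, a i • b i) + y) '' ((1 - ∑ i, a i) • up b 0) := by
  set ρ : ℝ := 1 - ∑ i, a i with hρ
  have hρ0 : 0 ≤ ρ := by linarith
  have key : ∀ y : E3, ∀ i, b.coord i ((∑ i, a i • b i) + ρ • y) = a i + ρ * b.coord i y := by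
    intro y i
    have h1 : (∑ i, a i • b i) + ρ • y = ∑ i, (a i + ρ * b.coord i y) • b i := by
      simp only [add_smul, Finset.sum_add_distrib, mul_smul]
      rw [← Finset.smul_sum, b.linear_combination_coord_eq_self]
    rw [h1, coord_comb b]
    rw [Finset.sum_add_distrib, ← Finset.mul_sum, b.sum_coord_apply_eq_one]
    rw [hρ]
    ring
  ext x
  constructor
  · intro hx
    rcases hρ0.eq_or_lt with h0 | h0
    · -- degenerate case
      have h1 : ∀ i, b.coord i x = a i := by
        have h2 : ∑ i, (b.coord i x - a i) = 0 := by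
          rw [Finset.sum_sub_distrib, b.sum_coord_apply_eq_one]
          linarith
        have h3 := (Finset.sum_eq_zero_iff_of_nonneg (fun i _ => sub_nonneg.mpr (hx i))).mp h2
        intro i
        have := h3 i (Finset.mem_univ i)
        linarith
      refine ⟨0, ?_, ?_⟩
      · refine ⟨b 0, ?_, ?_⟩
        · intro i
          rw [b.coord_apply]
          split_ifs <;> simp
        · show ρ • b 0 = 0
          rw [← h0, zero_smul]
      · show (∑ i, a i • b i) + 0 = x
        rw [add_zero, ← b.linear_combination_coord_eq_self x]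
        exact Finset.sum_congr rfl fun i _ => by rw [h1]
    · refine ⟨x - ∑ i, a i • b i, ?_, by simp⟩
      refine ⟨ρ⁻¹ • (x - ∑ i, a i • b i), ?_, ?_⟩
      · intro i
        have h1 := key (ρ⁻¹ • (x - ∑ i, a i • b i)) i
        have h2 : (∑ i, a i • b i) + ρ • ρ⁻¹ • (x - ∑ i, a i • b i) = x := by
          rw [smul_smul, mul_inv_cancel₀ h0.ne', one_smul]
          abel
        rw [h2] at h1
        have h3 := hx i
        rw [h1] at h3
        have h4 : 0 ≤ ρ * b.coord i (ρ⁻¹ • (x - ∑ i, a i • b i)) := by linarith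
        exact nonneg_of_mul_nonneg_right h4 h0
      · show ρ • ρ⁻¹ • (x - ∑ i, a i • b i) = x - ∑ i, a i • b i
        rw [smul_smul, mul_inv_cancel₀ h0.ne', one_smul]
  · rintro ⟨_, ⟨y, hy, rfl⟩, rfl⟩ i
    have h1 := key y i
    show a i ≤ b.coord i ((∑ i, a i • b i) + ρ • y)
    rw [h1]
    have h2 : 0 ≤ b.coord i y := hy i
    have := mul_nonneg hρ0 h2
    linarith

theorem vol_up (a : Fin 4 → ℝ) (ha : ∑ i, a i ≤ 1) :
    vol (up b a) = (1 - ∑ i, a i) ^ 3 * vol (up b 0) := by
  have h0 : 0 ≤ 1 - ∑ i, a i := by linarith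
  rw [up_image b a ha]
  unfold vol
  rw [Set.image_add_left, measure_preimage_add, Measure.addHaar_smul, h3, ENNReal.toReal_mul,
    abs_of_nonneg (by positivity), ENNReal.toReal_ofReal (by positivity)]

theorem up_closed (a : Fin 4 → ℝ) : IsClosed (up b a) := by
  have : up b a = ⋂ i, {x | a i ≤ b.coord i x} := by
    ext x
    simp [up]
  rw [this]
  exact isClosed_iInter fun i => isClosed_le continuous_const (cont b i)

theorem up_fin (a : Fin 4 → ℝ) (ha : ∀ i, 0 ≤ a i) : volume (up b a) ≠ ⊤ := by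
  have h1 : up b a ⊆ convexHull ℝ (range b) := by
    rw [hull_eq]
    intro x hx i
    exact (ha i).trans (hx i)
  have h2 : IsCompact (convexHull ℝ (range b)) := (Set.finite_range b).isCompact_convexHull ℝ
  exact ((measure_mono h1).trans_lt h2.measure_lt_top).ne

/-- a level set of a coordinate is a null set -/
theorem level_null (i : Fin 4) (m : ℝ) : volume {x : E3 | b.coord i x = m} = 0 := by
  by_cases hne : ∃ x₀ : E3, b.coord i x₀ = m
  · obtain ⟨x₀, hx₀⟩ := hne
    have h1 : {x : E3 | b.coord i x = m} = (fun x => x + (-x₀)) ⁻¹'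
        ((LinearMap.ker (b.coord i).linear : Submodule ℝ E3) : Set E3) := by
      ext x
      simp only [mem_ofPred_eq, mem_preimage, SetLike.mem_coe, LinearMap.mem_ker]
      have h2 : (b.coord i).linear (x + -x₀) = b.coord i x - b.coord i x₀ := by
        have := (b.coord i).linearMap_vsub x x₀
        rw [vsub_eq_sub, vsub_eq_sub] at this
        rw [← sub_eq_add_neg]
        exact this
      rw [h2, hx₀, sub_eq_zero]
    rw [h1, measure_preimage_add_right]
    apply Measure.addHaar_submodule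
    intro htop
    obtain ⟨j, hj⟩ : ∃ j : Fin 4, j ≠ i := exists_ne i
    have h3 : (b.coord i).linear (b i - b j) = 0 := by
      have : b i - b j ∈ LinearMap.ker (b.coord i).linear := by
        rw [htop]
        exact Submodule.mem_top
      exact this
    have h4 : (b.coord i).linear (b i - b j) = b.coord i (b i) - b.coord i (b j) := by
      have := (b.coord i).linearMap_vsub (b i) (b j)
      rw [vsub_eq_sub, vsub_eq_sub] at this
      exact this
    rw [h4, b.coord_apply_eq, b.coord_apply_ne hj.symm] at h3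
    norm_num at h3
  · have h1 : {x : E3 | b.coord i x = m} = ∅ := by
      ext x
      simp only [mem_ofPred_eq, mem_empty_iff_false, iff_false]
      exact fun h => hne ⟨x, h⟩
    rw [h1, measure_empty]

/-- Bonferroni for four sets -/
theorem bonf {A B C D : Set E3} (hB : MeasurableSet B)
    (hC : MeasurableSet C) (hD : MeasurableSet D) (fA : volume A ≠ ⊤) (fB : volume B ≠ ⊤)
    (fC : volume C ≠ ⊤) (fD : volume D ≠ ⊤) :
    vol A + vol B + vol C + vol D ≤ vol (A ∪ B ∪ C ∪ D) + (vol (A ∩ B) + vol (A ∩ C) +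
      vol (B ∩ C) + vol (A ∩ D) + vol (B ∩ D) + vol (C ∩ D)) := by
  have fAB : volume (A ∪ B) ≠ ⊤ := (measure_union_lt_top fA.lt_top fB.lt_top).ne
  have fABC : volume (A ∪ B ∪ C) ≠ ⊤ := (measure_union_lt_top fAB.lt_top fC.lt_top).ne
  have e1 : vol (A ∪ B) + vol (A ∩ B) = vol A + vol B :=
    measureReal_union_add_inter hB fA fB
  have e2 : vol (A ∪ B ∪ C) + vol ((A ∪ B) ∩ C) = vol (A ∪ B) + vol C :=
    measureReal_union_add_inter hC fAB fC
  have e3 : vol (A ∪ B ∪ C ∪ D) + vol ((A ∪ B ∪ C) ∩ D) = vol (A ∪ B ∪ C) + vol D :=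
    measureReal_union_add_inter hD fABC fD
  have i2 : vol ((A ∪ B) ∩ C) ≤ vol (A ∩ C) + vol (B ∩ C) := by
    rw [Set.union_inter_distrib_right]
    exact measureReal_union_le _ _
  have i3 : vol ((A ∪ B ∪ C) ∩ D) ≤ vol (A ∩ D) + vol (B ∩ D) + vol (C ∩ D) := by
    rw [Set.union_inter_distrib_right, Set.union_inter_distrib_right]
    refine (measureReal_union_le _ _).trans ?_
    exact add_le_add_left (measureReal_union_le _ _) _
  linarith

/-- lower bounds for the corner `i` -/
def cr (l m : ℝ) (i : Fin 4) : Fin 4 → ℝ := fun j => if j = i then m else l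

theorem sum_cr (l m : ℝ) (i : Fin 4) : ∑ j, cr l m i j = m + 3 * l := by
  unfold cr
  fin_cases i <;> simp [Fin.sum_univ_four] <;> ring

/-- lower bounds for the edge `i`, `j` -/
def ed (l m : ℝ) (i j : Fin 4) : Fin 4 → ℝ := fun k => if k = i ∨ k = j then m else l

theorem sum_ed (l m : ℝ) {i j : Fin 4} (h : i ≠ j) : ∑ k, ed l m i j k = 2 * m + 2 * l := by
  unfold ed
  fin_cases i <;> fin_cases j <;> first | (exact absurd rfl h) | (simp [Fin.sum_univ_four] ; try ring)

/-- the open corner -/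
def oc (l m : ℝ) (i : Fin 4) : Set E3 := up b (cr l m i) \ {x | b.coord i x = m}

theorem oc_meas (l m : ℝ) (i : Fin 4) : MeasurableSet (oc b l m i) :=
  (up_closed b _).measurableSet.diff (measurableSet_eq_fun (cont b i).measurable measurable_const)

theorem vol_oc (l m : ℝ) (i : Fin 4) (h : m + 3 * l ≤ 1) :
    vol (oc b l m i) = (1 - (m + 3 * l)) ^ 3 * vol (up b 0) := by
  have h1 : vol (oc b l m i) = vol (up b (cr l m i)) := by
    unfold vol oc
    rw [measure_sdiff_null (level_null b i m)]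
  rw [h1, vol_up b _ (by rw [sum_cr]; exact h), sum_cr]

theorem oc_sub (l m : ℝ) (hlm : l ≤ m) (i : Fin 4) : oc b l m i ⊆ up b (fun _ => l) := by
  intro x hx j
  have h1 := hx.1 j
  unfold cr at h1
  show l ≤ _
  split_ifs at h1
  · exact hlm.trans h1
  · exact h1

theorem vol_oc_inter (l m : ℝ) (hl : 0 ≤ l) (hlm : l ≤ m) {i j : Fin 4} (hij : i ≠ j)
    (h : 2 * m + 2 * l ≤ 1) :
    vol (oc b l m i ∩ oc b l m j) ≤ (1 - (2 * m + 2 * l)) ^ 3 * vol (up b 0) := by
  have h1 : oc b l m i ∩ oc b l m j ⊆ up b (ed l m i j) := by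
    rintro x ⟨hx, hy⟩ k
    unfold ed
    split_ifs with hk
    · rcases hk with rfl | rfl
      · have := hx.1 k
        unfold cr at this
        rw [if_pos rfl] at this
        exact this
      · have := hy.1 k
        unfold cr at this
        rw [if_pos rfl] at this
        exact this
    · exact oc_sub b l m hlm i hx k
  have h2 : volume (up b (ed l m i j)) ≠ ⊤ := by
    apply up_fin
    intro k
    unfold ed
    split_ifs
    · exact hl.trans hlm
    · exact hl
  refine (vol_mono h1 h2).trans (le_of_eq ?_)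
  rw [vol_up b _ (by rw [sum_ed _ _ hij]; exact h), sum_ed _ _ hij]

theorem part3 (t : ℝ) (ht : 0 ≤ t) (ht' : t ≤ 1 / 8) :
    vol {x | ∀ i, t / 4 ≤ b.coord i x ∧ b.coord i x ≤ 1 / 2 - 3 * t / 4} ≤
      ((1 - t) ^ 3 - 1 / 2 + 6 * t ^ 3) * vol (up b 0) := by
  set l : ℝ := t / 4 with hl
  set m : ℝ := 1 / 2 - 3 * t / 4 with hm
  have hl0 : 0 ≤ l := by positivity
  have hlm : l ≤ m := by rw [hl, hm]; linarith
  have hm0 : 0 ≤ m := hl0.trans hlm
  set U : Set E3 := oc b l m 0 ∪ oc b l m 1 ∪ oc b l m 2 ∪ oc b l m 3 with hU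
  set Sl : Set E3 := {x | ∀ i, l ≤ b.coord i x ∧ b.coord i x ≤ m} with hSl
  have hfin : volume (up b (fun _ => l)) ≠ ⊤ := up_fin b _ fun _ => hl0
  have hUsub : U ⊆ up b (fun _ => l) := by
    rw [hU]
    exact Set.union_subset (Set.union_subset (Set.union_subset (oc_sub b l m hlm 0)
      (oc_sub b l m hlm 1)) (oc_sub b l m hlm 2)) (oc_sub b l m hlm 3)
  have hSlsub : Sl ⊆ up b (fun _ => l) := fun x hx i => (hx i).1
  have hUm : MeasurableSet U :=
    (((oc_meas b l m 0).union (oc_meas b l m 1)).union (oc_meas b l m 2)).union (oc_meas b l m 3)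
  have hdisj : Disjoint Sl U := by
    rw [Set.disjoint_left]
    intro x hx hxU
    have key : ∀ i, x ∉ oc b l m i := by
      intro i hxi
      have h1 := hxi.1 i
      unfold cr at h1
      rw [if_pos rfl] at h1
      exact hxi.2 (le_antisymm (hx i).2 h1)
    rcases hxU with ((h | h) | h) | h <;> exact key _ h
  have hsplit : vol Sl + vol U ≤ vol (up b (fun _ => l)) := by
    have h1 : vol (Sl ∪ U) = vol Sl + vol U :=
      measureReal_union hdisj hUm (measure_ne_top_of_subset hSlsub hfin)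
        (measure_ne_top_of_subset hUsub hfin)
    rw [← h1]
    exact vol_mono (Set.union_subset hSlsub hUsub) hfin
  have hf : ∀ i, volume (oc b l m i) ≠ ⊤ := fun i =>
    measure_ne_top_of_subset (oc_sub b l m hlm i) hfin
  have hb := bonf (oc_meas b l m 1) (oc_meas b l m 2) (oc_meas b l m 3) (hf 0) (hf 1) (hf 2) (hf 3)
  have hs1 : m + 3 * l = 1 / 2 := by rw [hl, hm]; ring
  have hs2 : 2 * m + 2 * l = 1 - t := by rw [hl, hm]; ring
  have hc : ∀ i, vol (oc b l m i) = 1 / 8 * vol (up b 0) := by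
    intro i
    rw [vol_oc b l m i (by rw [hs1]; norm_num), hs1]
    norm_num
  have he : ∀ i j, i ≠ j → vol (oc b l m i ∩ oc b l m j) ≤ t ^ 3 * vol (up b 0) := by
    intro i j hij
    refine (vol_oc_inter b l m hl0 hlm hij (by rw [hs2]; linarith)).trans (le_of_eq ?_)
    rw [hs2]
    ring
  have h0 : vol (up b (fun _ => l)) = (1 - t) ^ 3 * vol (up b 0) := by
    have hsum : ∑ _i : Fin 4, l = t := by
      rw [Fin.sum_univ_four, hl]; ring
    rw [vol_up b _ (by rw [hsum]; linarith), hsum]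
  rw [hc, hc, hc, hc] at hb
  have e01 := he 0 1 (by decide)
  have e02 := he 0 2 (by decide)
  have e12 := he 1 2 (by decide)
  have e03 := he 0 3 (by decide)
  have e13 := he 1 3 (by decide)
  have e23 := he 2 3 (by decide)
  rw [h0] at hsplit
  nlinarith [hsplit, hb, e01, e02, e12, e03, e13, e23]

theorem part2 : vol (up b 0) / 2 ≤ vol {x | ∀ i, 0 ≤ b.coord i x ∧ b.coord i x ≤ 1 / 2} := by
  set Sl : Set E3 := {x | ∀ i, 0 ≤ b.coord i x ∧ b.coord i x ≤ 1 / 2} with hSl
  have hSlsub : Sl ⊆ up b 0 := fun x hx i => (hx i).1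
  have hfin : volume (up b 0) ≠ ⊤ := up_fin b _ fun _ => le_rfl
  have hc : ∀ i, vol (up b (cr 0 (1 / 2) i)) = 1 / 8 * vol (up b 0) := by
    intro i
    rw [vol_up b _ (by rw [sum_cr]; norm_num), sum_cr]
    norm_num
  have hcf : ∀ i, volume (up b (cr 0 (1 / 2) i)) ≠ ⊤ := by
    intro i
    apply up_fin
    intro j
    unfold cr
    split_ifs <;> norm_num
  have hsub : up b 0 ⊆ Sl ∪ (up b (cr 0 (1 / 2) 0) ∪ up b (cr 0 (1 / 2) 1) ∪
      up b (cr 0 (1 / 2) 2) ∪ up b (cr 0 (1 / 2) 3)) := by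
    intro x hx
    by_cases h : x ∈ Sl
    · exact Or.inl h
    · right
      have h1 : ∃ i, 1 / 2 < b.coord i x := by
        by_contra h2
        push Not at h2
        exact h fun i => ⟨hx i, h2 i⟩
      obtain ⟨i, hi⟩ := h1
      have h3 : x ∈ up b (cr 0 (1 / 2) i) := by
        intro j
        unfold cr
        split_ifs with hj
        · rw [hj]; exact hi.le
        · exact hx j
      fin_cases i
      · exact Or.inl (Or.inl (Or.inl h3))
      · exact Or.inl (Or.inl (Or.inr h3))
      · exact Or.inl (Or.inr h3)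
      · exact Or.inr h3
  have hfU : volume (Sl ∪ (up b (cr 0 (1 / 2) 0) ∪ up b (cr 0 (1 / 2) 1) ∪
      up b (cr 0 (1 / 2) 2) ∪ up b (cr 0 (1 / 2) 3))) ≠ ⊤ := by
    refine (measure_union_lt_top (measure_ne_top_of_subset hSlsub hfin).lt_top ?_).ne
    exact measure_union_lt_top (measure_union_lt_top (measure_union_lt_top (hcf 0).lt_top
      (hcf 1).lt_top) (hcf 2).lt_top) (hcf 3).lt_top
  have h1 := vol_mono hsub hfU
  have h2 : vol (Sl ∪ (up b (cr 0 (1 / 2) 0) ∪ up b (cr 0 (1 / 2) 1) ∪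
      up b (cr 0 (1 / 2) 2) ∪ up b (cr 0 (1 / 2) 3))) ≤ vol Sl + (vol (up b (cr 0 (1 / 2) 0)) +
      vol (up b (cr 0 (1 / 2) 1)) + vol (up b (cr 0 (1 / 2) 2)) + vol (up b (cr 0 (1 / 2) 3))) := by
    have a1 : vol (Sl ∪ (up b (cr 0 (1 / 2) 0) ∪ up b (cr 0 (1 / 2) 1) ∪
      up b (cr 0 (1 / 2) 2) ∪ up b (cr 0 (1 / 2) 3))) ≤ vol Sl + vol (up b (cr 0 (1 / 2) 0) ∪
      up b (cr 0 (1 / 2) 1) ∪ up b (cr 0 (1 / 2) 2) ∪ up b (cr 0 (1 / 2) 3)) :=
      measureReal_union_le _ _
    have a2 : vol (up b (cr 0 (1 / 2) 0) ∪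
      up b (cr 0 (1 / 2) 1) ∪ up b (cr 0 (1 / 2) 2) ∪ up b (cr 0 (1 / 2) 3)) ≤
      vol (up b (cr 0 (1 / 2) 0) ∪ up b (cr 0 (1 / 2) 1) ∪ up b (cr 0 (1 / 2) 2)) +
      vol (up b (cr 0 (1 / 2) 3)) := measureReal_union_le _ _
    have a3 : vol (up b (cr 0 (1 / 2) 0) ∪ up b (cr 0 (1 / 2) 1) ∪ up b (cr 0 (1 / 2) 2)) ≤
      vol (up b (cr 0 (1 / 2) 0) ∪ up b (cr 0 (1 / 2) 1)) + vol (up b (cr 0 (1 / 2) 2)) :=
      measureReal_union_le _ _
    have a4 : vol (up b (cr 0 (1 / 2) 0) ∪ up b (cr 0 (1 / 2) 1)) ≤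
      vol (up b (cr 0 (1 / 2) 0)) + vol (up b (cr 0 (1 / 2) 1)) := measureReal_union_le _ _
    linarith
  rw [hc, hc, hc, hc] at h2
  linarith

end SLAB

open SLAB in
theorem slabv : S_SLAB := by
  intro p hp
  have htop : affineSpan ℝ (range p) = ⊤ :=
    hp.affineSpan_eq_top_iff_card_eq_finrank_add_one.mpr (by simp)
  set b : AffineBasis (Fin 4) ℝ E3 := ⟨p, hp, htop⟩ with hb
  have hbp : (b : Fin 4 → E3) = p := rfl
  have hhull : convexHull ℝ (range p) = up b 0 := hull_eq b
  have hslab : ∀ l m : ℝ, slab p l m = {x | ∀ i, l ≤ b.coord i x ∧ b.coord i x ≤ m} :=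
    fun l m => slab_eq b l m
  refine ⟨fun l hl hl' => ?_, ?_, fun t ht ht' => ?_⟩
  · have h1 : slab p l 1 = up b (fun _ => l) := by
      rw [hslab]
      ext x
      constructor
      · intro h i
        exact (h i).1
      · intro h i
        refine ⟨h i, ?_⟩
        have h2 := b.sum_coord_apply_eq_one x
        rw [← h2]
        exact Finset.single_le_sum (fun j _ => hl.trans (h j)) (Finset.mem_univ i)
    have hsum : ∑ _i : Fin 4, l = 4 * l := by
      rw [Fin.sum_univ_four]; ring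
    rw [h1, hhull, vol_up b _ (by rw [hsum]; linarith), hsum]
  · rw [hslab, hhull]
    apply le_antisymm
    · have h1 := part3 b 0 le_rfl (by norm_num)
      norm_num at h1
      norm_num
      linarith
    · exact part2 b
  · rw [hslab, hhull]
    exact part3 b t ht ht'

end Pool.Agent.H619.SB

end
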