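import Pool.Agent.H619.SB.SHP
import Pool.Agent.H619.SB.OUT
import Pool.Agent.H619.SB.SHELL
import Pool.Agent.H619.SB.ADD
import Pool.Agent.H619.SB.LIM
import Pool.Agent.H619.SB.HEL
import Pool.Agent.H619.SB.ASYM
import Pool.Agent.H619.SB.DET
import Pool.Agent.H619.SB.SIM
import Pool.Agent.H619.SB.SLAB
import Pool.Agent.H619.SB.OCT
import Pool.Agent.H619.SB.TOP
import Pool.Agent.H619.SB.FIVE
import Pool.Agent.H619.SB.FIN


/-!
# Centrally symmetric bodies inside convex bodies of `ℝ³`: the three results about MP_0069fb_gt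
-/

set_option autoImplicit false

open MeasureTheory Set

noncomputable section

namespace Pool.Agent.H619.SB.RES

open Pool.Agent.H619.SB

/-- three-dimensional space -/
abbrev R3 : Type := EuclideanSpace ℝ (Fin 3)

/-- convex bodies: compact convex sets with nonempty interior -/
def IsConvexBody (K : Set R3) : Prop := IsCompact K ∧ Convex ℝ K ∧ (interior K).Nonempty

/-- centrally symmetric about some point -/
def CentrallySymmetric (C : Set R3) : Prop := ∃ c : R3, ∀ x ∈ C, (2 : ℝ) • c - x ∈ C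

theorem good : Good (77 / 200) :=
  fin (lim (shell shp out) add) (asym hel) (sim det) (oct (shell shp out) slabv)

theorem slabv' : S_SLAB := slabv

lemma sy_body {K : Set R3} (hK : IsConvexBody K) {c : R3} (h : 0 < vol (sy c K)) :
    IsConvexBody (sy c K) ∧ CentrallySymmetric (sy c K) ∧ sy c K ⊆ K := by
  obtain ⟨hc, hv, hi⟩ := hK
  have e : sy c K = K ∩ (fun x => c - x) ⁻¹' K := rfl
  have hcl : IsClosed ((fun x : R3 => c - x) ⁻¹' K) :=
    hc.isClosed.preimage (by fun_prop)
  have hcomp : IsCompact (sy c K) := by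
    rw [e]
    exact hc.inter_right hcl
  have hconv : Convex ℝ (sy c K) := by
    intro x hx y hy a b ha hb hab
    refine ⟨hv hx.1 hy.1 ha hb hab, ?_⟩
    have e2 : c - (a • x + b • y) = a • (c - x) + b • (c - y) := by
      have : c = a • c + b • c := by rw [← add_smul, hab, one_smul]
      rw [smul_sub, smul_sub]
      nth_rw 1 [this]
      abel
    rw [e2]
    exact hv hx.2 hy.2 ha hb hab
  refine ⟨⟨hcomp, hconv, ?_⟩, ⟨(1 / 2 : ℝ) • c, ?_⟩, fun x hx => hx.1⟩
  · by_contra hne
    rw [not_nonempty_iff_eq_empty] at hne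
    have h0 : volume (sy c K) = 0 := by
      have h1 := hconv.addHaar_frontier (volume : Measure R3)
      rw [frontier, hne, diff_empty, hcomp.isClosed.closure_eq] at h1
      exact h1
    unfold vol at h
    rw [h0] at h
    simp at h
  · intro x hx
    have e3 : (2 : ℝ) • ((1 / 2 : ℝ) • c) - x = c - x := by
      rw [smul_smul]; norm_num
    rw [e3]
    exact ⟨hx.2, by simpa using hx.1⟩

lemma vol_le_iff {S T : Set R3} (hS : IsCompact S) (hT : IsCompact T) {p q : ℕ}
    (h : (p : ℝ) * vol S ≤ q * vol T) : (p : ENNReal) * volume S ≤ q * volume T := by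
  unfold vol at h
  have h1 : ((p : ENNReal) * volume S).toReal ≤ ((q : ENNReal) * volume T).toReal := by
    rw [ENNReal.toReal_mul, ENNReal.toReal_mul, ENNReal.toReal_natCast, ENNReal.toReal_natCast]
    exact h
  exact (ENNReal.toReal_le_toReal (ENNReal.mul_ne_top (ENNReal.natCast_ne_top p)
    hS.measure_lt_top.ne) (ENNReal.mul_ne_top (ENNReal.natCast_ne_top q)
    hT.measure_lt_top.ne)).1 h1

lemma vol_pos' {K : Set R3} (hK : IsConvexBody K) : 0 < vol K :=
  vol_pos (K := ⟨K, hK.2.1, hK.1, hK.2.2.mono interior_subset⟩) hK.2.2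

theorem all : ∀ K : Set R3, IsConvexBody K → ∃ C : Set R3, IsConvexBody C ∧ C ⊆ K ∧
    CentrallySymmetric C ∧ 77 * volume K ≤ 200 * volume C := by
  intro K hK
  obtain ⟨c, hc⟩ := good ⟨K, hK.2.1, hK.1, hK.2.2.mono interior_subset⟩ hK.2.2
  have hV := vol_pos' hK
  change 77 / 200 * vol K ≤ vol (sy c K) at hc
  have hpos : 0 < vol (sy c K) := by nlinarith
  obtain ⟨h1, h2, h3⟩ := sy_body hK hpos
  refine ⟨sy c K, h1, h3, h2, ?_⟩
  have := vol_le_iff (p := 77) (q := 200) hK.1 h1.1 (by push_cast; linarith)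
  exact_mod_cast this

theorem few : ∀ w : Fin 5 → R3, (interior (convexHull ℝ (range w))).Nonempty →
    ∃ C : Set R3, IsConvexBody C ∧ C ⊆ convexHull ℝ (range w) ∧ CentrallySymmetric C ∧
      volume (convexHull ℝ (range w)) ≤ 2 * volume C := by
  intro w hw
  have hK : IsConvexBody (convexHull ℝ (range w)) :=
    ⟨(finite_range w).isCompact_convexHull ℝ, convex_convexHull ℝ _, hw⟩
  obtain ⟨c, hc⟩ := five slabv' w hw
  have hV := vol_pos' hK
  have hpos : 0 < vol (sy c (convexHull ℝ (range w))) := by linarith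
  obtain ⟨h1, h2, h3⟩ := sy_body hK hpos
  refine ⟨_, h1, h3, h2, ?_⟩
  have := vol_le_iff (p := 1) (q := 2) hK.1 h1.1 (by push_cast; linarith)
  simpa using this

theorem tetra : ∀ p : Fin 4 → R3, AffineIndependent ℝ p →
    (∀ C : Set R3, C ⊆ convexHull ℝ (range p) → CentrallySymmetric C →
      2 * volume C ≤ volume (convexHull ℝ (range p))) ∧
    ∃ C : Set R3, IsConvexBody C ∧ C ⊆ convexHull ℝ (range p) ∧ CentrallySymmetric C ∧
      2 * volume C = volume (convexHull ℝ (range p)) := by
  intro p hp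
  have hcomp : IsCompact (convexHull ℝ (range p)) := (finite_range p).isCompact_convexHull ℝ
  refine ⟨?_, ?_⟩
  · rintro C hC ⟨c, hc⟩
    have hsub : C ⊆ sy ((2 : ℝ) • c) (convexHull ℝ (range p)) := fun x hx =>
      ⟨hC hx, hC (hc x hx)⟩
    have h1 := top slabv' p hp ((2 : ℝ) • c)
    have hcs : IsCompact (sy ((2 : ℝ) • c) (convexHull ℝ (range p))) := by
      have e : sy ((2 : ℝ) • c) (convexHull ℝ (range p)) =
        convexHull ℝ (range p) ∩ (fun x => (2 : ℝ) • c - x) ⁻¹' (convexHull ℝ (range p)) := rfl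
      rw [e]
      exact hcomp.inter_right (hcomp.isClosed.preimage (by fun_prop))
    have h2 := vol_le_iff (p := 2) (q := 1) hcs hcomp (by push_cast; linarith)
    simp only [Nat.cast_one, one_mul, Nat.cast_ofNat] at h2
    exact (mul_le_mul_right (measure_mono hsub) 2).trans h2
  · obtain ⟨O, hO1, hO2, ⟨g, hg⟩, hO4, -⟩ := oct (shell shp out) slabv' p hp
    refine ⟨(fun y => g + y) '' (O : Set R3), ⟨O.isCompact.image (by fun_prop), ?_, ?_⟩, ?_, ?_, ?_⟩
    · rw [image_add_left]
      exact O.convex.translate_preimage_right (-g)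
    · obtain ⟨x, hx⟩ := hO1
      refine ⟨g + x, ?_⟩
      have := (isOpenMap_add_left g).image_interior_subset (O : Set R3)
      exact this ⟨x, hx, rfl⟩
    · rintro _ ⟨y, hy, rfl⟩
      exact hg y hy
    · refine ⟨g, ?_⟩
      rintro _ ⟨y, hy, rfl⟩
      refine ⟨-y, hO2 y hy, ?_⟩
      show g + -y = (2 : ℝ) • g - (g + y)
      rw [two_smul]
      abel
    · rw [image_add_left, measure_preimage_add]
      unfold vol at hO4
      have hfin : volume (O : Set R3) ≠ ⊤ := O.isCompact.measure_lt_top.ne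
      rw [← ENNReal.toReal_eq_toReal_iff' (ENNReal.mul_ne_top (by norm_num) hfin)
        hcomp.measure_lt_top.ne, ENNReal.toReal_mul]
      simpa using hO4

end Pool.Agent.H619.SB.RES

end
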