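import Pool.Agent.H619.SB.Base

/-!
# Project SB (MP_0069fb_gt): large centrally symmetric bodies inside convex bodies of `ℝ³`

Statements `S_X : Prop` with complete paper proofs in the docstrings. Basic notions and the rules
for the mixed volumes `TV A B C` are in `Pool.Agent.H619.SB.Base`. `vol` is the volume as a real
number, `sy c S = S ∩ (c - S)`, `ero K L = {x | x + L ⊆ K}`, `ng K = -K`, `tr x K = K + x`.

Plan: let `a³` be the supremum of all `r` such that every body `K` has a `c` with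
`r |K| ≤ |K ∩ (c - K)|`. For a body `K` (of volume one) which is almost extremal, SHELL and ADD give
`|Z| ≤ a³ V(K,K,Z)³` for all symmetric bodies `Z` (up to `ε`; this is LIM). Take `Z = K - K`, the
octahedron of a simplex `S ⊇ K`, and `Z = K - K + O/2` with the octahedron `O` of a simplex in `K`.
-/

set_option autoImplicit false
set_option linter.unusedSectionVars false

open MeasureTheory Set Module
open scoped Pointwise NNReal ENNReal

noncomputable section

namespace Pool.Agent.H619.SB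

/-- the polytope given by a finite set of inequalities `u x ≤ h` -/
def poly (F : Finset ((E3 →L[ℝ] ℝ) × ℝ)) : Set E3 := {x | ∀ f ∈ F, f.1 x ≤ f.2}

/-- SHP. The inequality SHELL for polytopes. Proof. For `f = (u, h) ∈ F` let `y_f ∈ L` with
`u y_f = 1 = max_L u` and `s_f x = h - u x`. Then `P = poly F = {∀ f, 0 ≤ s_f x}` and
`P ~ L = ero P L = {∀ f, 1 ≤ s_f x}`. Let `A_f = {x ∈ P | s_f x < 1 ∧ ∀ g ∈ F, g ≠ f → s_f x < s_g x}`.
The set `P \ (P ~ L)` is contained in the union of the `A_f` and of the sets `{s_f = s_g}`, `f ≠ g` in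
`F`, which are null sets (if `u_f ≠ u_g` a hyperplane, `MeasureTheory.Measure.addHaar_affineSubspace`
or `addHaar_submodule`; if `u_f = u_g` then `h_f ≠ h_g` and it is empty). The translates
`A_f + y_f` are pairwise disjoint: if `z = x + y_f = x' + y_g` with `x ∈ A_f`, `x' ∈ A_g`, `f ≠ g`,
then `s_g z = s_g x - u_g y_f ≥ s_g x - 1 > s_f x - 1 = s_f z`, and in the same way `s_f z > s_g z`.
They are contained in `P + L`, and disjoint from `P` as `s_f z = s_f x - 1 < 0`. Hence
`|P| - |P ~ L| ≤ ∑ |A_f| = ∑ |A_f + y_f| ≤ |P + L| - |P|` (everything is measurable and of finite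
volume: `P` is compact). -/
def S_SHP : Prop :=
  ∀ (F : Finset ((E3 →L[ℝ] ℝ) × ℝ)) (L : ConvexBody E3),
    (∀ f ∈ F, (∃ y ∈ L, f.1 y = 1) ∧ ∀ y ∈ L, f.1 y ≤ 1) → Bornology.IsBounded (poly F) →
    2 * vol (poly F) ≤ vol (ero (poly F) (L : Set E3)) + vol (poly F + (L : Set E3))

/-- OUT. Approximation by polytopes. Proof. `K ⊆ interior ((1 + ε) K)`, as `0 ∈ interior K`. For
every `x` in the frontier of `(1 + ε) K` (a compact set, disjoint from `K`) there is a continuous
linear `u` with `u x > h := max_K u` (strict separation of `x` from the compact convex set `K`); then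
`u ≠ 0`. The open sets `{u > h}` cover the frontier, take a finite subcover `F`. Then `K ⊆ poly F`.
`poly F` is convex, contains `0`, and does not meet the frontier of `(1 + ε) K`. A point of `poly F`
outside of `(1 + ε) K` would give a point of the segment from it to `0` in the frontier (or:
`IsPreconnected.inter_frontier_nonempty`-type lemma: a preconnected set which meets a set and its
complement meets the frontier). So `poly F ⊆ (1 + ε) K`. -/
def S_OUT : Prop :=
  ∀ K : ConvexBody E3, (0 : E3) ∈ interior (K : Set E3) → ∀ ε : ℝ, 0 < ε →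
    ∃ F : Finset ((E3 →L[ℝ] ℝ) × ℝ), (∀ f ∈ F, f.1 ≠ 0) ∧ (K : Set E3) ⊆ poly F ∧
      poly F ⊆ (1 + ε) • (K : Set E3)

/-- SHELL (from SHP, OUT). The volume of `K ~ L = {x | x + L ⊆ K}` is at least `2|K| - |K + L|`.
Proof. Translate `K` so that `0 ∈ interior K` (`(K - a) ~ L = (K ~ L) - a`,
`(K - a) + L = (K + L) - a`). Let `ε > 0` and `F` from OUT, `Q = poly F`, `P = (1 + ε)⁻¹ Q ⊆ K`. For
`f ∈ F` we have `m_f = max_L f.1 > 0` since `f.1 ≠ 0` and `0 ∈ interior L`. So `P = poly F'` for the set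
`F'` of the pairs `(u / m, h / ((1 + ε) m))`, which satisfies the hypothesis of SHP, and `P` is
bounded. `(1 + ε)³ |P| = |Q| ≥ |K|`, `P ~ L ⊆ K ~ L` and `P + L ⊆ K + L`. So
`2 (1 + ε)⁻³ |K| ≤ 2 |P| ≤ |K ~ L| + |K + L|` for all `ε > 0`; let `ε → 0`. -/
def S_SHELL : Prop :=
  ∀ K L : ConvexBody E3, Fat (K : Set E3) → (0 : E3) ∈ interior (L : Set E3) →
    2 * vol (K : Set E3) ≤ vol (ero K L) + vol ((K + L : ConvexBody E3) : Set E3)

/-- ADD (Brunn-Minkowski for the symmetric parts). Proof: let `A = sy c (ero K Z)`, a nonempty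
compact convex set (`ero K Z` is an intersection of translates of `K`, compact and convex, `Z ≠ ∅`).
For `x ∈ A`, `z ∈ Z`: `x + z ∈ K` and `c - (x + z) = (c - x) + (-z) ∈ K` since `c - x ∈ ero K Z` and
`-z ∈ Z`. So `A + Z ⊆ sy c K`; use `bm` (`Base.lean`) for the bodies `A` and `Z`. -/
def S_ADD : Prop :=
  ∀ (K Z : ConvexBody E3) (c : E3) (a z : ℝ), Sym (Z : Set E3) → 0 ≤ a → 0 ≤ z →
    (sy c (ero K Z)).Nonempty → a ^ 3 ≤ vol (sy c (ero K Z)) → z ^ 3 ≤ vol (Z : Set E3) →
    (a + z) ^ 3 ≤ vol (sy c K)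

/-- every body contains a symmetric part of relative volume at least `r` -/
def Good (r : ℝ) : Prop :=
  ∀ K : ConvexBody E3, Fat (K : Set E3) → ∃ c : E3, r * vol (K : Set E3) ≤ vol (sy c (K : Set E3))

/-- LIM (from SHELL, ADD). Almost extremal bodies. Proof. We may assume `C ≥ 1`. Fix `t ∈ (0, 1)`
with `6 C t ≤ 1` and `6 a C² t ≤ γ / 2` (`t` as an `ℝ≥0` for the scalar multiple `t • Z`), and
`ε ∈ (0, 1)` with `2 ε / t ≤ γ / 2`. Let `r'' = (a + ε)³ > a³`. As `¬ Good r''` there is a body `K` with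
`vol (sy c K) < r'' vol K` for all `c`; replacing `K` by `λ K`, `λ = (vol K)^(-1/3)`, we have
`vol K = 1` (`sy (λ c) (λ K) = λ sy c K`). This is the body. Let `Z` be as in the statement,
`X = TV K K Z ≤ C`. By `vol_add_smul` and SHELL (with `L = t • Z`; `0 ∈ interior Z` because `Z` is
symmetric, convex, with nonempty interior)
`vol (ero K (t • Z)) ≥ 2 - (1 + 3 t X + 3 t² TV K Z Z + t³ vol Z) ≥ 1 - 3 t X - 3 C t² - C t³ =: q`.
With `u = t X + 6 C² t² ≤ 2 C t ≤ 1/3` we have `(1 - u)³ ≤ 1 - 3 u + 3 u² ≤ q`, because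
`3 u² ≤ 12 C² t²` and `18 C² t² ≥ 12 C² t² + 4 C t²`. In particular `K_t = ero K (t • Z)` has positive
volume; it is compact and convex, so it is a body with nonempty interior (a convex set with empty
interior is contained in a hyperplane, of measure zero: `Convex.addHaar_frontier`, or
`interior_nonempty_iff_affineSpan_eq_top`). If `ε < a` let `α = a - ε`; by `Good (α³)` there is `c` with
`α³ vol K_t ≤ vol (sy c K_t)`. If `a ≤ ε` let `α = 0` and take `c = x + x` with `x ∈ K_t`. In the first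
case `sy c K_t` is nonempty since its volume is positive. In both cases
`(α (1 - u))³ ≤ α³ q ≤ vol (sy c K_t)`, and `(t z)³ ≤ vol (t • Z)`; ADD gives
`(α (1 - u) + t z)³ ≤ vol (sy c K) < (a + ε)³`, so `α (1 - u) + t z < a + ε`. As
`α (1 - u) ≥ (a - ε) (1 - u)` this gives
`t z < 2 ε + a u = 2 ε + a t X + 6 a C² t²`, i.e. `z < a X + 6 a C² t + 2 ε / t ≤ a X + γ`. -/
def S_LIM : Prop :=
  ∀ a : ℝ, 0 ≤ a → (∀ r, r < a ^ 3 → Good r) → (∀ r, a ^ 3 < r → ¬ Good r) →
    ∀ C γ : ℝ, 0 < γ → ∃ K : ConvexBody E3, Fat (K : Set E3) ∧ vol (K : Set E3) = 1 ∧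
      ∀ Z : ConvexBody E3, Fat (Z : Set E3) → Sym (Z : Set E3) → TV K K Z ≤ C → TV K Z Z ≤ C →
        vol (Z : Set E3) ≤ C → ∀ z : ℝ, 0 ≤ z → z ^ 3 ≤ vol (Z : Set E3) →
          z ≤ a * TV K K Z + γ

/-- the support function of `K` -/
def hs (K : ConvexBody E3) (u : E3) : ℝ := sSup ((fun y : E3 => inner ℝ y u) '' (K : Set E3))

/-- HEL (Helly). Proof. Let `h = hs K` (a maximum, `K` is compact) and for `u ≠ 0` let
`X_u = {x | h (-u) - s h u ≤ ⟪x, u⟫}`, a closed half-space.
(i) If `x ∈ X_u` for all `u ≠ 0` then `-K ⊆ x + s K`: the set `x + s K` is compact and convex; if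
`-y` is not in it, some `u` has `⟪-y, u⟫ > ⟪x, u⟫ + s h u` (and `u ≠ 0`), but
`⟪-y, u⟫ ≤ h (-u) ≤ ⟪x, u⟫ + s h u`. This contradicts the hypothesis, so the intersection of all
`X_u` is empty.
(ii) The `X_u` with `u = ± e_i` have a bounded, so compact intersection, hence by compactness
finitely many `X_u` (including these) have an empty intersection, and by Helly's theorem
(`Convex.helly_theorem'`, `finrank = 3`) there is a subfamily of at most four with empty
intersection; repeat one of them to get exactly four (the subfamily is not empty). -/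
def S_HEL : Prop :=
  ∀ (K : ConvexBody E3) (s : ℝ), 0 ≤ s →
    (¬ ∃ x : E3, ∀ y ∈ K, ∃ z ∈ K, -y = x + s • z) →
    ∃ u : Fin 4 → E3, (∀ i, u i ≠ 0) ∧
      ¬ ∃ x : E3, ∀ i, hs K (-(u i)) - s * hs K (u i) ≤ inner ℝ x (u i)

/-- ASYM (from HEL). If `K` is not contained in `-K` scaled by `s` and translated then there are
barycentric coordinates of a simplex which contains `K`, such that `K` has points close to the
vertices. Proof. Let `h = hs K`, `u_i` from HEL, `c_i = h (-u_i) - s h u_i`.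
(iii) The convex set `A = {(⟪x, u_i⟫ - c_i)_i | x} ⊆ ℝ⁴` does not meet the open convex set
`P = {y | ∀ i, 0 < y i}`. By `geometric_hahn_banach_open` there are `λ : Fin 4 → ℝ` and `r` with
`∑ λ_i y_i > r` on `P` and `∑ λ_i y_i ≤ r` on `A` (change the sign of the functional). Letting
`y → 0` in `P`: `r ≤ 0`; letting one `y_i → ∞`: `λ_i ≥ 0`; `λ ≠ 0` since otherwise `r < 0 ≤ r`. The
function `x ↦ ∑ λ_i (⟪x, u_i⟫ - c_i) ≤ r ≤ 0` is bounded above, so `∑ λ_i u_i = 0` and
`∑ λ_i c_i ≥ 0`.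
(iv) `N = ∑ λ_i h u_i > 0`: take `z₀ ∈ interior K`, so `h u_i > ⟪z₀, u_i⟫` as `u_i ≠ 0`, and
`N = ∑ λ_i (h u_i - ⟪z₀, u_i⟫)`.
(v) `b x i = λ_i (h u_i - ⟪x, u_i⟫) / N` is an affine map with sum `1`, nonnegative on `K`. Let
`v i ∈ K` be a point with `⟪v i, u_i⟫ = - h (-u_i)` (the minimum on `K`). Then
`∑ b (v i) i = (N + ∑ λ_i h (-u_i)) / N ≥ 1 + s`, because `∑ λ_i (h (-u_i) - s h u_i) ≥ 0`. -/
def S_ASYM : Prop :=
  ∀ (K : ConvexBody E3) (s : ℝ), Fat (K : Set E3) → 0 ≤ s →
    (¬ ∃ x : E3, ∀ y ∈ K, ∃ z ∈ K, -y = x + s • z) →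
    ∃ (b : E3 →ᵃ[ℝ] (Fin 4 → ℝ)) (v : Fin 4 → E3), (∀ x, ∑ i, b x i = 1) ∧
      (∀ x ∈ K, ∀ i, 0 ≤ b x i) ∧ (∀ i, v i ∈ K) ∧ 1 + s ≤ ∑ i, b (v i) i

/-- DET. Proof: put `x i j = B i j` for `i ≠ j` (12 nonnegative variables) and
`B i i = 1 - ∑_{j ≠ i} x i j`, i.e. `B = 1 - L`, where `L` has the diagonal entries
`e i = ∑_{j ≠ i} x i j` and the off-diagonal entries `- x i j` (a Laplacian). Let `e₁, e₂, e₃` be the
sums of the principal minors of `L` of size `1, 2, 3`; `det L = 0`. So `det B = 1 - e₁ + e₂ - e₃`, and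
`e₁ = ∑ e i = 4 - ∑ B i i ≤ 1`; the claim is `e₃ ≤ e₂`. The polynomial `e_k` is the sum over the
directed forests with `k` edges (each vertex with at most one outgoing edge `i → j`, no cycle) of
the product of the `x i j`; in particular `e₂`, `e₃` and `e₁ e₂ - 3 e₃` have nonnegative
coefficients. So `3 e₃ ≤ e₁ e₂ ≤ e₂`. In Lean: obtain `e₂ ≥ 0` and `e₁ e₂ - 3 e₃ ≥ 0` from explicit
expansions (`have : e1 * e2 - 3 * e3 = (sum of monomials with positive coefficients) := by ring`,
then `positivity`; produce the expansion with a small script), or replace the determinant by the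
`3 × 3` determinant of `B i j - B 3 j` (`i, j < 3`). -/
def S_DET : Prop :=
  ∀ B : Matrix (Fin 4) (Fin 4) ℝ, (∀ i j, 0 ≤ B i j) → (∀ i, ∑ j, B i j = 1) →
    3 ≤ ∑ i, B i i → ∑ i, B i i - 3 ≤ B.det

/-- SIM (from DET). Proof: let `B i j = b (v i) j`; by DET `det B ≥ ∑ B i i - 3 > 0`. Let `C = B⁻¹`; the
rows of `C` have sum `1` (`B 1 = 1` gives `C 1 = 1`). Let `p i = ∑ j, C i j • v j`; an affine map
commutes with affine combinations, so `b (p i) = ∑ j, C i j • b (v j) = Pi.single i 1` (`C B = 1`). Hence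
`p` is affinely independent (its image under `b` is: `AffineIndependent.of_comp`), so it is an affine
basis of the three-dimensional space; for `x = ∑ β_i p_i`, `∑ β_i = 1` we get `b x = β`. This gives
`{x | ∀ i, 0 ≤ b x i} = convexHull ℝ (range p)`, and `v i = ∑ j, B i j • p j`. `v` is affinely
independent (the matrix of barycentric coordinates is invertible, `AffineBasis.toMatrix`…). Let
`f` be the affine map with `f (p i) = v i`; then `convexHull (range v) = f '' convexHull (range p)`, and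
the determinant of its linear part is that of the matrix `(B i j - B 0 j)_{i,j ≥ 1}` (basis
`p i - p 0`), which is `det B`: subtract the row `0` of `B` from the other rows, then add all columns to
the column `0`, which becomes `(1, 0, 0, 0)`. So `vol (convexHull (range v)) = |det B| vol (convexHull (range p))`
(`MeasureTheory.Measure.addHaar_image_linearMap`). -/
def S_SIM : Prop :=
  ∀ (b : E3 →ᵃ[ℝ] (Fin 4 → ℝ)) (v : Fin 4 → E3), (∀ x, ∑ i, b x i = 1) →
    (∀ i j, 0 ≤ b (v i) j) → 3 < ∑ i, b (v i) i →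
    ∃ p : Fin 4 → E3, AffineIndependent ℝ p ∧
      {x : E3 | ∀ i, 0 ≤ b x i} = convexHull ℝ (range p) ∧ AffineIndependent ℝ v ∧
      (∑ i, b (v i) i - 3) * vol (convexHull ℝ (range p)) ≤ vol (convexHull ℝ (range v))

/-- the points of the simplex with vertices `p i` given by barycentric coordinates in `[l, m]` -/
def slab (p : Fin 4 → E3) (l m : ℝ) : Set E3 :=
  {x | ∃ β : Fin 4 → ℝ, ∑ i, β i = 1 ∧ (∀ i, l ≤ β i ∧ β i ≤ m) ∧ x = ∑ i, β i • p i}

/-- SLAB. Volumes of truncated simplices. Proof: (1) `slab p l 1` for `0 ≤ l < 1/4` is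
`{∀ i, l ≤ β i}` (then automatically `β i ≤ 1`), the image of the simplex under the homothety with
ratio `1 - 4 l` and centre `g = (1/4) ∑ p i`. (2) `slab p 0 (1/2)`: the simplex `S` is the disjoint
union of `slab p 0 (1/2)` and of the four sets `{x ∈ S | β i > 1/2}`, and this set is the image of `S`
minus the face `β i = 0` (a null set, or: compare with `{β i ≥ 1/2}`, the image of `S` under the
homothety with centre `p i` and ratio `1/2`, overlaps are in the null sets `{β i = 1/2}`), of volume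
`|S|/8`. (3) Let `0 ≤ t ≤ 1/8`, `l = t/4`, `m = 1/2 - 3t/4`. By a homothety with ratio `1 - t` and centre
`g` (`β = t/4 + (1 - t) c`) the volume is `(1 - t)³` times the volume of `{c ≥ 0, ∑ c = 1, c i ≤ γ}`,
`γ = (1/2 - t)/(1 - t) < 1/2`. By the Bonferroni inequality (`1_{∪ C_i} ≥ ∑ 1_{C_i} - ∑_{i<j} 1_{C_i ∩ C_j}`)
this is at most `|S| - ∑ |C_i| + ∑_{i<j} |C_i ∩ C_j|` with `C_i = {c i ≥ γ}` (homothetic with ratio
`1 - γ` and centre `p i`, volume `(1 - γ)³ |S|`) and `C_i ∩ C_j = {c i ≥ γ, c j ≥ γ}` (homothetic to `S`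
with ratio `1 - 2 γ`, volume `(1 - 2 γ)³ |S|`). Since `(1 - t)(1 - γ) = 1/2` and
`(1 - t)(1 - 2 γ) = t` the result is `((1 - t)³ - 1/2 + 6 t³) |S|`. -/
def S_SLAB : Prop :=
  ∀ p : Fin 4 → E3, AffineIndependent ℝ p →
    (∀ l : ℝ, 0 ≤ l → l < 1 / 4 →
      vol (slab p l 1) = (1 - 4 * l) ^ 3 * vol (convexHull ℝ (range p))) ∧
    vol (slab p 0 (1 / 2)) = vol (convexHull ℝ (range p)) / 2 ∧
    (∀ t : ℝ, 0 ≤ t → t ≤ 1 / 8 → vol (slab p (t / 4) (1 / 2 - 3 * t / 4)) ≤
      ((1 - t) ^ 3 - 1 / 2 + 6 * t ^ 3) * vol (convexHull ℝ (range p)))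

/-- OCT (from SHELL, SLAB). The octahedron of a simplex. Proof. Let `S₁` be the simplex,
`g = (1/4) ∑ p i`, `O = {y | g + y ∈ S₁ ∧ g - y ∈ S₁}`; it is compact, convex, symmetric, and `g + O` is
`slab p 0 (1/2)` (the coordinates of `g - y` are `1/2 - β i`), so `2 vol O = vol S₁`, and the interior is
nonempty (`g` is an interior point of `S₁`). Let `S` be a body with carrier `S₁`, `σ = vol S > 0`, and
`S₀ = tr (-g) S` (`0 ∈ interior S₀`; mixed volumes do not see translations). The linear part of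
the `i`-th coordinate takes all values of `[-1/4, 1/4]` on `O` and of `[-1/4, 3/4]` on `S₀`.
(a) `TV S S O ≥ σ`. Let `0 < t < 1`. If `x + t O ⊆ S₁` then all coordinates of `x` are `≥ t/4`. So
`vol (ero S (t • O)) ≤ (1 - t)³ σ` by SLAB, and SHELL and `vol_add_smul` give
`σ (1 - (1 - t)³) ≤ 3 t TV S S O + 3 t² TV S O O + t³ vol O`. Divide by `3 t`, `t → 0`.
(b) `TV S O O ≥ σ`. Let `0 < t ≤ 1/8`, `O' = tr g O` with carrier `slab p 0 (1/2)`. If `x + t S₀ ⊆ O'` then
the coordinates of `x` are in `[t/4, 1/2 - 3t/4]`. SHELL for `K = O'`, `L = t • S₀` and SLAB: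
`σ ≤ ((1 - t)³ - 1/2 + 6 t³) σ + σ/2 + 3 t TV O O S + 3 t² TV O S S + t³ σ`. Divide by `3 t`, `t → 0`.
(c) `TV S S (ng S) ≥ 3 σ`. If `x - t S₀ ⊆ S₁`, `0 < t < 1/3`, then the coordinates of `x` are
`≥ 3 t/4`, so the volume of the erosion is `≤ (1 - 3 t)³ σ`; continue as in (a) with `L = t • ng S₀`.
(d) `TV S X O ≥ TV S S X` for `X = ng S`. For `ε > 0` the Alexandrov-Fenchel inequality `TV_af` with
`A = S + ε • X`, `B = O`, `C = S` gives `TV A A S * TV O O S ≤ TV A O S ^ 2`. Here `TV O O S ≥ σ` by (b),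
`TV A A S ≥ σ + 2 ε TV X S S`, and `TV A O S = TV S O S + ε TV X O S ≤ σ + ε TV X O S` (`g + O ⊆ S`). So
`σ² + 2 ε σ TV X S S ≤ σ² + 2 ε σ TV X O S + ε² (TV X O S)²`; divide by `2 ε σ`, `ε → 0`. With (c) this
is `3 σ ≤ TV S (ng S) O`. -/
def S_OCT : Prop :=
  ∀ p : Fin 4 → E3, AffineIndependent ℝ p →
    ∃ O : ConvexBody E3, Fat (O : Set E3) ∧ Sym (O : Set E3) ∧
      (∃ g : E3, ∀ y ∈ O, g + y ∈ convexHull ℝ (range p)) ∧
      2 * vol (O : Set E3) = vol (convexHull ℝ (range p)) ∧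
      ∀ S : ConvexBody E3, (S : Set E3) = convexHull ℝ (range p) →
        vol (S : Set E3) ≤ TV S S O ∧ vol (S : Set E3) ≤ TV S O O ∧
          3 * vol (S : Set E3) ≤ TV S (ng S) O

/-- TOP. A symmetric part of a simplex has at most half of its volume. Proof: let
`S = convexHull (range p)`, `f c = vol (sy c S)`. (1) `f ((c + c')/2) ≥ min (f c) (f c')`: if both sets
are nonempty, `½ (sy c S) + ½ (sy c' S) ⊆ sy ((c + c')/2) S`, and use Brunn-Minkowski (`bm` in
`Base.lean`; the sets `sy c S` are compact and convex). (2) For an affine map `σ` which permutes the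
`p i`: `σ '' S = S`, `σ` preserves the volume (its linear part has determinant `± 1`; e.g. because
`σ '' S = S` and `0 < vol S < ∞`, or because `σ ∘ σ = id` for a transposition), and
`σ '' (sy (2 c) S) = sy (2 σ c) S`, so `f (2 σ c) = f (2 c)`. (3) By (1), (2) for the transposition of two
vertices: `f (2 c) ≤ f (2 c₁)` where `c₁` has the same barycentric coordinates as `c`, except that those
of these two vertices are replaced by their average. Doing this for the pairs `(0 1), (2 3), (0 2),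
(1 3)` all coordinates become equal, so `f (2 c) ≤ f (2 g)`, `g = (1/4) ∑ p i`. (4) `f (2 g) = vol S / 2`:
`sy (2 g) S` is the set of points with barycentric coordinates in `[0, 1/2]` (`S_SLAB`, which may
be used as a hypothesis). -/
def S_TOP : Prop :=
  ∀ p : Fin 4 → E3, AffineIndependent ℝ p → ∀ c : E3,
    2 * vol (sy c (convexHull ℝ (range p))) ≤ vol (convexHull ℝ (range p))

/-- FIVE. Polytopes with at most five vertices. Proof: `Pool.Agent.H619.CS.ind
(Pool.Agent.H619.CS.sim Pool.Agent.H619.CS.aff) (Pool.Agent.H619.CS.step …) : S_IND` (see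
`Pool/Agent/Results/MP_e508a7_gt/FewVertices.lean` for the term) with `n = 3` and any affinely
independent `v : Fin 4 → E3` gives
`symv volume (hull v) * volume (hull w) ≤ symv volume (hull w) * volume (hull v)`, where
`symv volume K = volume {x ∈ K | 2 cen K - x ∈ K}` and `cen` is the centroid. Take `c = 2 cen (hull w)`. It
remains that `volume (hull v) = 2 symv volume (hull v)`: by `S_SLAB` (use it as a hypothesis) since
the centroid of a simplex is `(1/4) ∑ v i`. Proof of this: the centroid is fixed by the affine maps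
exchanging two vertices (they map the simplex to itself; `Pool.Agent.H619.CS.aff`, or change of
variables), and the only point fixed by all of them is the average of the vertices (equal
barycentric coordinates). -/
def S_FIVE : Prop :=
  ∀ w : Fin 5 → E3, Fat (convexHull ℝ (range w)) →
    ∃ c : E3, vol (convexHull ℝ (range w)) ≤ 2 * vol (sy c (convexHull ℝ (range w)))

/-- FIN (from LIM, ASYM, SIM, OCT). The universal bound. Proof. Let `a³` be the supremum of the set of
all `r ≥ 0` with `Good r` (it contains `0`, is bounded by `1`, and is a lower set), so `a` satisfies the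
hypotheses of LIM. Suppose `a³ ≤ 0.386`; take `K` from LIM with `C = 1000` and a small `γ`
(`γ = 10⁻⁴` or smaller). `vol K = 1`, `w = TV K K (ng K)`; also `TV K (ng K) (ng K) = w` by `TV_ng`.
(0) If `-K ⊆ x + s K`, `0 ≤ s`, then `w ≤ s` (`TV_mono3`, `TV_tr3`, `TV_smul3`). So for every
`0 ≤ s < w` ASYM applies; as `b (v i) i ≤ 1` it gives `1 + s ≤ 4`; hence `w ≤ 3`.
(1) `Z = K + ng K`: `vol Z = 2 + 6 w` (`vol_add`), `TV K K Z = 1 + w`. LIM with `z = (2 + 6 w)^(1/3)`:
`2 + 6 w ≤ (a (1 + w) + γ)³`. As `a³ ≤ 0.386` this implies `w > 2.553`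
(for `0 ≤ w ≤ 2.553` we have `2 + 6 w ≥ 0.3861 (1 + w)³`).
(2) ASYM with `s = w - γ > 2` and SIM: a simplex `S' = convexHull (range p) ⊇ K`, `v i ∈ K`,
`x := vol (convexHull (range v)) ≥ (s - 2) σ'`, `σ' = vol S' ≥ 1`; `x ≤ 1`, so `σ' ≤ 2`.
(3) `Z = O'`, the octahedron of `S'`: `TV K K O' ≤ TV S' S' S' = σ'`, `vol O' = σ' / 2`. LIM gives
`(σ'/2)^(1/3) ≤ a σ' + γ ≤ (a + γ) σ'`, so `1/2 ≤ (a + γ)³ σ'²` and `σ' ≥ 1.138` (`0.386 · 1.138² < 0.49989`).
(4) `Z = K + ng K + (1/2) • O`, `O` the octahedron of `S = convexHull (range v) ⊆ K`: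
`TV K K Z ≤ 1 + w + 1/2` (`g + O ⊆ K`), and, with `D = K + ng K`,
`vol Z = vol D + (3/2) TV D D O + (3/4) TV D O O + (1/8) vol O
  ≥ 2 + 6 w + (3/2) · 8 x + (3/4) · 2 x + x/16 = 2 + 6 w + (217/16) x`, because
`TV D D O ≥ TV (S + ng S) (S + ng S) O = 2 TV S S O + 2 TV S (ng S) O ≥ 8 x` and
`TV D O O ≥ 2 TV S O O ≥ 2 x` (`ng O = O`, `TV_ng`). With (2), (3): `x ≥ 1.138 (w - γ - 2)`. LIM:
`2 + 6 w + (217/16) x ≤ (a (w + 3/2) + γ)³`, but for `2.553 ≤ w ≤ 3`
`2 + 6 w + (217/16) · 1.138 (w - 2) ≥ 0.386 (w + 3/2)³ + 0.1`. Contradiction. So `a³ > 0.386`, and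
`Good 0.385`. (The bounds `≤ C = 1000` in LIM are clear: all the mixed volumes of `K, ng K, O` are
at most `3`, those of `K, O'` at most `2`.) -/
def S_FIN : Prop := Good (77 / 200)

end Pool.Agent.H619.SB

end
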